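import Mathlib
import Pool.Agent.Lib_helper9.LG.StmtsD

set_option autoImplicit false

/-!
Isolated primes in the classes of every modulus: the interface between BLOCK P (the bilinear lemma,
statement `S_LPG`) and the REST.
-/

namespace IP

open Finset Pool.Agent.Lib_helper9.LG

noncomputable section

/-- The function `G` of the engine: sites `S`, sieve primes in the blocks `P j`, `j < N`, large
primes `Q`, `c = b + W x`. -/
def Gf (P : ℕ → Finset ℕ) (bb : ℕ → ℕ) (N m W b : ℕ) (Q S : Finset ℕ) (a B B1 : ℝ) (x : ℕ) : ℝ :=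
  GD (fun i : {l // l ∈ Q} => Real.log ((i : ℕ) : ℝ)) a B B1
    (fun (i : {l // l ∈ Q}) (k : {k // k ∈ S}) (x : ℕ) => xx m i k (b + W * x))
    (fun (A : Finset {k // k ∈ S}) (x : ℕ) =>
      Lm P bb N m (A.map (Function.Embedding.subtype _)) (b + W * x)) x

/-- The `x < n` with `b + W x` coprime to `m`. -/
def Om (m W b n : ℕ) : Finset ℕ := (range n).filter (fun x => (b + W * x).Coprime m)

/-- The `x < n` with `b + W x + i m` prime. -/
def Pi (m W b i n : ℕ) : Finset ℕ := (range n).filter (fun x => (b + W * x + i * m).Prime)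

/-- The logarithmic weight. -/
def lw (m W b i x : ℕ) : ℝ := Real.log ((b + W * x + i * m : ℕ) : ℝ)

/-- The total weight of the primes. -/
def Th (m W b i n : ℕ) : ℝ := ∑ x ∈ Pi m W b i n, lw m W b i x

/-- The mean value over the `x < n` with `b + W x` coprime to `m` (normalised by the expected
number). -/
def mn (m W b n : ℕ) (F : ℕ → ℝ) : ℝ := (∑ x ∈ Om m W b n, F x) / ((n : ℝ) * ((m.totient : ℝ) / m))

/-- The parameters of one class: `L = log m`, sieve primes in `(L^100, exp (η L)]`, large primes in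
`(exp (η L), exp B1]`, the site `i` of the prime is not in `S`. -/
structure Par (η : ℝ) (P : ℕ → Finset ℕ) (bb : ℕ → ℕ) (N m W b i n : ℕ) (Q S : Finset ℕ)
    (L a B B1 : ℝ) : Prop where
  hL : L = Real.log m
  hm : 1 ≤ m
  hW : 1 ≤ W
  hWL : (W : ℝ) ≤ Real.exp (2 * Real.sqrt L)
  hWm : W.Coprime m
  hb : b < W
  hbi : (b + i * m).Coprime W
  hi : 2 ≤ i
  hiL : (i : ℝ) ≤ L ^ 2
  hn : n = m / W
  hd : ∀ j < N, ∀ j' < N, j ≠ j' → Disjoint (P j) (P j')
  hS : ∀ l ∈ SS P N, l.Prime ∧ ¬ l ∣ m ∧ ¬ l ∣ W ∧ L ^ 100 < (l : ℝ) ∧ (l : ℝ) ≤ Real.exp (η * L)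
  hQ : ∀ l ∈ Q, l.Prime ∧ ¬ l ∣ m ∧ ¬ l ∣ W ∧ Real.exp (η * L) < (l : ℝ) ∧ (l : ℝ) ≤ Real.exp B1
  hk : ∀ k ∈ S, (k : ℝ) ≤ L ^ 2
  hiS : i ∉ S
  hLV : LV P bb N ≤ Real.exp (L / 1000)
  ha : 0 ≤ a
  haη : a ≤ η * L
  hB1 : 0 < B1
  hB1B : B1 ≤ B
  hB : B ≤ L / 10000

/-- LPG (BLOCK P): the second moment of `G` over the primes is its second moment over all integers
coprime to `m` times the total weight of the primes, up to a small multiple of the square root of
the fourth moment. -/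
def S_LPG : Prop := ∀ η : ℝ, 0 < η → ∃ m₀ : ℕ, ∀ m : ℕ, m₀ ≤ m →
  ∀ (P : ℕ → Finset ℕ) (bb : ℕ → ℕ) (N W b i n : ℕ) (Q S : Finset ℕ) (L a B B1 : ℝ),
  Par η P bb N m W b i n Q S L a B B1 →
  |∑ x ∈ Pi m W b i n, lw m W b i x * Gf P bb N m W b Q S a B B1 x ^ 2 -
      Th m W b i n * mn m W b n (fun x => Gf P bb N m W b Q S a B B1 x ^ 2)| ≤
    Real.exp L / (W * L) * Real.sqrt (mn m W b n (fun x => Gf P bb N m W b Q S a B B1 x ^ 4)) +
      Real.exp (99 / 100 * L)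

end

end IP
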