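import Mathlib
import Pool.Agent.IP.Face

set_option autoImplicit false

/-!
Isolated primes in the classes of every modulus: the REST. All comments are complete proofs.
-/

namespace IP

open Finset Pool.Agent.Lib_helper9.LG

noncomputable section

open Classical in
/-- CRL: lower bound for the mean square of `G` (first half of `coreD`, same hypotheses).
PROOF. The parts `hYZ`, `hZ1`, `hG`, `hYeq`, `hG1` of the proof of `coreD` in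
Lib_helper9/LG/CoreD2.lean, copied. -/
def S_CRL : Prop := ∀ (ι κ σ : Type) [Fintype ι] [DecidableEq ι] [Fintype κ] [DecidableEq κ]
  (q lam : ι → ℝ) (a B B1 : ℝ), (∀ i, 0 < lam i) → (∀ i, 0 < q i) → 0 ≤ a → (∀ i, a ≤ lam i) →
  0 < B1 → 0 ≤ B → a * ∑ T, s0 lam q B1 T = 1 →
  ∀ (x : ι → κ → σ → ℝ) (Ω : Finset σ) (Lam : Finset κ → σ → ℝ) (v : Finset κ → Finset κ → ℝ)
    (V : ℕ → ℝ) (VJ : ℝ) (J : ℕ), V 0 = 1 → (∀ j, 0 ≤ V j) → 0 < VJ → (∀ j ≤ J, VJ ≤ V j) →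
  (∀ α : ι → Option κ, sz lam (spp α) ≤ B → (act α).card ≤ J) →
  (∀ A : Finset κ, A.card ≤ J → V A.card ≤ v A A) →
  (∀ A A' : Finset κ, A.card ≤ J → A'.card ≤ J → |v A A'| ≤ 2) →
  ∀ (M ε e₀ C : ℝ), 0 < M → 0 ≤ e₀ → 0 ≤ ε →
  (∑ α : ι → Option κ, Real.exp (-2 * sz lam (spp α)) ≤ C) →
  (∀ α : ι → Option κ, sz lam (spp α) ≤ B →
      ∏ i ∈ spp α, (1 + ((Fintype.card κ : ℝ) - 1) / q i) ≤ 1 + ε) →
  (∀ α β : ι → Option κ, sz lam (spp α) ≤ B → sz lam (spp β) ≤ B →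
      ∀ A A' : Finset κ, A.card ≤ J → A'.card ≤ J →
      |(∑ ω ∈ Ω, (Lam A ω * vl x α ω) * (Lam A' ω * vl x β ω)) / M - v A A' * gram q α β| ≤
        e₀ * (Real.exp (sz lam (spp α)) * Real.exp (sz lam (spp β)))) →
  1 ≤ ∑ α : ι → Option κ, vw lam B V (fun _ => ww lam q a B1) α ∧
  (∑ α : ι → Option κ, vw lam B V (fun _ => ww lam q a B1) α) * (1 - 2 * ε / VJ) -
    e₀ * (Real.exp (3 * B) * C) ^ 2 ≤ (∑ ω ∈ Ω, GD lam a B B1 x Lam ω ^ 2) / M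

open Classical in
/-- CRU: upper bound for the part of the mean square of `G` where some site is not hit (second half
of `coreD`; here `V 0` is arbitrary).
PROOF. The parts `hYZ`, `hH`, `hcmp`, `hcmp2`, `hcmp3` of the proof of `coreD` in
Lib_helper9/LG/CoreD2.lean, copied. -/
def S_CRU : Prop := ∀ (ι κ σ : Type) [Fintype ι] [DecidableEq ι] [Fintype κ] [DecidableEq κ]
  (q lam : ι → ℝ) (a B B1 : ℝ), (∀ i, 0 < lam i) → (∀ i, 0 < q i) → 0 ≤ a → (∀ i, a ≤ lam i) →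
  0 < B1 → 0 ≤ B → a * ∑ T, s0 lam q B1 T = 1 →
  ∀ (x : ι → κ → σ → ℝ) (Ω : Finset σ) (Lam : Finset κ → σ → ℝ) (v : Finset κ → Finset κ → ℝ)
    (V : ℕ → ℝ) (V1 VJ : ℝ) (J : ℕ), (∀ j, 0 ≤ V j) → 0 ≤ V1 → (∀ j, V (j + 1) ≤ V1 * V j) →
  0 < VJ → (∀ j ≤ J, VJ ≤ V j) →
  (∀ α : ι → Option κ, sz lam (spp α) ≤ B → (act α).card ≤ J) →
  (∀ A : Finset κ, A.card ≤ J + 1 → v A A ≤ 2 * V A.card) →
  (∀ A A' : Finset κ, A.card ≤ J + 1 → A'.card ≤ J + 1 → |v A A'| ≤ 2) →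
  ∀ (M ε e₀ C δ : ℝ), 0 < M → 0 ≤ e₀ → 0 ≤ ε →
  (∑ α : ι → Option κ, Real.exp (-2 * sz lam (spp α)) ≤ C) →
  (∀ α : ι → Option κ, sz lam (spp α) ≤ B →
      ∏ i ∈ spp α, (1 + ((Fintype.card κ : ℝ) - 1) / q i) ≤ 1 + ε) →
  0 ≤ δ → (∀ α : ι → Option κ, sz lam (spp α) ≤ B → ∑ i ∈ spp α, 2 / q i ≤ δ) →
  (∀ α β : ι → Option κ, sz lam (spp α) ≤ B → sz lam (spp β) ≤ B →
      ∀ A A' : Finset κ, A.card ≤ J + 1 → A'.card ≤ J + 1 →
      |(∑ ω ∈ Ω, (Lam A ω * vl x α ω) * (Lam A' ω * vl x β ω)) / M - v A A' * gram q α β| ≤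
        e₀ * (Real.exp (sz lam (spp α)) * Real.exp (sz lam (spp β)))) →
  (∑ ω ∈ Ω.filter (fun ω => ∃ k, (∀ i, x i k ω = 1 / q i) ∧
      ∀ A, Lam (insert k A) ω = Lam A ω), GD lam a B B1 x Lam ω ^ 2) / M ≤
    (Fintype.card κ : ℝ) *
      (2 * V1 * ((δ ^ 2 + Real.exp ((2 * a * (V1 * Fintype.card κ) - (B - B1)) / B1)) *
          ∑ α : ι → Option κ, vw lam B V (fun _ => ww lam q a B1) α) +
        2 * ε / VJ * ∑ α : ι → Option κ, vw lam B V (fun _ => ww lam q a B1) α +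
        e₀ * (Real.exp (3 * B) * C) ^ 2)

/-- MOF: the fourth moment of the sum of the sieve functions with a forced additional site `i`.
PROOF. As `mom` (Lib_helper9/LG/MOMd.lean): the union of the four sets `insert i (A r)` is
`insert i` of the union `U`, of cardinality `|U| + 1 ≤ 4 J + 1` (`i` is not in `S`), and
`VS (j + 1) ≤ VS 1 * VS j` (`VS_succ` in EDa) gives the additional factor `VS 1`. `VUP` is applied
with `U = 4 J + 1` (`175 (4 J + 1) ≤ 700 (J + 1)`). -/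
def S_MOF : Prop := ∀ (P : ℕ → Finset ℕ) (b : ℕ → ℕ) (N m W b₀ M₀ J i : ℕ) (S : Finset ℕ),
  1 ≤ m → 1 ≤ W → 1 ≤ M₀ → W.Coprime m →
  (∀ i < N, ∀ j < N, i ≠ j → Disjoint (P i) (P j)) →
  (∀ l ∈ SS P N, l.Prime ∧ ¬ l ∣ m ∧ ¬ l ∣ W ∧ 16 * J + 16 ≤ l) →
  i ∉ S → (∀ k ∈ insert i S, ∀ l ∈ SS P N, k < l) →
  (∀ j < N, ∑ l ∈ P j, (1 : ℝ) / l ≤ 1) → (∀ j < N, 700 * (J + 1) + j ≤ b j) →
  (∑ x ∈ (range M₀).filter (fun x => (b₀ + W * x).Coprime m),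
      (∑ A ∈ S.powerset.filter (fun A => A.card ≤ J), Lm P b N m (insert i A) (b₀ + W * x)) ^ 4) /
      ((M₀ : ℝ) * ((m.totient : ℝ) / m)) ≤
    VS (SS P N) 1 * (2 * Real.exp (15 * (S.card * VS (SS P N) 1))) +
      ((S.card : ℝ) + 1) ^ (4 * J) * (2 ^ m.primeFactors.card * LV P b N ^ 4 /
        ((M₀ : ℝ) * ((m.totient : ℝ) / m)))

/-- The constant of the fourth moment. -/
def C4 (G0 : ℝ) (J : ℕ) (y : ℝ) : ℝ := (G0 ^ J) ^ 4 * (2 * Real.exp (15 * y) + 1)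

/-- The `x` of `Pi` such that every site of `S` is hit. -/
def Gd (P : ℕ → Finset ℕ) (N m W b i n : ℕ) (Q S : Finset ℕ) : Finset ℕ :=
  (Pi m W b i n).filter (fun x => ∀ k ∈ S, ∃ l ∈ SS P N ∪ Q, l ∣ (b + W * x) + k * m)

/-- EDP: the engine for one class, over the primes.
PROOF (compare `edcore` in Lib_helper9/LG/EDb.lean, whose set-up of `lam`, `q`, `em`, `V`, `hcard`,
`hJ`, `hC` (with `3`), `hε` (with `4 J K / z`), `hδ` (with `4 J / z`), `hvup` is copied).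
`M = n phi(m)/m`, `K = |S|`, `V1 = VS 1`, `T = Th`, `z = exp (η L)`, `Z` = the sum of `vw`.
(1) CRL with `v A A' = vv ![A, A']`: `Z ≥ 1`, `mn G^2 ≥ Z (1 - 1/8) - 1/8 ≥ (3/4) Z` (h2, h3).
(2) hLPG, h5 and (5): `∑_Pi lw G^2 ≥ (3/4) Z T - T / 8`.
(3) For `x ∈ Pi` no prime of `SS` divides `p = b + W x + i m` (`p ≥ 2 m > l`; `l ∤ m`), so
`Lm (insert i A) = Lm A` (last part of `NN`), i.e. `Gf x = G' x`, `G' = GD` with the sieve functions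
`Lam' A = Lm (insert i A)`; also `Pi ⊆ Om` (a prime `p > m` is coprime to `m`).
CRU for `Lam'`, `v' A A' = vv ![insert i A, insert i A']`, `V' j = V1 * V j` (`V j = VS j` for
`j ≤ J + 1`, `0` otherwise), `VJ' = V1 * VJ`: `v' A A ≤ 2 VS (|A| + 1) ≤ 2 V' |A|` by VUP and
`VS_succ` (`4 (J + 2) ≤ 16 J + 16`, `175 (2 J + 3) ≤ 700 (J + 1)`; the union has at most `2 J + 3`
elements), `|v'| ≤ 2`. The `x ∈ Pi` for which some `k ∈ S` is hit by no prime of `SS ∪ Q` are in the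
set of CRU. So `∑_{Pi, not good} lw G^2 ≤ Λ M (K (2 V1 (δ^2 + τ) V1 Z + (2ε/VJ) Z + e)) ≤ (3/16) T Z`
by h1, h2, h3 (`V' = V1 V` gives the sum `V1 Z`, and `2 ε / VJ' * V1 Z = 2 ε / VJ * Z`).
(4) So `∑_{good} lw G^2 ≥ T Z (3/4 - 1/8 - 3/16) ≥ (7/16) T`.
(5) `|Gf| ≤ G0^J ∑_{|A| ≤ J} Lm A` on `Om` (`gb`), so by `stmtMOM`, h4 and `V1 ≤ 1`:
`mn G^4 ≤ C4 G0 J (K V1)`; in the same way `|G'| ≤ G0^J ∑ Lm (insert i A)` and by MOF and h4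
`∑_Pi lw G^4 ≤ Λ M (G0^J)^4 (V1 (2 exp (15 K V1)) + V1) ≤ D T C4` (h6).
(6) Cauchy-Schwarz: `(7/16 T)^2 ≤ (∑_good lw) D T C4`, and `49/256 ≥ 1/16`. -/
def S_EDP : Prop := ∀ (η : ℝ) (P : ℕ → Finset ℕ) (bb : ℕ → ℕ) (N m W b i n J : ℕ)
  (Q S : Finset ℕ) (L a B B1 VJ G0 Λ D : ℝ), Par η P bb N m W b i n Q S L a B B1 → 0 < η →
  |∑ x ∈ Pi m W b i n, lw m W b i x * Gf P bb N m W b Q S a B B1 x ^ 2 -
      Th m W b i n * mn m W b n (fun x => Gf P bb N m W b Q S a B B1 x ^ 2)| ≤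
    Real.exp L / (W * L) * Real.sqrt (mn m W b n (fun x => Gf P bb N m W b Q S a B B1 x ^ 4)) +
      Real.exp (99 / 100 * L) →
  200 ≤ L → L ^ 100 ≤ Real.exp (η * L) → 16 * (J : ℝ) + 16 ≤ L ^ 100 → 1 ≤ n →
  (∀ j < N, ∑ l ∈ P j, (1 : ℝ) / l ≤ 1) → (∀ j < N, 700 * (J + 1) + j ≤ bb j) →
  a * ∑ T : Finset {l // l ∈ Q}, s0 (fun i : {l // l ∈ Q} => Real.log ((i : ℕ) : ℝ))
    (fun i : {l // l ∈ Q} => ((i : ℕ) : ℝ) - 1) B1 T = 1 →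
  B < (J + 1) * (η * L) → 0 < VJ → (∀ j ≤ J, VJ ≤ VS (SS P N) j) →
  2 * ((J : ℝ) + 1) * S.card / Real.exp (η * L) ≤ 1 →
  0 < Th m W b i n → 0 < D → 0 ≤ Λ → (∀ x < n, lw m W b i x ≤ Λ) →
  Λ * ((n : ℝ) * ((m.totient : ℝ) / m)) * VS (SS P N) 1 * (2 * (VS (SS P N) 1 * S.card)) *
    ((4 * J / Real.exp (η * L)) ^ 2 +
      Real.exp ((2 * a * (VS (SS P N) 1 * S.card) - (B - B1)) / B1)) ≤ Th m W b i n / 16 →
  Λ * ((n : ℝ) * ((m.totient : ℝ) / m)) * (((S.card : ℝ) + 1) *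
    ((2 ^ m.primeFactors.card * LV P bb N ^ 2 / ((n : ℝ) * ((m.totient : ℝ) / m))) *
      (Real.exp (3 * B) * 3) ^ 2)) ≤ Th m W b i n / 16 →
  (2 ^ m.primeFactors.card * LV P bb N ^ 2 / ((n : ℝ) * ((m.totient : ℝ) / m))) *
      (Real.exp (3 * B) * 3) ^ 2 ≤ 1 / 8 →
  Λ * ((n : ℝ) * ((m.totient : ℝ) / m)) * (((S.card : ℝ) + 1) *
    (2 * (4 * J * S.card / Real.exp (η * L)) / VJ)) ≤ Th m W b i n / 16 →
  2 * (4 * J * S.card / Real.exp (η * L)) / VJ ≤ 1 / 8 →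
  ((S.card : ℝ) + 1) ^ (4 * J) * (2 ^ m.primeFactors.card * LV P bb N ^ 4 /
        ((n : ℝ) * ((m.totient : ℝ) / m))) ≤ VS (SS P N) 1 →
  Real.exp L / (W * L) * Real.sqrt (C4 G0 J (S.card * VS (SS P N) 1)) +
      Real.exp (99 / 100 * L) ≤ Th m W b i n / 8 →
  Λ * ((n : ℝ) * ((m.totient : ℝ) / m)) * VS (SS P N) 1 ≤ D * Th m W b i n →
  1 ≤ G0 → (∀ k ∈ S, ∀ x ∈ Om m W b n, ∏ l ∈ Q, (1 + |xx m l k (b + W * x)|) ≤ G0) →
  Th m W b i n / (16 * (D * C4 G0 J (S.card * VS (SS P N) 1))) ≤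
    ∑ x ∈ Gd P N m W b i n Q S, lw m W b i x

def M_EDP : Prop := S_CRL → S_CRU → S_MOF → S_EDP

/-- The small primes from `L^100` on. -/
def SPH (m : ℕ) (L z : ℝ) : Finset ℕ :=
  (Icc 1 ⌊z⌋₊).filter (fun l => l.Prime ∧ L ^ 100 < (l : ℝ) ∧ ¬ l ∣ m)

/-- BLH: the blocks. PROOF: filter the blocks of `blk` (StmtBLK) by `L^100 < l`; the sums and `LV`
decrease. -/
def S_BLH : Prop := ∀ η : ℝ, 0 < η → ∀ b₀ : ℕ, ∃ L₀ : ℝ, ∀ L : ℝ, L₀ ≤ L → ∀ m : ℕ, 1 ≤ m →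
  ∃ (P : ℕ → Finset ℕ) (N : ℕ), (∀ i < N, ∀ j < N, i ≠ j → Disjoint (P i) (P j)) ∧
    SS P N = SPH m L (Real.exp (η * L)) ∧ (∀ j < N, ∑ l ∈ P j, (1 : ℝ) / l ≤ 1) ∧
    LV P (fun j => b₀ + j) N ≤ Real.exp (8 * ((b₀ : ℝ) + 2) * (η * L))

/-- VSH: lower bound for the densities. PROOF: StmtVSL (`vsl`); `SPH ⊆ SPr` and all factors are in
`[0, 1]` for `L ≥ J`. -/
def S_VSH : Prop := ∀ η : ℝ, 0 < η → ∀ J : ℕ, ∃ L₀ : ℝ, ∀ L : ℝ, L₀ ≤ L → ∀ m : ℕ, 1 ≤ m →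
  ∀ j ≤ J, 1 / L ^ (3 * J) ≤ VS (SPH m L (Real.exp (η * L))) j

/-- KVH: the expected number of rough sites. PROOF: StmtKVB (`kvb`) and
`VS SPH 1 ≤ VS SPr 1 * ∏ (1 - 1/l)⁻¹` over the primes in `(L^4, L^100]`, a product which is bounded
(Mertens: `V_bounds_succ` in Lib_helper10/Erdos460, as used in G0d, VUPd, KVBd). -/
def S_KVH : Prop := ∃ C : ℝ, 0 < C ∧ ∀ t η : ℝ, 0 < t → 0 < η → ∀ A : ℕ, ∃ L₀ : ℝ, ∀ L : ℝ,
  L₀ ≤ L → ∀ m : ℕ, 1 ≤ m → Real.log m ≤ A * L → ∀ K : ℕ,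
  (K : ℝ) ≤ t * ((m.totient : ℝ) / m) * L + 1 →
  2 * K * (((WW m L).totient : ℝ) / (WW m L)) * VS (SPH m L (Real.exp (η * L))) 1 ≤ C * t / η

/-- PAR: choice of the parameters. PROOF. As `params` in Lib_helper9/LG/G0d.lean: fix `I`, then
`lamb = 12 (- log η) + C'`, and `η` so small that `2 ^ I * (η * lamb) ≤ e`
(`η log η` tends to `0`). -/
def S_PAR : Prop := ∀ C₀ c e C' : ℝ, 0 < C₀ → 0 < c → 0 < e → 0 < C' →
    ∃ (η lamb : ℝ) (I : ℕ), 0 < η ∧ η ≤ e ∧ 1 ≤ lamb ∧ 2 ^ I * (η * lamb) ≤ e ∧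
      8 * C₀ / e + 1 ≤ c * I - 1 ∧ Real.exp (1 - 3 / 4 * lamb) ≤ η ^ 2 / C' ∧ 1 ≤ I

open Classical in
/-- EDQ: the engine for one class, final form. `L = log m`, `W = WW m L`, `n = m / W`.
PROOF (compare `edc` in Lib_helper9/LG/EDc.lean with `e = 1 / 10^8`). `J = ⌊e / η⌋`, `B = e L`,
`B1 = e L / lamb`, `a = 1 / σ`, `Q = BPr m (exp (η L)) (exp B1)`, `P`, `N` from BLH with
`b₀ = 700 (J + 1)`, `LV ≤ exp (8 (b₀ + 2) η L) ≤ exp (L / 8000)`, `VJ = 1 / L^(3 J)`,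
`Λ = 3 L`, `C3` from KVH with `t = 1` (`K = ⌊(phi(m)/m) L⌋ + 1`):
`L (phi(m)/m) (phi(W)/W) V1 ≤ C3 / η`, so with `M ≤ (m/W)(phi(m)/m)` and `Th ≥ m / (8 phi(W))`
`Λ M V1 ≤ 3 (C3 / η) m / phi(W) ≤ D Th`, `D = 24 C3 / η`. The condition on `τ`: `2 a K V1 ≤ e L / 4`
as in `num_h1`, so the exponent is at most `1 - (3/4) lamb` and
`D * 2 (C₀ / η) * exp (1 - 3/4 lamb) ≤ 1/32` by PAR with `C' = 64 * 24 * C3 * C₀`. All other
conditions: powers of `L` (and `W ≤ exp (2 sqrt L)`, `Th ≥ m / (8 phi(W)) ≥ exp (L - 2 sqrt L) / 8`)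
against `exp (- η L)`, `exp (- L / 2)` or `1 / L` (only in `exp L / (W L) * sqrt C4 ≤ Th / 16`,
`Th ≥ exp L / (8 W)`). `G0` as in `edc` (`g0_bound`, `few_dvd`; on `Om` one has `b + W x ≥ 1`, and
`b + W x + k m ≤ m + L^2 m`). `WW m L ≤ exp (2 sqrt L)`: product of the primes up to `sqrt L`
(`primorial_le_4_pow`). `PL` and `SS` primes do not divide `W` (they exceed `sqrt L`). -/
def S_EDQ : Prop := ∀ C₀ : ℝ, 0 < C₀ → ∃ η δ : ℝ, 0 < η ∧ 0 < δ ∧ ∃ m₀ : ℕ, ∀ m : ℕ, m₀ ≤ m →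
  ∀ (b i : ℕ) (S : Finset ℕ), b < WW m (Real.log m) → (b + i * m).Coprime (WW m (Real.log m)) →
  2 ≤ i → (i : ℝ) ≤ Real.log m ^ 2 → (∀ k ∈ S, (k : ℝ) ≤ Real.log m ^ 2) → i ∉ S →
  S.card * VS (SPH m (Real.log m) (Real.exp (η * Real.log m))) 1 ≤ C₀ / η →
  (m : ℝ) / (8 * (WW m (Real.log m)).totient) ≤
    Th m (WW m (Real.log m)) b i (m / WW m (Real.log m)) →
  δ * Th m (WW m (Real.log m)) b i (m / WW m (Real.log m)) ≤
    ∑ x ∈ (Pi m (WW m (Real.log m)) b i (m / WW m (Real.log m))).filter (fun x => ∀ k ∈ S,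
      ∃ l : ℕ, l.Prime ∧ (l : ℝ) ≤ Real.exp (Real.log m / 100) ∧
        l ∣ (b + WW m (Real.log m) * x) + k * m), lw m (WW m (Real.log m)) b i x

def M_EDQ : Prop := S_LPG → S_EDP → S_BLH → S_VSH → S_KVH → S_PAR → S_EDQ

/-- BT: Brun-Titchmarsh for one class.
PROOF. `lin_count_le` (Lib_helper72/AS/Sieve1.lean) for the progression `(b + i m) + W x`,
`0 ≤ x < n`, with `z = ⌊exp (L / 20)⌋`: the number of primes is at most
`(W / phi(W)) (n / (L / 20) + z^6)`, and every logarithm is at most `3 L`. -/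
def S_BT : Prop := ∃ C : ℝ, 0 < C ∧ ∃ m₀ : ℕ, ∀ m : ℕ, m₀ ≤ m → ∀ b i : ℕ,
  b < WW m (Real.log m) → (b + i * m).Coprime (WW m (Real.log m)) → 2 ≤ i →
  (i : ℝ) ≤ Real.log m ^ 2 →
  Th m (WW m (Real.log m)) b i (m / WW m (Real.log m)) ≤
    C * (m / ((WW m (Real.log m)).totient : ℝ))

/-- The sites `k ≤ H`, `k ≠ i`, which survive the sieve by the primes of `W`. -/
def KK (m W b i H : ℕ) : Finset ℕ :=
  (range (H + 1)).filter (fun k => k ≠ i ∧ (b + k * m).Coprime W)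

/-- KAV: the number of surviving sites, on average over the classes of the prime site.
PROOF. For fixed `k ≠ i`, `h = |k - i|`: by the Chinese remainder theorem the number of `b < W` with
`(b + i m)(b + k m)` coprime to `W` is `∏_{p | W} (p - ν)`, `ν = 1` if `p ∣ h`, else `2`, which is
at most `(phi(W)^2 / W) ∏_{p | W, p | h} (1 - 1/p)⁻¹ ≤ (phi(W)^2 / W) (h / phi(h))`
(`(p - 2) p ≤ (p - 1)^2`). Every `h ∈ [1, H]` occurs at most twice, and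
`∑_{h ≤ H} h / phi(h) ≤ C H` (`h / phi(h) = ∑_{d | h} μ(d)^2 / phi(d)`; or `sum_cfac_le` of
Lib_helper72/AP/SumLower). -/
def S_KAV : Prop := ∃ C : ℝ, 0 < C ∧ ∀ m W i H : ℕ, 1 ≤ m → 1 ≤ W → Squarefree W → W.Coprime m →
  i ≤ H → ∑ b ∈ (range W).filter (fun b => (b + i * m).Coprime W), ((KK m W b i H).card : ℝ) ≤
    C * (W.totient * ((W.totient : ℝ) / W) * (H + 1))

/-- TOT: `(phi(m) / m) log m` tends to infinity.
PROOF. `m / phi(m) ≤ ∏_{p | m} (1 - 1/p)⁻¹`; the primes `p ≤ L = log m` contribute at most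
`∏_{p ≤ L} (1 - 1/p)⁻¹ ≤ C log L` (Mertens), the at most `2 L` primes `p > L` at most
`(1 - 1/L)^(-2 L) ≤ e^4`. (StmtKVB, VSL and Vlow contain this argument.) -/
def S_TOT : Prop := ∀ A : ℝ, ∃ m₀ : ℕ, ∀ m : ℕ, m₀ ≤ m →
  A ≤ ((m.totient : ℝ) / m) * Real.log m

/-- The positions of the prime. -/
def II (m : ℕ) (u v : ℝ) : Finset ℕ :=
  (range (⌊v * (((m.totient : ℝ) / m) * Real.log m)⌋₊ + 1)).filter (fun i =>
    u * (((m.totient : ℝ) / m) * Real.log m) < i ∧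
      ((i : ℝ) + 1) ≤ v * (((m.totient : ℝ) / m) * Real.log m))

/-- PSM: the total weight of the primes of all classes and positions.
PROOF. Put `H' = (phi(m)/m) log m`. `∑_{b < W} Th m W b i (m / W)` is the sum of `log p` over the
primes `p = c + i m`, `0 ≤ c < W (m / W)`, hence at least
`theta ((i+1) m - 1) - theta (i m - 1) - W * 3 L`; the sum over the consecutive `i ∈ II` telescopes
to `theta ((i1 + 1) m - 1) - theta (i0 m - 1)`, `(i1 + 1) m ≥ (v H' - 1) m`,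
`i0 m ≤ (u H' + 1) m`; `theta x ~ x` (`H70PNT.theta_tendsto` of Lib_helper70/PNT/PNT, see
Lib_helper72/HM/Window.lean) and `H'` large (TOT). -/
def S_PSM : Prop := ∀ u v : ℝ, 0 < u → u < v → ∃ m₀ : ℕ, ∀ m : ℕ, m₀ ≤ m →
  (v - u) / 2 * ((((m.totient : ℝ) / m) * Real.log m) * m) ≤
    ∑ i ∈ II m u v, ∑ b ∈ range (WW m (Real.log m)),
      Th m (WW m (Real.log m)) b i (m / WW m (Real.log m))

def M_PSM : Prop := S_TOT → S_PSM

open Classical in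
/-- The good pairs (position of the prime, class modulo `W`). -/
def GP (m : ℕ) (u v C1 : ℝ) (H : ℕ) : Finset (ℕ × ℕ) :=
  ((II m u v) ×ˢ (range (WW m (Real.log m)))).filter (fun p =>
    (p.2 + p.1 * m).Coprime (WW m (Real.log m)) ∧
    (m : ℝ) / (8 * (WW m (Real.log m)).totient) ≤
      Th m (WW m (Real.log m)) p.2 p.1 (m / WW m (Real.log m)) ∧
    ((KK m (WW m (Real.log m)) p.2 p.1 H).card : ℝ) ≤
      C1 * (((H : ℝ) + 1) * (((WW m (Real.log m)).totient : ℝ) / (WW m (Real.log m)))))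

/-- SEL: many good pairs.
PROOF. `W = WW m (log m)`, `H' = (phi(m)/m) log m`. PSM: the sum of `Th` over all pairs is at least
`((v - u)/2) H' m`. If `(b + i m, W) > 1` then `Th = 0` (a prime `p' ≤ sqrt L < m` would divide the
prime `p > m`). `#II ≤ (v - u) H'`. The pairs with `Th < m / (8 phi(W))` contribute at most
`(v - u) H' m / 8`. The pairs with more than `C1 (H+1) phi(W)/W` sites contribute, by BT and KAV
(Markov), at most `(C_BT m / phi(W)) #II C_K phi(W) (phi(W)/W) (H+1) / (C1 (H+1) phi(W)/W)`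
`= (C_BT C_K / C1) #II m ≤ (v - u) H' m / 8` for `C1 = 8 C_BT C_K`. What remains is at least
`(v - u) H' m / 4`, every pair has `Th ≤ C_BT m / phi(W)`: `δ₁ = (v - u) / (4 C_BT)`.
(`i ≤ v H' ≤ t H'` gives `i ≤ H` for KAV and `i ≤ L^2`; `i ≥ 2` by TOT.) -/
def S_SEL : Prop := ∃ C1 : ℝ, 0 < C1 ∧ ∀ u v t : ℝ, 0 < u → u < v → v ≤ t →
  ∃ δ₁ : ℝ, 0 < δ₁ ∧ ∃ m₀ : ℕ, ∀ m : ℕ, m₀ ≤ m →
  δ₁ * ((((m.totient : ℝ) / m) * Real.log m) * (WW m (Real.log m)).totient) ≤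
    ((GP m u v C1 ⌊t * (((m.totient : ℝ) / m) * Real.log m)⌋₊).card : ℝ)

def M_SEL : Prop := S_BT → S_KAV → S_TOT → S_PSM → S_SEL

open Classical in
open Classical in
/-- FIN: full support and isolated primes, every modulus.
PROOF. We may assume `0 < a` (otherwise `a := b / 2`). `H' = (phi(m)/m) log m`, `H = ⌊t H'⌋`,
`W = WW m (log m)`, `n = m / W`; C1 from SEL, C from KVH; `C₀ = C1 C t` (KVH with `K = H + 1`:
`(H+1)(phi(W)/W) VS 1 ≤ C t / (2 η)`), `η, δ` from EDQ. For every good pair `(i, b)` (SEL with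
`u = a`, `v = b`) EDQ with `S = KK m W b i H` gives `∑_good lw ≥ δ Th ≥ δ m / (8 phi(W))`, so at
least `δ m / (24 phi(W) log m)` good `x` (`lw ≤ 3 log m`), in total at least
`δ₁ δ H' m / (24 log m) = (δ₁ δ / 24) phi(m)` triples `(i, b, x)`. Put `c = b + W x < m`; the triples
with `c ≤ exp (L / 100)` are negligible (at most `(v H' + 1)(exp (L / 100) + 1)`). For the others the
only prime among `c + k m`, `0 ≤ k ≤ H`, is `c + i m`: `k ∈ KK`: it has a prime factor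
`≤ exp (L / 100) < c`; `k ∉ KK`, `k ≠ i`: it has a prime factor `p ∣ W`, `p ≤ sqrt L < c`.
`c` is coprime to `m` (`c + i m` is a prime larger than `m`), `a H' m < i m ≤ c + i m < (i + 1) m ≤
b H' m`, and `H' m = phi(m) log m`. A prime `q' ≡ c (mod m)` with `q' ≤ t H' m` is `c + k m` with
`k ≤ H`. The map `(i, b, x) ↦ c` is injective on these triples (`i` is the only position of a prime;
`b = c % W`). -/
def S_FIN : Prop := ∀ a b t : ℝ, 0 ≤ a → a < b → b ≤ t → ∃ δ : ℝ, 0 < δ ∧ ∃ m₀ : ℕ, ∀ m : ℕ,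
  m₀ ≤ m → δ * (m.totient : ℝ) ≤ (((range m).filter (fun c => c.Coprime m ∧
    ∃ q : ℕ, q.Prime ∧ q ≡ c [MOD m] ∧ a * (m.totient * Real.log m) < q ∧
      (q : ℝ) ≤ b * (m.totient * Real.log m) ∧
      ∀ q' : ℕ, q'.Prime → q' ≡ c [MOD m] → (q' : ℝ) ≤ t * (m.totient * Real.log m) →
        q' = q)).card : ℝ)

def M_FIN : Prop := S_EDQ → S_SEL → S_KVH → S_TOT → S_FIN

end

end IP
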