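import Mathlib
import Pool.Agent.IP.StmtsR
import Pool.Agent.Lib_helper9.LG.EDa
import Pool.Agent.Lib_helper9.LG.HerrD
import Pool.Agent.Lib_helper9.LG.NNd
import Pool.Agent.Lib_helper9.LG.EXPd
import Pool.Agent.Lib_helper9.LG.VUPd
import Pool.Agent.Lib_helper9.LG.VLOd
import Pool.Agent.Lib_helper9.LG.MOMd
import Pool.Agent.Lib_helper9.LG.Loc
import Pool.Agent.Lib_helper9.LG.GBd

set_option autoImplicit false
set_option linter.unusedSectionVars false
set_option linter.unusedSimpArgs false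
set_option linter.unusedVariables false

/-!
EDP: the engine for one class, over the primes (helper83).
-/

namespace IP

open Finset Pool.Agent.Lib_helper9.LG

noncomputable section

namespace EDP

theorem gbStmt : StmtGB := by
  intro Q S lam a B B1 x Lam J ω G0 hl ha hal hJ hLam hG1 hG
  exact gb hl ha hal x Lam hJ ω hLam hG1 hG

theorem momStmt : StmtMOM := MOMd.mom NNd.nn vup expd

/-- The configurations: the large primes. -/
structure Cfg (Q S : Finset ℕ) (z B : ℝ) (J : ℕ) : Prop where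
  hz : 4 ≤ z
  hQz : ∀ l ∈ Q, z < (l : ℝ)
  hBJ : B < (J + 1) * Real.log z
  hKz : 2 * ((J : ℝ) + 1) * S.card / z ≤ 1

section cfg

variable {Q S : Finset ℕ} {z B : ℝ} {J : ℕ}

/-- the logarithms -/
abbrev la (Q : Finset ℕ) : {l // l ∈ Q} → ℝ := fun i => Real.log ((i : ℕ) : ℝ)

/-- the numbers `l - 1` -/
abbrev qa (Q : Finset ℕ) : {l // l ∈ Q} → ℝ := fun i => ((i : ℕ) : ℝ) - 1

lemma logz (h : Cfg Q S z B J) : 1 ≤ Real.log z := by
  have h5 : Real.exp 1 ≤ z := by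
    have := Real.exp_one_lt_d9
    have := h.hz
    linarith
  have h6 := Real.log_le_log (Real.exp_pos 1) h5
  rwa [Real.log_exp] at h6

lemma la_le (h : Cfg Q S z B J) (i : {l // l ∈ Q}) : Real.log z ≤ la Q i :=
  Real.log_le_log (by have := h.hz; linarith) (h.hQz i i.2).le

lemma la_pos (h : Cfg Q S z B J) (i : {l // l ∈ Q}) : 0 < la Q i := by
  have := la_le h i
  have := logz h
  linarith

lemma qa_le (h : Cfg Q S z B J) (i : {l // l ∈ Q}) : z / 2 ≤ qa Q i := by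
  have := h.hQz i i.2
  have := h.hz
  show z / 2 ≤ ((i : ℕ) : ℝ) - 1
  linarith

lemma qa_pos (h : Cfg Q S z B J) (i : {l // l ∈ Q}) : 0 < qa Q i := by
  have := qa_le h i
  have := h.hz
  linarith

lemma card_cfg (h : Cfg Q S z B J) (T : Finset {l // l ∈ Q}) (hT : sz (la Q) T ≤ B) :
    T.card ≤ J := by
  have hlz := logz h
  have h5 : (T.card : ℝ) * Real.log z ≤ sz (la Q) T := by
    rw [sz, ← nsmul_eq_mul, ← Finset.sum_const]
    apply Finset.sum_le_sum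
    intro i _
    exact la_le h i
  have h6 : (T.card : ℝ) * Real.log z < ((J : ℝ) + 1) * Real.log z := by
    have := h.hBJ
    linarith
  have h7 : (T.card : ℝ) < (J : ℝ) + 1 := lt_of_mul_lt_mul_right h6 (by linarith)
  have h8 : T.card < J + 1 := by exact_mod_cast h7
  omega

lemma card_act (h : Cfg Q S z B J) (α : {l // l ∈ Q} → Option {k // k ∈ S})
    (hα : sz (la Q) (spp α) ≤ B) : (act α).card ≤ J := by
  classical
  refine le_trans ?_ (card_cfg h _ hα)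
  have h5 : (act α).map Function.Embedding.some ⊆ (spp α).image α := by
    intro o ho
    rw [mem_map] at ho
    obtain ⟨k, hk, rfl⟩ := ho
    rw [mem_act] at hk
    obtain ⟨i, hi⟩ := Finset.nonempty_iff_ne_empty.2 hk
    rw [mem_blk] at hi
    rw [mem_image]
    refine ⟨i, ?_, hi⟩
    rw [mem_spp, hi]
    simp
  have h6 := (card_le_card h5).trans card_image_le
  rwa [card_map] at h6

lemma sum_cfg (h : Cfg Q S z B J) (T : Finset {l // l ∈ Q}) (c : ℝ) (hc : 0 ≤ c)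
    (hT : sz (la Q) T ≤ B) : ∑ i ∈ T, c / qa Q i ≤ 2 * J * c / z := by
  have hz0 : 0 < z := by have := h.hz; linarith
  calc ∑ i ∈ T, c / qa Q i ≤ ∑ i ∈ T, c / (z / 2) := by
        apply Finset.sum_le_sum
        intro i _
        exact div_le_div_of_nonneg_left hc (by positivity) (qa_le h i)
    _ = T.card * (c / (z / 2)) := by rw [Finset.sum_const, nsmul_eq_mul]
    _ ≤ J * (c / (z / 2)) := by
        have h5 : (T.card : ℝ) ≤ J := by exact_mod_cast card_cfg h T hT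
        gcongr
    _ = _ := by
        field_simp

lemma exp_cfg (h : Cfg Q S z B J) :
    ∑ α : {l // l ∈ Q} → Option {k // k ∈ S}, Real.exp (-2 * sz (la Q) (spp α)) ≤ 3 := by
  have hz0 : 0 < z := by have := h.hz; linarith
  have hcardS : Fintype.card {k // k ∈ S} = S.card := by simp
  refine (sum_exp_neg (la Q)).trans ?_
  rw [hcardS]
  have h5 : ∑ i : {l // l ∈ Q}, Real.exp (-2 * la Q i) ≤ 2 / z := by
    have h6 : ∀ i : {l // l ∈ Q}, Real.exp (-2 * la Q i) = (((i : ℕ) : ℝ) ^ 2)⁻¹ := by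
      intro i
      have hi : (0 : ℝ) < ((i : ℕ) : ℝ) := by
        have := h.hQz i i.2
        linarith
      show Real.exp (-2 * Real.log ((i : ℕ) : ℝ)) = _
      rw [show -2 * Real.log ((i : ℕ) : ℝ) = -(Real.log ((i : ℕ) : ℝ) * (2 : ℕ)) by
        push_cast; ring, Real.exp_neg, Real.exp_mul, Real.exp_log hi, Real.rpow_natCast]
    rw [Finset.sum_congr rfl fun i _ => h6 i]
    have h7 : ∑ i : {l // l ∈ Q}, (((i : ℕ) : ℝ) ^ 2)⁻¹ =
        ∑ l ∈ Q, ((l : ℝ) ^ 2)⁻¹ :=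
      Finset.sum_coe_sort Q (fun l => ((l : ℝ) ^ 2)⁻¹)
    rw [h7]
    obtain ⟨R, hR⟩ : ∃ R : ℕ, R = Q.sup id + 1 := ⟨_, rfl⟩
    have h8 : Q ⊆ Ioo ⌊z⌋₊ R := by
      intro l hl
      rw [mem_Ioo]
      refine ⟨?_, ?_⟩
      · rw [Nat.floor_lt (by positivity)]
        exact h.hQz l hl
      · rw [hR]
        have : l ≤ Q.sup id := Finset.le_sup (f := id) hl
        omega
    calc ∑ l ∈ Q, ((l : ℝ) ^ 2)⁻¹ ≤ ∑ l ∈ Ioo ⌊z⌋₊ R, ((l : ℝ) ^ 2)⁻¹ :=
          Finset.sum_le_sum_of_subset_of_nonneg h8 fun l _ _ => by positivity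
      _ ≤ 2 / ((⌊z⌋₊ : ℝ) + 1) := sum_Ioo_inv_sq_le _ _
      _ ≤ 2 / z := by
          apply div_le_div_of_nonneg_left (by norm_num) (by positivity)
          exact (Nat.lt_floor_add_one _).le
  have h6 : (S.card : ℝ) * ∑ i : {l // l ∈ Q}, Real.exp (-2 * la Q i) ≤ 1 := by
    have hK0 : (0 : ℝ) ≤ S.card := Nat.cast_nonneg _
    calc (S.card : ℝ) * ∑ i : {l // l ∈ Q}, Real.exp (-2 * la Q i)
        ≤ (S.card : ℝ) * (2 / z) := by gcongr
      _ ≤ 2 * ((J : ℝ) + 1) * S.card / z := by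
          rw [mul_div_assoc', div_le_div_iff_of_pos_right hz0]
          have : (0 : ℝ) ≤ J := Nat.cast_nonneg J
          nlinarith
      _ ≤ 1 := h.hKz
  calc Real.exp ((S.card : ℝ) * ∑ i : {l // l ∈ Q}, Real.exp (-2 * la Q i)) ≤ Real.exp 1 :=
        Real.exp_le_exp.2 h6
    _ ≤ 3 := by
        have := Real.exp_one_lt_d9
        linarith

lemma eps_cfg (h : Cfg Q S z B J) (α : {l // l ∈ Q} → Option {k // k ∈ S})
    (hα : sz (la Q) (spp α) ≤ B) :
    ∏ i ∈ spp α, (1 + ((Fintype.card {k // k ∈ S} : ℝ) - 1) / qa Q i) ≤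
      1 + 4 * J * S.card / z := by
  have hz0 : 0 < z := by have := h.hz; linarith
  have hcardS : Fintype.card {k // k ∈ S} = S.card := by simp
  rw [hcardS]
  obtain ⟨K, hK⟩ : ∃ K : ℝ, K = (S.card : ℝ) := ⟨_, rfl⟩
  have hK0 : 0 ≤ K := by
    rw [hK]
    exact Nat.cast_nonneg _
  rw [← hK]
  have h5 := sum_cfg h (spp α) K hK0 hα
  have h6 : 2 * J * K / z ≤ 1 := by
    refine le_trans ?_ (hK ▸ h.hKz)
    rw [div_le_div_iff_of_pos_right hz0]
    nlinarith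
  have h6' : 0 ≤ 2 * J * K / z := by positivity
  have h7 : ∏ i ∈ spp α, (1 + (K - 1) / qa Q i) ≤ ∏ i ∈ spp α, Real.exp (K / qa Q i) := by
    apply Finset.prod_le_prod
    · intro i _
      have h4 := qa_le h i
      have h5 := qa_pos h i
      have h6 : -1 ≤ (K - 1) / qa Q i := by
        rw [le_div_iff₀ h5]
        have := h.hz
        linarith
      linarith
    · intro i _
      have h5 := qa_pos h i
      have h4 := Real.add_one_le_exp (K / qa Q i)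
      have h6 : (K - 1) / qa Q i ≤ K / qa Q i := div_le_div_of_nonneg_right (by linarith) h5.le
      linarith
  refine h7.trans ?_
  rw [← Real.exp_sum]
  have h8 := exp_sub_one_le (u := 2 * J * K / z) h6' h6
  calc Real.exp (∑ i ∈ spp α, K / qa Q i) ≤ Real.exp (2 * J * K / z) := Real.exp_le_exp.2 h5
    _ ≤ 1 + 2 * (2 * J * K / z) := by linarith
    _ = 1 + 4 * J * K / z := by ring

lemma del_cfg (h : Cfg Q S z B J) (α : {l // l ∈ Q} → Option {k // k ∈ S})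
    (hα : sz (la Q) (spp α) ≤ B) : ∑ i ∈ spp α, 2 / qa Q i ≤ 4 * J / z := by
  refine (sum_cfg h (spp α) 2 (by norm_num) hα).trans (le_of_eq ?_)
  ring

end cfg


section sieve

/-- the sieve primes -/
structure Sv (P : ℕ → Finset ℕ) (b : ℕ → ℕ) (N m W J i : ℕ) (S : Finset ℕ) : Prop where
  hd : ∀ j < N, ∀ j' < N, j ≠ j' → Disjoint (P j) (P j')
  hS1 : ∀ l ∈ SS P N, l.Prime ∧ ¬ l ∣ m ∧ ¬ l ∣ W ∧ 16 * J + 16 ≤ l
  hkS : ∀ k ∈ insert i S, ∀ l ∈ SS P N, k < l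
  hsum : ∀ j < N, ∑ l ∈ P j, (1 : ℝ) / l ≤ 1
  hb : ∀ j < N, 700 * (J + 1) + j ≤ b j
  hiS : i ∉ S

variable {P : ℕ → Finset ℕ} {b : ℕ → ℕ} {N m W J i : ℕ} {S : Finset ℕ}

lemma vv_pair (A A' : Finset ℕ) : vv P b N m ![A, A'] = vv P b N m ![A, A', ∅, ∅] := by
  obtain ⟨-, -, -, -, hL0, hL1, hL2⟩ := NNd.nn
  unfold vv
  congr 1
  apply Finset.sum_congr rfl
  intro c _
  rw [Fin.prod_univ_two, Fin.prod_univ_four]
  simp only [Matrix.cons_val_zero, Matrix.cons_val_one, Matrix.cons_val]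
  rw [hL1]
  ring

lemma vv_nonneg (A A' : Finset ℕ) : 0 ≤ vv P b N m ![A, A'] := by
  obtain ⟨-, -, -, -, hL0, hL1, hL2⟩ := NNd.nn
  unfold vv
  apply div_nonneg _ (Nat.cast_nonneg _)
  apply Finset.sum_nonneg
  intro c _
  apply Finset.prod_nonneg
  intro i _
  exact hL0 _ _ _ _ _ _

lemma vv_up (h : Sv P b N m W J i S) {A A' : Finset ℕ} (hA : A ⊆ insert i S)
    (hA' : A' ⊆ insert i S) (hc : (A ∪ A').card ≤ 2 * J + 3) :
    vv P b N m ![A, A'] ≤ 2 * VS (SS P N) (A ∪ A').card := by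
  have h6 : univ.biUnion (![A, A', ∅, ∅] : Fin 4 → Finset ℕ) = A ∪ A' := by
    ext k
    simp only [mem_biUnion, mem_univ, true_and, mem_union]
    constructor
    · rintro ⟨i, hi⟩
      fin_cases i
      · left; simpa using hi
      · right; simpa using hi
      · simp at hi
      · simp at hi
    · rintro (h | h)
      · exact ⟨0, by simpa using h⟩
      · exact ⟨1, by simpa using h⟩
  rw [vv_pair, ← h6]
  apply vup P b N m (2 * J + 3) _ h.hd
  · intro l hl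
    obtain ⟨g1, g2, g3, g4⟩ := h.hS1 l hl
    exact ⟨g1, g2, by omega⟩
  · intro j k hk l hl
    apply h.hkS k _ l hl
    have h7 : k ∈ A ∪ A' := by
      rw [← h6, mem_biUnion]
      exact ⟨j, mem_univ _, hk⟩
    rw [mem_union] at h7
    rcases h7 with h7 | h7
    · exact hA h7
    · exact hA' h7
  · rw [h6]
    exact hc
  · exact h.hsum
  · intro j hj
    have := h.hb j hj
    omega

lemma vv_two (h : Sv P b N m W J i S) {A A' : Finset ℕ} (hA : A ⊆ insert i S)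
    (hA' : A' ⊆ insert i S) (hc : (A ∪ A').card ≤ 2 * J + 3) : |vv P b N m ![A, A']| ≤ 2 := by
  rw [abs_of_nonneg (vv_nonneg _ _)]
  have h5 := vv_up h hA hA' hc
  have h7 : VS (SS P N) (A ∪ A').card ≤ 1 := by
    apply VS_le_one
    intro l hl
    have := (h.hS1 l hl).2.2.2
    omega
  linarith

/-- the sites as natural numbers -/
abbrev em (S : Finset ℕ) (A : Finset {k // k ∈ S}) : Finset ℕ :=
  A.map (Function.Embedding.subtype _)

lemma em_card (A : Finset {k // k ∈ S}) : (em S A).card = A.card := card_map _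

lemma em_sub (A : Finset {k // k ∈ S}) : em S A ⊆ S := by
  intro k hk
  simp only [em, mem_map] at hk
  obtain ⟨i, _, rfl⟩ := hk
  exact i.2

lemma em_insert [DecidableEq {k // k ∈ S}] (k : {k // k ∈ S}) (A : Finset {k // k ∈ S}) :
    em S (insert k A) = insert (k : ℕ) (em S A) := by
  unfold em
  rw [map_insert]
  rfl

/-- the densities -/
def Vf (P : ℕ → Finset ℕ) (N J j : ℕ) : ℝ := if j ≤ J + 1 then VS (SS P N) j else 0

lemma Vf_le {j : ℕ} (hj : j ≤ J + 1) : Vf P N J j = VS (SS P N) j := by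
  unfold Vf
  rw [if_pos hj]

lemma Vf_zero : Vf P N J 0 = 1 := by
  rw [Vf_le (by omega)]
  simp [VS]

lemma V1_nonneg (h : Sv P b N m W J i S) : 0 ≤ VS (SS P N) 1 := by
  apply VS_nonneg
  intro l hl
  have := (h.hS1 l hl).2.2.2
  omega

lemma V1_le_one (h : Sv P b N m W J i S) : VS (SS P N) 1 ≤ 1 := by
  apply VS_le_one
  intro l hl
  have := (h.hS1 l hl).2.2.2
  omega

lemma Vf_nonneg (h : Sv P b N m W J i S) (j : ℕ) : 0 ≤ Vf P N J j := by
  unfold Vf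
  split_ifs with h1
  · apply VS_nonneg
    intro l hl
    have := (h.hS1 l hl).2.2.2
    omega
  · exact le_rfl

lemma Vf_succ (h : Sv P b N m W J i S) (j : ℕ) :
    Vf P N J (j + 1) ≤ VS (SS P N) 1 * Vf P N J j := by
  by_cases h1 : j + 1 ≤ J + 1
  · rw [Vf_le h1, Vf_le (by omega)]
    apply VS_succ
    intro l hl
    have := (h.hS1 l hl).2.2.2
    omega
  · have h5 : Vf P N J (j + 1) = 0 := by
      unfold Vf
      rw [if_neg h1]
    rw [h5]
    exact mul_nonneg (V1_nonneg h) (Vf_nonneg h j)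

end sieve

section eng

variable {P : ℕ → Finset ℕ} {bb : ℕ → ℕ} {N m W b i n J : ℕ} {Q S : Finset ℕ}
  {z a B B1 VJ : ℝ}

/-- the numbers `x` of the engine -/
abbrev xf (m W b : ℕ) (Q S : Finset ℕ) : {l // l ∈ Q} → {k // k ∈ S} → ℕ → ℝ :=
  fun i k x => xx m i k (b + W * x)

/-- All conditions which do not contain the weights. -/
structure Ctx (P : ℕ → Finset ℕ) (bb : ℕ → ℕ) (N m W b i n J : ℕ) (Q S : Finset ℕ)
    (z a B B1 VJ : ℝ) : Prop where
  sv : Sv P bb N m W J i S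
  cfg : Cfg Q S z B J
  ha : 0 ≤ a
  haz : a ≤ Real.log z
  hB1 : 0 < B1
  hB : 0 ≤ B
  hnorm : a * ∑ T, s0 (la Q) (qa Q) B1 T = 1
  hm : 1 ≤ m
  hW : 1 ≤ W
  hn : 1 ≤ n
  hWm : W.Coprime m
  hQ1 : ∀ l ∈ Q, l.Prime ∧ ¬ l ∣ m ∧ ¬ l ∣ W
  hkQ : ∀ k ∈ insert i S, ∀ l ∈ Q, k < l
  hdQ : Disjoint (SS P N) Q
  hVJ : 0 < VJ
  hVJ2 : ∀ j ≤ J, VJ ≤ VS (SS P N) j

/-- the main sum -/
def ZZ (P : ℕ → Finset ℕ) (N J : ℕ) (Q S : Finset ℕ) (a B B1 : ℝ) : ℝ :=
  ∑ α : {l // l ∈ Q} → Option {k // k ∈ S},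
    vw (la Q) B (Vf P N J) (fun _ => ww (la Q) (qa Q) a B1) α

/-- the normalisation -/
def MM (m n : ℕ) : ℝ := (n : ℝ) * ((m.totient : ℝ) / m)

lemma MM_pos (hm : 1 ≤ m) (hn : 1 ≤ n) : 0 < MM m n := by
  unfold MM
  have h3 : 0 < m.totient := Nat.totient_pos.2 (by omega)
  have h4 : (0 : ℝ) < m.totient := by exact_mod_cast h3
  have h5 : (0 : ℝ) < m := by exact_mod_cast (by omega : 0 < m)
  have h6 : (0 : ℝ) < n := by exact_mod_cast (by omega : 0 < n)
  positivity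

lemma LV_one : 1 ≤ LV P bb N := by
  unfold LV
  refine Finset.prod_induction _ (fun x : ℝ => 1 ≤ x)
    (fun x y hx hy => one_le_mul_of_one_le_of_one_le hx hy) le_rfl fun j _ => ?_
  apply one_le_pow₀
  have : 0 ≤ ∑ l ∈ P j, (l : ℝ) := Finset.sum_nonneg fun l _ => Nat.cast_nonneg l
  linarith

lemma herr (h : Ctx P bb N m W b i n J Q S z a B B1 VJ)
    (α β : {l // l ∈ Q} → Option {k // k ∈ S}) (A A' : Finset ℕ) :
    |(∑ ω ∈ Om m W b n, (Lm P bb N m A (b + W * ω) * vl (xf m W b Q S) α ω) *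
      (Lm P bb N m A' (b + W * ω) * vl (xf m W b Q S) β ω)) / MM m n -
      vv P bb N m ![A, A'] * gram (qa Q) α β| ≤
    (2 ^ m.primeFactors.card * LV P bb N ^ 2 / MM m n) *
      (Real.exp (sz (la Q) (spp α)) * Real.exp (sz (la Q) (spp β))) :=
  herrD expd loc P bb N m W b n Q S α β A A' h.hm h.hW h.hn h.hWm h.sv.hd
    (fun l hl => ⟨(h.sv.hS1 l hl).1, (h.sv.hS1 l hl).2.1, (h.sv.hS1 l hl).2.2.1⟩) h.hQ1 h.hdQ
    (fun k hk => h.hkQ k (mem_insert_of_mem hk))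

open Classical in
/-- CRL for the engine -/
theorem lower (hCRL : S_CRL) (h : Ctx P bb N m W b i n J Q S z a B B1 VJ) :
    1 ≤ ZZ P N J Q S a B B1 ∧
    ZZ P N J Q S a B B1 * (1 - 2 * (4 * J * S.card / z) / VJ) -
      (2 ^ m.primeFactors.card * LV P bb N ^ 2 / MM m n) * (Real.exp (3 * B) * 3) ^ 2 ≤
      mn m W b n (fun x => Gf P bb N m W b Q S a B B1 x ^ 2) := by
  have hz0 : 0 < z := by have := h.cfg.hz; linarith
  have key := hCRL {l // l ∈ Q} {k // k ∈ S} ℕ (qa Q) (la Q) a B B1 (la_pos h.cfg) (qa_pos h.cfg)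
    h.ha (fun i => h.haz.trans (la_le h.cfg i)) h.hB1 h.hB h.hnorm (xf m W b Q S) (Om m W b n)
    (fun A x => Lm P bb N m (em S A) (b + W * x)) (fun A A' => vv P bb N m ![em S A, em S A'])
    (Vf P N J) VJ J Vf_zero (Vf_nonneg h.sv) h.hVJ
    (by
      intro j hj
      rw [Vf_le (by omega)]
      exact h.hVJ2 j hj)
    (card_act h.cfg)
    (by
      intro A hA
      rw [Vf_le (by omega), ← em_card A]
      apply VLOd.vlo NNd.nn P bb N m (em S A)
      · intro l hl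
        obtain ⟨g1, g2, g3, g4⟩ := h.sv.hS1 l hl
        refine ⟨g1, g2, ?_⟩
        rw [em_card]
        omega
      · intro k hk l hl
        exact h.sv.hkS k (mem_insert_of_mem (em_sub A hk)) l hl)
    (by
      intro A A' hA hA'
      apply vv_two h.sv ((em_sub A).trans (subset_insert _ _))
        ((em_sub A').trans (subset_insert _ _))
      refine (card_union_le _ _).trans ?_
      rw [em_card, em_card]
      omega)
    (MM m n) (4 * J * S.card / z) (2 ^ m.primeFactors.card * LV P bb N ^ 2 / MM m n) 3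
    (MM_pos h.hm h.hn)
    (by
      have := MM_pos (m := m) (n := n) h.hm h.hn
      positivity)
    (by positivity) (exp_cfg h.cfg) (eps_cfg h.cfg)
    (fun α β _ _ A A' _ _ => herr h α β (em S A) (em S A'))
  exact key


/-- the engine function with the additional site `i` -/
def Gi (P : ℕ → Finset ℕ) (bb : ℕ → ℕ) (N m W b i : ℕ) (Q S : Finset ℕ) (a B B1 : ℝ) (x : ℕ) : ℝ :=
  GD (la Q) a B B1 (xf m W b Q S)
    (fun (A : Finset {k // k ∈ S}) (x : ℕ) => Lm P bb N m (insert i (em S A)) (b + W * x)) x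

lemma V1_pos (h : Ctx P bb N m W b i n J Q S z a B B1 VJ)
    (h4 : ((S.card : ℝ) + 1) ^ (4 * J) * (2 ^ m.primeFactors.card * LV P bb N ^ 4 / MM m n) ≤
      VS (SS P N) 1) : 0 < VS (SS P N) 1 := by
  refine lt_of_lt_of_le ?_ h4
  have h1 := MM_pos (m := m) (n := n) h.hm h.hn
  have h2 : 0 < LV P bb N := lt_of_lt_of_le one_pos LV_one
  positivity

lemma ins_sub (A : Finset {k // k ∈ S}) : insert i (em S A) ⊆ insert i S :=
  insert_subset_insert _ (em_sub A)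

lemma ins_card (h : Ctx P bb N m W b i n J Q S z a B B1 VJ) (A : Finset {k // k ∈ S}) :
    (insert i (em S A)).card = A.card + 1 := by
  rw [card_insert_of_notMem fun hi => h.sv.hiS (em_sub A hi), em_card]

open Classical in
/-- CRU for the engine -/
theorem upper (hCRU : S_CRU) (h : Ctx P bb N m W b i n J Q S z a B B1 VJ)
    (hV1 : 0 < VS (SS P N) 1) :
    (∑ x ∈ (Om m W b n).filter (fun x => ∃ k : {k // k ∈ S}, (∀ j : {l // l ∈ Q},
        xf m W b Q S j k x = 1 / qa Q j) ∧ ∀ A : Finset {k // k ∈ S},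
          Lm P bb N m (insert i (em S (insert k A))) (b + W * x) =
            Lm P bb N m (insert i (em S A)) (b + W * x)),
      Gi P bb N m W b i Q S a B B1 x ^ 2) / MM m n ≤
    (S.card : ℝ) *
      (2 * VS (SS P N) 1 * (((4 * J / z) ^ 2 +
        Real.exp ((2 * a * (VS (SS P N) 1 * S.card) - (B - B1)) / B1)) *
          (VS (SS P N) 1 * ZZ P N J Q S a B B1)) +
        2 * (4 * J * S.card / z) / VJ * ZZ P N J Q S a B B1 +
        (2 ^ m.primeFactors.card * LV P bb N ^ 2 / MM m n) * (Real.exp (3 * B) * 3) ^ 2) := by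
  have hz0 : 0 < z := by have := h.cfg.hz; linarith
  have hcardS : Fintype.card {k // k ∈ S} = S.card := by simp
  have key := hCRU {l // l ∈ Q} {k // k ∈ S} ℕ (qa Q) (la Q) a B B1 (la_pos h.cfg) (qa_pos h.cfg)
    h.ha (fun i => h.haz.trans (la_le h.cfg i)) h.hB1 h.hB h.hnorm (xf m W b Q S) (Om m W b n)
    (fun A x => Lm P bb N m (insert i (em S A)) (b + W * x))
    (fun A A' => vv P bb N m ![insert i (em S A), insert i (em S A')])
    (fun j => VS (SS P N) 1 * Vf P N J j) (VS (SS P N) 1) (VS (SS P N) 1 * VJ) J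
    (fun j => mul_nonneg hV1.le (Vf_nonneg h.sv j)) hV1.le
    (fun j => mul_le_mul_of_nonneg_left (Vf_succ h.sv j) hV1.le)
    (mul_pos hV1 h.hVJ)
    (by
      intro j hj
      rw [Vf_le (by omega)]
      exact mul_le_mul_of_nonneg_left (h.hVJ2 j hj) hV1.le)
    (card_act h.cfg)
    (by
      intro A hA
      have h5 := vv_up h.sv (ins_sub (i := i) A) (ins_sub (i := i) A) (by
        rw [union_self, ins_card h]
        omega)
      rw [union_self, ins_card h] at h5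
      refine h5.trans ?_
      rw [Vf_le hA]
      have h6 : VS (SS P N) (A.card + 1) ≤ VS (SS P N) 1 * VS (SS P N) A.card := by
        apply VS_succ
        intro l hl
        have := (h.sv.hS1 l hl).2.2.2
        omega
      linarith)
    (by
      intro A A' hA hA'
      apply vv_two h.sv (ins_sub A) (ins_sub A')
      have h5 : insert i (em S A) ∪ insert i (em S A') = insert i (em S A ∪ em S A') := by
        ext k
        simp only [mem_union, mem_insert]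
        tauto
      rw [h5]
      refine (card_insert_le _ _).trans ?_
      have h6 := card_union_le (em S A) (em S A')
      rw [em_card, em_card] at h6
      omega)
    (MM m n) (4 * J * S.card / z) (2 ^ m.primeFactors.card * LV P bb N ^ 2 / MM m n) 3 (4 * J / z)
    (MM_pos h.hm h.hn)
    (by
      have := MM_pos (m := m) (n := n) h.hm h.hn
      positivity)
    (by positivity) (exp_cfg h.cfg) (eps_cfg h.cfg) (by positivity) (del_cfg h.cfg)
    (fun α β _ _ A A' _ _ => herr h α β (insert i (em S A)) (insert i (em S A')))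
  have hZ : ∑ α : {l // l ∈ Q} → Option {k // k ∈ S},
      vw (la Q) B (fun j => VS (SS P N) 1 * Vf P N J j) (fun _ => ww (la Q) (qa Q) a B1) α =
      VS (SS P N) 1 * ZZ P N J Q S a B B1 := by
    unfold ZZ
    rw [Finset.mul_sum]
    apply Finset.sum_congr rfl
    intro α _
    unfold vw
    ring
  rw [hZ, hcardS] at key
  have h7 : 2 * (4 * J * S.card / z) / (VS (SS P N) 1 * VJ) * (VS (SS P N) 1 *
      ZZ P N J Q S a B B1) = 2 * (4 * J * S.card / z) / VJ * ZZ P N J Q S a B B1 := by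
    have := h.hVJ
    field_simp
  rw [h7] at key
  exact key

/-- the fourth moment of a function `GD` -/
theorem four (h : Ctx P bb N m W b i n J Q S z a B B1 VJ) (F : Finset ℕ → Finset ℕ) {G0 : ℝ}
    (hG0 : 1 ≤ G0)
    (hG : ∀ k ∈ S, ∀ x ∈ Om m W b n, ∏ l ∈ Q, (1 + |xx m l k (b + W * x)|) ≤ G0) :
    ∑ x ∈ Om m W b n, (GD (la Q) a B B1 (xf m W b Q S)
      (fun (A : Finset {k // k ∈ S}) (x : ℕ) => Lm P bb N m (F (em S A)) (b + W * x)) x) ^ 4 ≤
    (G0 ^ J) ^ 4 * ∑ x ∈ Om m W b n,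
      (∑ A ∈ S.powerset.filter (fun A => A.card ≤ J), Lm P bb N m (F A) (b + W * x)) ^ 4 := by
  classical
  obtain ⟨-, -, -, -, hL0, hL1, hL2⟩ := NNd.nn
  rw [Finset.mul_sum]
  apply Finset.sum_le_sum
  intro x hx
  have h5 := gbStmt Q S (la Q) a B B1 (xf m W b Q S)
    (fun A x => Lm P bb N m (F (em S A)) (b + W * x)) J x G0 (la_pos h.cfg) h.ha
    (fun i => h.haz.trans (la_le h.cfg i)) (card_act h.cfg)
    (fun A => hL0 _ _ _ _ _ _) hG0
    (by
      intro k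
      have h6 := hG k k.2 x hx
      rw [← Finset.prod_coe_sort] at h6
      exact h6)
  have h6 := sum_subsets S J (fun A => Lm P bb N m (F A) (b + W * x))
  rw [← h6, ← mul_pow, ← Even.pow_abs (n := 4) (by decide)]
  exact pow_le_pow_left₀ (abs_nonneg _) h5 4


/-- every sieve prime is at most the level -/
lemma SS_le_LV (hb : ∀ j < N, 1 ≤ bb j) {l : ℕ} (hl : l ∈ SS P N) : (l : ℝ) ≤ LV P bb N := by
  unfold SS at hl
  rw [mem_biUnion] at hl
  obtain ⟨j, hj, hlj⟩ := hl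
  have hone : ∀ j : ℕ, 1 ≤ (1 + ∑ l ∈ P j, (l : ℝ)) ^ (2 * bb j) := by
    intro j
    apply one_le_pow₀
    have : 0 ≤ ∑ l ∈ P j, (l : ℝ) := Finset.sum_nonneg fun l _ => Nat.cast_nonneg l
    linarith
  have h1 : (l : ℝ) ≤ ∑ l ∈ P j, (l : ℝ) :=
    Finset.single_le_sum (f := fun l : ℕ => (l : ℝ)) (fun l _ => Nat.cast_nonneg l) hlj
  have h2 : (1 + ∑ l ∈ P j, (l : ℝ)) ^ 1 ≤ (1 + ∑ l ∈ P j, (l : ℝ)) ^ (2 * bb j) := by
    apply pow_le_pow_right₀
    · have : 0 ≤ (l : ℝ) := Nat.cast_nonneg l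
      linarith
    · have := hb j (mem_range.1 hj)
      omega
  have h3 : (1 : ℝ) ≤ ∏ j ∈ (range N).erase j, (1 + ∑ l ∈ P j, (l : ℝ)) ^ (2 * bb j) :=
    Finset.prod_induction _ (fun x : ℝ => 1 ≤ x)
      (fun x y hx hy => one_le_mul_of_one_le_of_one_le hx hy) le_rfl fun j _ => hone j
  unfold LV
  rw [← Finset.mul_prod_erase _ _ hj]
  have h4 : (l : ℝ) ≤ (1 + ∑ l ∈ P j, (l : ℝ)) ^ (2 * bb j) := by
    rw [pow_one] at h2
    linarith
  have h5 := hone j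
  nlinarith

lemma Pi_sub (hm : 1 ≤ m) (hi : 2 ≤ i) : Pi m W b i n ⊆ Om m W b n := by
  intro x hx
  unfold Pi at hx
  unfold Om
  rw [mem_filter] at hx ⊢
  refine ⟨hx.1, ?_⟩
  have hp := hx.2
  have h1 : 2 * m ≤ i * m := Nat.mul_le_mul_right m hi
  have h2 : (b + W * x + i * m).Coprime m := by
    rw [Nat.Prime.coprime_iff_not_dvd hp]
    intro hd
    have := Nat.le_of_dvd hm hd
    omega
  have h3 := (Nat.coprime_add_mul_right_left (b + W * x) m i).1 h2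
  exact h3

lemma no_SS (hm : 1 ≤ m) (hi : 2 ≤ i) (hpr : ∀ l ∈ SS P N, l.Prime) (hlm : ∀ l ∈ SS P N, l ≤ m)
    {x : ℕ} (hx : x ∈ Pi m W b i n) : ∀ l ∈ SS P N, ¬ l ∣ b + W * x + i * m := by
  intro l hl hd
  unfold Pi at hx
  rw [mem_filter] at hx
  have h1 : 2 * m ≤ i * m := Nat.mul_le_mul_right m hi
  have h2 := (Nat.prime_dvd_prime_iff_eq (hpr l hl) hx.2).1 hd
  have h3 := hlm l hl
  omega

lemma Gf_eq (hm : 1 ≤ m) (hi : 2 ≤ i) (hpr : ∀ l ∈ SS P N, l.Prime)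
    (hlm : ∀ l ∈ SS P N, l ≤ m) {x : ℕ} (hx : x ∈ Pi m W b i n) :
    Gf P bb N m W b Q S a B B1 x = Gi P bb N m W b i Q S a B B1 x := by
  obtain ⟨-, -, -, -, hL0, hL1, hL2⟩ := NNd.nn
  unfold Gf Gi GD
  apply Finset.sum_congr rfl
  intro α _
  beta_reduce
  rw [hL2 P bb N m i (em S (act α)) (b + W * x) (no_SS hm hi hpr hlm hx)]

/-- the real inequality for the bad part -/
lemma arith1 {Λ M V1 K Z s e3 e T : ℝ} (hΛ : 0 ≤ Λ) (hM : 0 ≤ M) (hK : 0 ≤ K) (hZ : 1 ≤ Z)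
    (hT : 0 ≤ T) (he3 : 0 ≤ e3) (he : 0 ≤ e) (h1 : Λ * M * V1 * (2 * (V1 * K)) * s ≤ T / 16)
    (h2 : Λ * M * ((K + 1) * e) ≤ T / 16) (h3 : Λ * M * ((K + 1) * e3) ≤ T / 16) :
    Λ * (M * (K * (2 * V1 * (s * (V1 * Z)) + e3 * Z + e))) ≤ 3 / 16 * (T * Z) := by
  have a1 : Λ * M * V1 * (2 * (V1 * K)) * s * Z ≤ T / 16 * Z :=
    mul_le_mul_of_nonneg_right h1 (by linarith)
  have hΛM : 0 ≤ Λ * M := mul_nonneg hΛ hM
  have a2 : Λ * M * (K * e3) ≤ T / 16 := by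
    refine le_trans ?_ h3
    apply mul_le_mul_of_nonneg_left _ hΛM
    nlinarith
  have a3 : Λ * M * (K * e) ≤ T / 16 := by
    refine le_trans ?_ h2
    apply mul_le_mul_of_nonneg_left _ hΛM
    nlinarith
  have a4 : Λ * M * (K * e3) * Z ≤ T / 16 * Z := mul_le_mul_of_nonneg_right a2 (by linarith)
  have a5 : T / 16 ≤ T / 16 * Z := by nlinarith
  have a6 : Λ * (M * (K * (2 * V1 * (s * (V1 * Z)) + e3 * Z + e))) =
      Λ * M * V1 * (2 * (V1 * K)) * s * Z + Λ * M * (K * e3) * Z + Λ * M * (K * e) := by ring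
  rw [a6]
  linarith

/-- Cauchy-Schwarz with weights -/
lemma cs {A : Finset ℕ} (w G : ℕ → ℝ) (hw : ∀ x ∈ A, 0 ≤ w x) :
    (∑ x ∈ A, w x * G x ^ 2) ^ 2 ≤ (∑ x ∈ A, w x) * ∑ x ∈ A, w x * G x ^ 4 := by
  have h1 := Finset.sum_mul_sq_le_sq_mul_sq A (fun x => Real.sqrt (w x))
    (fun x => Real.sqrt (w x) * G x ^ 2)
  have h2 : ∑ x ∈ A, Real.sqrt (w x) * (Real.sqrt (w x) * G x ^ 2) = ∑ x ∈ A, w x * G x ^ 2 := by
    apply Finset.sum_congr rfl
    intro x hx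
    rw [← mul_assoc, Real.mul_self_sqrt (hw x hx)]
  have h3 : ∑ x ∈ A, Real.sqrt (w x) ^ 2 = ∑ x ∈ A, w x := by
    apply Finset.sum_congr rfl
    intro x hx
    rw [Real.sq_sqrt (hw x hx)]
  have h4 : ∑ x ∈ A, (Real.sqrt (w x) * G x ^ 2) ^ 2 = ∑ x ∈ A, w x * G x ^ 4 := by
    apply Finset.sum_congr rfl
    intro x hx
    rw [mul_pow, Real.sq_sqrt (hw x hx)]
    ring
  rw [h2, h3, h4] at h1
  exact h1

lemma lw_nonneg (m W b i x : ℕ) : 0 ≤ lw m W b i x := Real.log_natCast_nonneg _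

/-- a weighted sum over the primes against a sum over a set of integers -/
lemma sum_lw_le {A : Finset ℕ} {R : Finset ℕ} (hAR : A ⊆ R) {Λ : ℝ} (hΛ : 0 ≤ Λ)
    (hw : ∀ x ∈ A, lw m W b i x ≤ Λ) (F : ℕ → ℝ) (hF : ∀ x, 0 ≤ F x) :
    ∑ x ∈ A, lw m W b i x * F x ≤ Λ * ∑ x ∈ R, F x := by
  calc ∑ x ∈ A, lw m W b i x * F x ≤ ∑ x ∈ A, Λ * F x :=
        Finset.sum_le_sum fun x hx => mul_le_mul_of_nonneg_right (hw x hx) (hF x)
    _ ≤ ∑ x ∈ R, Λ * F x :=
        Finset.sum_le_sum_of_subset_of_nonneg hAR fun x _ _ => mul_nonneg hΛ (hF x)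
    _ = _ := by rw [Finset.mul_sum]

/-- from the parameters to the context -/
lemma ctx_of {η L : ℝ} (hP : Par η P bb N m W b i n Q S L a B B1) (hL : 200 ≤ L)
    (hL2 : L ^ 100 ≤ Real.exp (η * L)) (hJL : 16 * (J : ℝ) + 16 ≤ L ^ 100) (hn : 1 ≤ n)
    (hsum : ∀ j < N, ∑ l ∈ P j, (1 : ℝ) / l ≤ 1) (hb : ∀ j < N, 700 * (J + 1) + j ≤ bb j)
    (hnorm : a * ∑ T : Finset {l // l ∈ Q}, s0 (fun i : {l // l ∈ Q} => Real.log ((i : ℕ) : ℝ))
      (fun i : {l // l ∈ Q} => ((i : ℕ) : ℝ) - 1) B1 T = 1)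
    (hBJ : B < (J + 1) * (η * L)) (hVJ : 0 < VJ) (hVJ2 : ∀ j ≤ J, VJ ≤ VS (SS P N) j)
    (hKz : 2 * ((J : ℝ) + 1) * S.card / Real.exp (η * L) ≤ 1) :
    Ctx P bb N m W b i n J Q S (Real.exp (η * L)) a B B1 VJ := by
  have h100 : L ^ 2 ≤ L ^ 100 := pow_le_pow_right₀ (by linarith) (by norm_num)
  have hLL : L ≤ L ^ 100 := by
    calc L = L ^ 1 := (pow_one L).symm
      _ ≤ L ^ 100 := pow_le_pow_right₀ (by linarith) (by norm_num)
  have hk : ∀ k ∈ insert i S, (k : ℝ) ≤ L ^ 2 := by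
    intro k hk
    rw [mem_insert] at hk
    rcases hk with rfl | hk
    · exact hP.hiL
    · exact hP.hk k hk
  refine ⟨⟨hP.hd, ?_, ?_, hsum, hb, hP.hiS⟩, ⟨by linarith, fun l hl => (hP.hQ l hl).2.2.2.1, ?_,
    hKz⟩, hP.ha, ?_, hP.hB1, hP.hB1.le.trans hP.hB1B, hnorm, hP.hm, hP.hW, hn, hP.hWm,
    fun l hl => ⟨(hP.hQ l hl).1, (hP.hQ l hl).2.1, (hP.hQ l hl).2.2.1⟩, ?_, ?_, hVJ, hVJ2⟩
  · intro l hl
    obtain ⟨g1, g2, g3, g4, g5⟩ := hP.hS l hl
    refine ⟨g1, g2, g3, ?_⟩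
    have h1 : ((16 * J + 16 : ℕ) : ℝ) ≤ (l : ℝ) := by
      push_cast
      linarith
    exact_mod_cast h1
  · intro k hk' l hl
    have h1 := hk k hk'
    have h2 := (hP.hS l hl).2.2.2.1
    have h3 : (k : ℝ) < l := by linarith
    exact_mod_cast h3
  · rw [Real.log_exp]
    exact hBJ
  · rw [Real.log_exp]
    exact hP.haη
  · intro k hk' l hl
    have h1 := hk k hk'
    have h2 := (hP.hQ l hl).2.2.2.1
    have h3 : (k : ℝ) < l := by linarith
    exact_mod_cast h3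
  · rw [Finset.disjoint_left]
    intro l hl hlQ
    have h1 := (hP.hS l hl).2.2.2.2
    have h2 := (hP.hQ l hlQ).2.2.2.1
    linarith


open Classical in
/-- the final computation -/
theorem final (hMOF : S_MOF) (hCRL : S_CRL) (hCRU : S_CRU) {η L G0 Λ D : ℝ}
    (hP : Par η P bb N m W b i n Q S L a B B1)
    (hLPG : |∑ x ∈ Pi m W b i n, lw m W b i x * Gf P bb N m W b Q S a B B1 x ^ 2 -
      Th m W b i n * mn m W b n (fun x => Gf P bb N m W b Q S a B B1 x ^ 2)| ≤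
      Real.exp L / (W * L) * Real.sqrt (mn m W b n (fun x => Gf P bb N m W b Q S a B B1 x ^ 4)) +
      Real.exp (99 / 100 * L)) (hL : 200 ≤ L)
    (h : Ctx P bb N m W b i n J Q S z a B B1 VJ)
    (hT : 0 < Th m W b i n) (hD : 0 < D) (hΛ : 0 ≤ Λ) (hw : ∀ x < n, lw m W b i x ≤ Λ)
    (h1 : Λ * MM m n * VS (SS P N) 1 * (2 * (VS (SS P N) 1 * S.card)) *
      ((4 * J / z) ^ 2 +
        Real.exp ((2 * a * (VS (SS P N) 1 * S.card) - (B - B1)) / B1)) ≤ Th m W b i n / 16)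
    (h2 : Λ * MM m n * (((S.card : ℝ) + 1) *
      ((2 ^ m.primeFactors.card * LV P bb N ^ 2 / MM m n) *
        (Real.exp (3 * B) * 3) ^ 2)) ≤ Th m W b i n / 16)
    (h2' : (2 ^ m.primeFactors.card * LV P bb N ^ 2 / MM m n) *
      (Real.exp (3 * B) * 3) ^ 2 ≤ 1 / 8)
    (h3 : Λ * MM m n * (((S.card : ℝ) + 1) *
      (2 * (4 * J * S.card / z) / VJ)) ≤ Th m W b i n / 16)
    (h3' : 2 * (4 * J * S.card / z) / VJ ≤ 1 / 8)
    (h4 : ((S.card : ℝ) + 1) ^ (4 * J) * (2 ^ m.primeFactors.card * LV P bb N ^ 4 / MM m n) ≤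
      VS (SS P N) 1)
    (h5 : Real.exp L / (W * L) * Real.sqrt (C4 G0 J (S.card * VS (SS P N) 1)) +
      Real.exp (99 / 100 * L) ≤ Th m W b i n / 8)
    (h6 : Λ * MM m n * VS (SS P N) 1 ≤ D * Th m W b i n)
    (hG0 : 1 ≤ G0)
    (hG : ∀ k ∈ S, ∀ x ∈ Om m W b n, ∏ l ∈ Q, (1 + |xx m l k (b + W * x)|) ≤ G0) :
    Th m W b i n / (16 * (D * C4 G0 J (S.card * VS (SS P N) 1))) ≤
      ∑ x ∈ Gd P N m W b i n Q S, lw m W b i x := by
  have hz0 : 0 < z := by have := h.cfg.hz; linarith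
  obtain ⟨T, hTd⟩ : ∃ T : ℝ, T = Th m W b i n := ⟨_, rfl⟩
  obtain ⟨V1, hV1d⟩ : ∃ V1 : ℝ, V1 = VS (SS P N) 1 := ⟨_, rfl⟩
  obtain ⟨K, hKd⟩ : ∃ K : ℝ, K = (S.card : ℝ) := ⟨_, rfl⟩
  obtain ⟨M, hMd⟩ : ∃ M : ℝ, M = MM m n := ⟨_, rfl⟩
  obtain ⟨C, hCd⟩ : ∃ C : ℝ, C = C4 G0 J (K * V1) := ⟨_, rfl⟩
  have hV1 := V1_pos h h4
  have hV11 := V1_le_one h.sv
  have hM0 : 0 < M := hMd ▸ MM_pos h.hm h.hn
  have hK0 : 0 ≤ K := hKd ▸ Nat.cast_nonneg _
  have hC0 : 0 < C := by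
    rw [hCd]
    unfold C4
    have : 0 < Real.exp (15 * (K * V1)) := Real.exp_pos _
    positivity
  have hm1 : (m : ℝ) = Real.exp L := by
    rw [hP.hL, Real.exp_log]
    exact_mod_cast h.hm
  have hlm : ∀ l ∈ SS P N, l ≤ m := by
    intro l hl
    have a1 := SS_le_LV (P := P) (bb := bb) (N := N) (fun j hj => by
      have := h.sv.hb j hj
      omega) hl
    have a2 : Real.exp (L / 1000) ≤ Real.exp L := Real.exp_le_exp.2 (by linarith)
    have a3 : (l : ℝ) ≤ m := by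
      rw [hm1]
      exact (a1.trans hP.hLV).trans a2
    exact_mod_cast a3
  have hpr : ∀ l ∈ SS P N, l.Prime := fun l hl => (h.sv.hS1 l hl).1
  have hPO : Pi m W b i n ⊆ Om m W b n := Pi_sub h.hm hP.hi
  have hwP : ∀ x ∈ Pi m W b i n, lw m W b i x ≤ Λ := by
    intro x hx
    unfold Pi at hx
    rw [mem_filter, mem_range] at hx
    exact hw x hx.1
  -- the second moment
  obtain ⟨hZ1, hlow⟩ := lower hCRL h
  obtain ⟨Z, hZd⟩ : ∃ Z : ℝ, Z = ZZ P N J Q S a B B1 := ⟨_, rfl⟩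
  obtain ⟨e, hed⟩ : ∃ e : ℝ, e = (2 ^ m.primeFactors.card * LV P bb N ^ 2 / MM m n) *
      (Real.exp (3 * B) * 3) ^ 2 := ⟨_, rfl⟩
  obtain ⟨e3, he3d⟩ : ∃ e3 : ℝ, e3 = 2 * (4 * J * S.card / z) / VJ := ⟨_, rfl⟩
  obtain ⟨s, hsd⟩ : ∃ s : ℝ, s = (4 * J / z) ^ 2 +
        Real.exp ((2 * a * (VS (SS P N) 1 * S.card) - (B - B1)) / B1) := ⟨_, rfl⟩
  have he0 : 0 ≤ e := by
    rw [hed, ← hMd]
    positivity
  have he30 : 0 ≤ e3 := by
    rw [he3d]
    have := h.hVJ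
    positivity
  rw [← hZd] at hZ1 hlow
  rw [← hed] at hlow h2 h2'
  rw [← he3d] at hlow h3 h3'
  rw [← hsd] at h1
  rw [← hMd, ← hTd, ← hKd] at h2 h3
  rw [← hMd, ← hTd, ← hKd, ← hV1d] at h1
  obtain ⟨m2, hm2⟩ : ∃ m2 : ℝ, m2 = mn m W b n (fun x => Gf P bb N m W b Q S a B B1 x ^ 2) :=
    ⟨_, rfl⟩
  obtain ⟨m4, hm4⟩ : ∃ m4 : ℝ, m4 = mn m W b n (fun x => Gf P bb N m W b Q S a B B1 x ^ 4) :=
    ⟨_, rfl⟩
  rw [← hm2] at hlow hLPG
  rw [← hm4, ← hTd] at hLPG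
  have hlow' : 3 / 4 * Z ≤ m2 := by
    have : Z * e3 ≤ Z * (1 / 8) := mul_le_mul_of_nonneg_left h3' (by linarith)
    nlinarith
  -- the fourth moment
  have hmom := momStmt P bb N m W b n J S h.hm h.hW h.hn h.hWm h.sv.hd
    (fun l hl => ⟨(h.sv.hS1 l hl).1, (h.sv.hS1 l hl).2.1, (h.sv.hS1 l hl).2.2.1, by
      have := (h.sv.hS1 l hl).2.2.2
      omega⟩) (fun k hk => h.sv.hkS k (mem_insert_of_mem hk)) h.sv.hsum
    (by
      intro j hj
      have := h.sv.hb j hj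
      omega)
  have hmof := hMOF P bb N m W b n J i S h.hm h.hW h.hn h.hWm h.sv.hd h.sv.hS1 h.sv.hiS
    h.sv.hkS h.sv.hsum h.sv.hb
  have hm4le : m4 ≤ C := by
    rw [hm4, hCd]
    unfold mn C4
    have a1 := four h id hG0 hG
    have a2 : (∑ x ∈ Om m W b n, Gf P bb N m W b Q S a B B1 x ^ 4) / M ≤
        ((G0 ^ J) ^ 4 * ∑ x ∈ Om m W b n,
      (∑ A ∈ S.powerset.filter (fun A => A.card ≤ J), Lm P bb N m (id A) (b + W * x)) ^ 4) / M :=
      div_le_div_of_nonneg_right a1 hM0.le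
    have a3 : (∑ x ∈ Om m W b n,
      (∑ A ∈ S.powerset.filter (fun A => A.card ≤ J), Lm P bb N m (id A) (b + W * x)) ^ 4) / M ≤
      2 * Real.exp (15 * (K * V1)) + 1 := by
      rw [hMd, hKd, hV1d]
      exact hmom.trans (by
        have : ((S.card : ℝ) + 1) ^ (4 * J) * (2 ^ m.primeFactors.card * LV P bb N ^ 4 /
          ((n : ℝ) * ((m.totient : ℝ) / m))) ≤ VS (SS P N) 1 := h4
        linarith)
    rw [mul_div_assoc] at a2
    have a4 : (∑ x ∈ Om m W b n, Gf P bb N m W b Q S a B B1 x ^ 4) / M ≤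
        (G0 ^ J) ^ 4 * (2 * Real.exp (15 * (K * V1)) + 1) :=
      a2.trans (mul_le_mul_of_nonneg_left a3 (by positivity))
    rw [hMd] at a4
    exact a4
  have hGi4 : ∑ x ∈ Om m W b n, Gi P bb N m W b i Q S a B B1 x ^ 4 ≤ M * (V1 * C) := by
    have a1 := four h (fun A => insert i A) hG0 hG
    have a3 : (∑ x ∈ Om m W b n, (∑ A ∈ S.powerset.filter (fun A => A.card ≤ J),
        Lm P bb N m (insert i A) (b + W * x)) ^ 4) / M ≤
        V1 * (2 * Real.exp (15 * (K * V1)) + 1) := by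
      rw [hMd, hKd, hV1d]
      exact hmof.trans (by
        have : ((S.card : ℝ) + 1) ^ (4 * J) * (2 ^ m.primeFactors.card * LV P bb N ^ 4 /
          ((n : ℝ) * ((m.totient : ℝ) / m))) ≤ VS (SS P N) 1 := h4
        linarith)
    rw [div_le_iff₀ hM0] at a3
    calc ∑ x ∈ Om m W b n, Gi P bb N m W b i Q S a B B1 x ^ 4
        ≤ (G0 ^ J) ^ 4 * ∑ x ∈ Om m W b n, (∑ A ∈ S.powerset.filter (fun A => A.card ≤ J),
          Lm P bb N m (insert i A) (b + W * x)) ^ 4 := a1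
      _ ≤ (G0 ^ J) ^ 4 * (V1 * (2 * Real.exp (15 * (K * V1)) + 1) * M) :=
          mul_le_mul_of_nonneg_left a3 (by positivity)
      _ = M * (V1 * C) := by
          rw [hCd]
          unfold C4
          ring
  -- the second moment over the primes
  have hA : 3 / 4 * Z * T - T / 8 ≤
      ∑ x ∈ Pi m W b i n, lw m W b i x * Gf P bb N m W b Q S a B B1 x ^ 2 := by
    have a1 := (abs_le.1 hLPG).1
    have a2 : Real.exp L / (W * L) * Real.sqrt m4 ≤ Real.exp L / (W * L) * Real.sqrt C := by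
      apply mul_le_mul_of_nonneg_left (Real.sqrt_le_sqrt hm4le)
      have : (0 : ℝ) ≤ W := Nat.cast_nonneg _
      have : 0 ≤ L := by linarith
      positivity
    have a3 : Real.exp L / (W * L) * Real.sqrt C + Real.exp (99 / 100 * L) ≤ T / 8 := by
      rw [hCd, hKd, hV1d, hTd]
      exact h5
    have a4 : T * (3 / 4 * Z) ≤ T * m2 := mul_le_mul_of_nonneg_left hlow' (by rw [hTd]; exact hT.le)
    linarith
  -- the bad part
  have hbad : ∑ x ∈ (Pi m W b i n).filter (fun x => ¬ ∀ k ∈ S, ∃ l ∈ SS P N ∪ Q,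
      l ∣ (b + W * x) + k * m), lw m W b i x * Gf P bb N m W b Q S a B B1 x ^ 2 ≤
      3 / 16 * (T * Z) := by
    have a1 := upper hCRU h hV1
    rw [← hsd, ← hed, ← he3d, ← hZd, ← hMd, ← hV1d, ← hKd, div_le_iff₀ hM0] at a1
    have a2 := arith1 hΛ hM0.le hK0 hZ1 (by rw [hTd]; exact hT.le) he30 he0 h1 h2 h3
    refine le_trans ?_ a2
    have a3 : ∑ x ∈ (Pi m W b i n).filter (fun x => ¬ ∀ k ∈ S, ∃ l ∈ SS P N ∪ Q,
        l ∣ (b + W * x) + k * m), lw m W b i x * Gf P bb N m W b Q S a B B1 x ^ 2 =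
        ∑ x ∈ (Pi m W b i n).filter (fun x => ¬ ∀ k ∈ S, ∃ l ∈ SS P N ∪ Q,
        l ∣ (b + W * x) + k * m), lw m W b i x * Gi P bb N m W b i Q S a B B1 x ^ 2 := by
      apply Finset.sum_congr rfl
      intro x hx
      rw [Gf_eq h.hm hP.hi hpr hlm (mem_filter.1 hx).1]
    rw [a3]
    have a4 : (Pi m W b i n).filter (fun x => ¬ ∀ k ∈ S, ∃ l ∈ SS P N ∪ Q,
        l ∣ (b + W * x) + k * m) ⊆
        (Om m W b n).filter (fun x => ∃ k : {k // k ∈ S}, (∀ j : {l // l ∈ Q},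
        xf m W b Q S j k x = 1 / qa Q j) ∧ ∀ A : Finset {k // k ∈ S},
          Lm P bb N m (insert i (em S (insert k A))) (b + W * x) =
            Lm P bb N m (insert i (em S A)) (b + W * x)) := by
      intro x hx
      rw [mem_filter] at hx ⊢
      obtain ⟨hx1, hx2⟩ := hx
      refine ⟨hPO hx1, ?_⟩
      push Not at hx2
      obtain ⟨k, hk, hk2⟩ := hx2
      refine ⟨⟨k, hk⟩, ?_, ?_⟩
      · intro j
        have a5 := hk2 j (mem_union_right _ j.2)
        show xx m j k (b + W * x) = 1 / (((j : ℕ) : ℝ) - 1)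
        unfold xx
        rw [if_neg a5]
      · intro A
        rw [em_insert, insert_comm]
        apply NNd.nn.2.2.2.2.2.2
        intro l hl
        exact hk2 l (mem_union_left _ hl)
    refine (sum_lw_le a4 hΛ (fun x hx => hwP x (mem_filter.1 hx).1) _
      (fun x => sq_nonneg _)).trans ?_
    refine mul_le_mul_of_nonneg_left ?_ hΛ
    rw [mul_comm M]
    exact a1
  -- the good part
  have hgood : 7 / 16 * T ≤
      ∑ x ∈ Gd P N m W b i n Q S, lw m W b i x * Gf P bb N m W b Q S a B B1 x ^ 2 := by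
    have a1 := Finset.sum_filter_add_sum_filter_not (Pi m W b i n)
      (fun x => ∀ k ∈ S, ∃ l ∈ SS P N ∪ Q, l ∣ (b + W * x) + k * m)
      (fun x => lw m W b i x * Gf P bb N m W b Q S a B B1 x ^ 2)
    have a2 : ∑ x ∈ Gd P N m W b i n Q S, lw m W b i x * Gf P bb N m W b Q S a B B1 x ^ 2 =
        ∑ x ∈ (Pi m W b i n).filter (fun x => ∀ k ∈ S, ∃ l ∈ SS P N ∪ Q,
          l ∣ (b + W * x) + k * m), lw m W b i x * Gf P bb N m W b Q S a B B1 x ^ 2 := by
      unfold Gd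
      apply Finset.sum_congr _ fun _ _ => rfl
      congr
    rw [a2]
    have hT0 : 0 < T := by rw [hTd]; exact hT
    nlinarith
  have hfour : ∑ x ∈ Gd P N m W b i n Q S, lw m W b i x * Gf P bb N m W b Q S a B B1 x ^ 4 ≤
      D * T * C := by
    have a1 : ∑ x ∈ Gd P N m W b i n Q S, lw m W b i x * Gf P bb N m W b Q S a B B1 x ^ 4 =
        ∑ x ∈ Gd P N m W b i n Q S, lw m W b i x * Gi P bb N m W b i Q S a B B1 x ^ 4 := by
      apply Finset.sum_congr rfl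
      intro x hx
      rw [Gf_eq h.hm hP.hi hpr hlm (mem_filter.1 hx).1]
    rw [a1]
    have a2 := sum_lw_le (A := Gd P N m W b i n Q S) (R := Om m W b n) (i := i)
      ((filter_subset _ _).trans hPO) hΛ (fun x hx => hwP x (mem_filter.1 hx).1)
      (fun x => Gi P bb N m W b i Q S a B B1 x ^ 4) (fun x => Even.pow_nonneg (by decide) _)
    refine a2.trans ?_
    refine (mul_le_mul_of_nonneg_left hGi4 hΛ).trans ?_
    have a3 : Λ * M * V1 ≤ D * T := by
      rw [hMd, hV1d, hTd]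
      exact h6
    calc Λ * (M * (V1 * C)) = Λ * M * V1 * C := by ring
      _ ≤ D * T * C := mul_le_mul_of_nonneg_right a3 hC0.le
  have hcs := cs (A := Gd P N m W b i n Q S) (lw m W b i) (Gf P bb N m W b Q S a B B1)
    (fun x _ => lw_nonneg m W b i x)
  obtain ⟨X, hX⟩ : ∃ X : ℝ, X = ∑ x ∈ Gd P N m W b i n Q S, lw m W b i x := ⟨_, rfl⟩
  rw [← hX] at hcs ⊢
  have hX0 : 0 ≤ X := by
    rw [hX]
    exact Finset.sum_nonneg fun x _ => lw_nonneg m W b i x
  have hT0 : 0 < T := by rw [hTd]; exact hT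
  have b1 : (7 / 16 * T) ^ 2 ≤ X * (D * T * C) :=
    ((pow_le_pow_left₀ (by positivity) hgood 2).trans hcs).trans
      (mul_le_mul_of_nonneg_left hfour hX0)
  rw [← hTd, ← hKd, ← hV1d, ← hCd, div_le_iff₀ (by positivity)]
  have b2 : T * (49 / 256 * T) ≤ T * (X * (D * C)) := by nlinarith
  have b3 : 49 / 256 * T ≤ X * (D * C) := le_of_mul_le_mul_left b2 hT0
  linarith

end eng

end EDP

/-- **The module.** -/
theorem t_EDP : M_EDP := by
  intro hCRL hCRU hMOF η P bb N m W b i n J Q S L a B B1 VJ G0 Λ D hP hη hLPG hL hL2 hJL hn hsum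
    hb hnorm hBJ hVJ hVJ2 hKz hT hD hΛ hw h1 h2 h2' h3 h3' h4 h5 h6 hG0 hG
  exact EDP.final hMOF hCRL hCRU hP hLPG hL
    (EDP.ctx_of hP hL hL2 hJL hn hsum hb hnorm hBJ hVJ hVJ2 hKz) hT hD hΛ hw h1 h2 h2' h3 h3' h4
    h5 h6 hG0 hG

end

end IP
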