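import Mathlib
import Pool.Agent.IP.StmtsR
import Pool.Agent.Lib_helper9.LG.THDd
import Pool.Agent.Lib_helper72.AS.Sieve1

set_option autoImplicit false

/-!
BT: a Brun-Titchmarsh inequality for one class.
-/

namespace IP

open Finset

noncomputable section

namespace BT

lemma log_le_sum (z : ℕ) : Real.log ((z : ℝ) + 1) ≤ ∑ u ∈ Icc 1 z, (1 : ℝ) / u := by
  have h := log_add_one_le_harmonic z
  rw [harmonic_eq_sum_Icc] at h
  push_cast at h
  refine h.trans (le_of_eq (Finset.sum_congr rfl fun u _ => ?_))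
  rw [one_div]

/-- Everything about the size of the number `L`. -/
lemma size {L : ℝ} (hL : 100 ≤ L) : L * (Real.exp (2 * Real.sqrt L) * Real.exp (6 * (L / 20))) ≤
    Real.exp L := by
  have h0 : 0 ≤ L := by linarith
  have hs : Real.sqrt L ≤ L / 10 := by
    rw [Real.sqrt_le_left (by positivity)]
    nlinarith
  have h1 : L ≤ Real.exp (L / 2) := by
    have h := Real.quadratic_le_exp_of_nonneg (show 0 ≤ L / 2 by positivity)
    nlinarith
  calc L * (Real.exp (2 * Real.sqrt L) * Real.exp (6 * (L / 20)))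
      ≤ Real.exp (L / 2) * (Real.exp (2 * (L / 10)) * Real.exp (6 * (L / 20))) := by gcongr
    _ = Real.exp L := by
      rw [← Real.exp_add, ← Real.exp_add]
      congr 1
      ring

end BT

open BT in
theorem t_BT : S_BT := by
  classical
  refine ⟨63, by norm_num, ⌈Real.exp 100⌉₊, fun m hm b i hb hbi hi hiL => ?_⟩
  set L : ℝ := Real.log m with hLdef
  set W : ℕ := Pool.Agent.Lib_helper9.LG.WW m L with hW
  set n : ℕ := m / W with hn
  have hmexp : Real.exp 100 ≤ (m : ℝ) := (Nat.le_ceil _).trans (by exact_mod_cast hm)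
  have hm0 : (0 : ℝ) < m := (Real.exp_pos _).trans_le hmexp
  have hmN : 0 < m := by exact_mod_cast hm0
  have hL : 100 ≤ L := by
    rw [hLdef, Real.le_log_iff_exp_le hm0]
    exact hmexp
  have hL0 : 0 < L := by linarith
  have hexpL : Real.exp L = m := by rw [hLdef, Real.exp_log hm0]
  have hW1 : 1 ≤ W := Pool.Agent.Lib_helper9.LG.THDd.WW_pos m L
  have hW0 : (0 : ℝ) < W := by exact_mod_cast hW1
  have hWle : (W : ℝ) ≤ Real.exp (2 * Real.sqrt L) := by
    have h1 : (W : ℝ) ≤ 4 ^ ⌊Real.sqrt L⌋₊ := by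
      exact_mod_cast Pool.Agent.Lib_helper9.LG.THDd.WW_le m L
    refine h1.trans ?_
    have h2 : (4 : ℝ) ≤ Real.exp 2 := by
      have h := Real.quadratic_le_exp_of_nonneg (show (0 : ℝ) ≤ 2 by norm_num)
      linarith
    calc (4 : ℝ) ^ ⌊Real.sqrt L⌋₊ ≤ Real.exp 2 ^ ⌊Real.sqrt L⌋₊ := by gcongr
      _ = Real.exp ((⌊Real.sqrt L⌋₊ : ℝ) * 2) := (Real.exp_nat_mul 2 _).symm
      _ ≤ Real.exp (2 * Real.sqrt L) := by
        apply Real.exp_le_exp.mpr
        have := Nat.floor_le (Real.sqrt_nonneg L)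
        linarith
  have hWn : W * n ≤ m := Nat.mul_div_le m W
  have htot : 0 < W.totient := Nat.totient_pos.mpr hW1
  have htot0 : (0 : ℝ) < (W.totient : ℝ) := by exact_mod_cast htot
  set z : ℕ := ⌊Real.exp (L / 20)⌋₊ with hz
  have hz1 : 1 ≤ z := by
    rw [hz]
    apply Nat.le_floor
    push_cast
    exact Real.one_le_exp (by positivity)
  have hzle : (z : ℝ) ≤ Real.exp (L / 20) := Nat.floor_le (Real.exp_pos _).le
  have hzm : (z : ℝ) ≤ m := by
    refine hzle.trans ?_
    rw [← hexpL]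
    apply Real.exp_le_exp.mpr
    linarith
  have hzmN : z ≤ m := by exact_mod_cast hzm
  -- the sum
  have hsum : L / 20 ≤ ∑ u ∈ Icc 1 z, (1 : ℝ) / u := by
    refine le_trans ?_ (log_le_sum z)
    rw [Real.le_log_iff_exp_le (by positivity)]
    exact (Nat.lt_floor_add_one _).le
  -- each prime
  have hbound : ∀ x ∈ Pi m W b i n, lw m W b i x ≤ 3 * L := by
    intro x hx
    rw [Pi, mem_filter, mem_range] at hx
    have h1 : b + W * x ≤ m := by
      have h2 : W * (x + 1) ≤ W * n := Nat.mul_le_mul_left _ hx.1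
      have h3 : W * (x + 1) = W * x + W := by ring
      omega
    have h4 : ((b + W * x + i * m : ℕ) : ℝ) ≤ m * (1 + L ^ 2) := by
      have h5 : ((b + W * x : ℕ) : ℝ) ≤ m := by exact_mod_cast h1
      have h6 : ((b + W * x + i * m : ℕ) : ℝ) = ((b + W * x : ℕ) : ℝ) + i * m := by push_cast; ring
      rw [h6]
      nlinarith [mul_le_mul_of_nonneg_right hiL hm0.le]
    have h7 : (1 + L ^ 2) ≤ Real.exp (2 * L) := by
      have h := Real.quadratic_le_exp_of_nonneg (show 0 ≤ 2 * L by positivity)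
      nlinarith
    rw [lw]
    have hpos : (0 : ℝ) < ((b + W * x + i * m : ℕ) : ℝ) := by exact_mod_cast hx.2.pos
    rw [Real.log_le_iff_le_exp hpos]
    calc ((b + W * x + i * m : ℕ) : ℝ) ≤ m * (1 + L ^ 2) := h4
      _ ≤ Real.exp L * Real.exp (2 * L) := by
        rw [hexpL]
        gcongr
      _ = Real.exp (3 * L) := by
        rw [← Real.exp_add]
        congr 1
        ring
  -- the count
  have hcop : IsCoprime (W : ℤ) ((b + i * m : ℕ) : ℤ) :=
    Nat.isCoprime_iff_coprime.2 (Nat.coprime_comm.1 hbi)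
  have hcount := Pool.Agent.Lib_helper72.AS.lin_count_le hW1 hcop 0 n z hz1
  have hsub : ((Pi m W b i n).card : ℝ) ≤ (((Ico 0 (0 + n)).filter
      (fun x => Nat.Coprime (primorial z)
        (Pool.Agent.Lib_helper72.AS.fL W ((b + i * m : ℕ) : ℤ) x).natAbs)).card : ℝ) := by
    have h1 : Pi m W b i n ⊆ (Ico 0 (0 + n)).filter
      (fun x => Nat.Coprime (primorial z)
        (Pool.Agent.Lib_helper72.AS.fL W ((b + i * m : ℕ) : ℤ) x).natAbs) := by
      intro x hx
      rw [Pi, mem_filter, mem_range] at hx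
      rw [mem_filter, mem_Ico]
      refine ⟨⟨by omega, by omega⟩, ?_⟩
      have h2 : (Pool.Agent.Lib_helper72.AS.fL W ((b + i * m : ℕ) : ℤ) x).natAbs =
          b + W * x + i * m := by
        unfold Pool.Agent.Lib_helper72.AS.fL
        have h3 : (W : ℤ) * (x : ℤ) + ((b + i * m : ℕ) : ℤ) = ((b + W * x + i * m : ℕ) : ℤ) := by
          push_cast
          ring
        rw [h3, Int.natAbs_natCast]
      rw [h2]
      apply Pool.Agent.Lib_helper72.AP.coprime_primorial_of_prime hx.2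
      have h4 : 2 * m ≤ i * m := Nat.mul_le_mul_right _ hi
      omega
    exact_mod_cast Finset.card_le_card h1
  have hcard : (W.totient : ℝ) * ((Pi m W b i n).card : ℝ) ≤ 21 * (m / L) := by
    have h1 : (W.totient : ℝ) * ((Pi m W b i n).card : ℝ) ≤
        W * (n / (∑ u ∈ Icc 1 z, (1 : ℝ) / u) + (z : ℝ) ^ 6) :=
      (mul_le_mul_of_nonneg_left hsub htot0.le).trans hcount
    refine h1.trans ?_
    have h2 : (n : ℝ) / (∑ u ∈ Icc 1 z, (1 : ℝ) / u) ≤ n / (L / 20) := by
      apply div_le_div_of_nonneg_left (Nat.cast_nonneg _) (by positivity) hsum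
    have h3 : (W : ℝ) * n ≤ m := by exact_mod_cast hWn
    have h4 : (W : ℝ) * (n / (L / 20)) ≤ 20 * (m / L) := by
      have h5 : (W : ℝ) * (n / (L / 20)) = 20 * ((W * n) / L) := by
        field_simp
      rw [h5]
      gcongr
    have h6 : (W : ℝ) * (z : ℝ) ^ 6 ≤ m / L := by
      rw [le_div_iff₀ hL0]
      have h7 : (z : ℝ) ^ 6 ≤ Real.exp (6 * (L / 20)) := by
        calc (z : ℝ) ^ 6 ≤ Real.exp (L / 20) ^ 6 := by gcongr
          _ = Real.exp (6 * (L / 20)) := by
            rw [← Real.exp_nat_mul]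
            norm_num
      have h8 := size hL
      rw [hexpL] at h8
      calc (W : ℝ) * (z : ℝ) ^ 6 * L
          ≤ Real.exp (2 * Real.sqrt L) * Real.exp (6 * (L / 20)) * L := by gcongr
        _ = L * (Real.exp (2 * Real.sqrt L) * Real.exp (6 * (L / 20))) := by ring
        _ ≤ m := h8
    calc (W : ℝ) * (n / (∑ u ∈ Icc 1 z, (1 : ℝ) / u) + (z : ℝ) ^ 6)
        ≤ W * (n / (L / 20) + (z : ℝ) ^ 6) := by gcongr
      _ = W * (n / (L / 20)) + W * (z : ℝ) ^ 6 := by ring
      _ ≤ 20 * (m / L) + m / L := add_le_add h4 h6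
      _ = 21 * (m / L) := by ring
  -- conclusion
  have hTh : Th m W b i n ≤ ((Pi m W b i n).card : ℝ) * (3 * L) := by
    rw [Th]
    refine (Finset.sum_le_card_nsmul _ _ _ hbound).trans (le_of_eq ?_)
    rw [nsmul_eq_mul]
  refine hTh.trans ?_
  rw [← mul_div_assoc, le_div_iff₀ htot0]
  calc ((Pi m W b i n).card : ℝ) * (3 * L) * W.totient
      = (W.totient * ((Pi m W b i n).card : ℝ)) * (3 * L) := by ring
    _ ≤ 21 * (m / L) * (3 * L) := by gcongr
    _ = 63 * m := by
      field_simp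
      ring

end

end IP
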