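import Mathlib
import Pool.Agent.IP.StmtsR
import Pool.Agent.Lib_helper9.LG.EDa
import Pool.Agent.Lib_helper9.LG.EDn
import Pool.Agent.Lib_helper9.LG.SIGDd
import Pool.Agent.Lib_helper9.LG.OmD
import Pool.Agent.Lib_helper9.LG.THDd

set_option autoImplicit false
set_option linter.unusedSectionVars false
set_option linter.unusedSimpArgs false

/-!
Isolated primes in the classes of every modulus: the engine for one class, final form.
-/

namespace IP

open Finset Filter Pool.Agent.Lib_helper9.LG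

noncomputable section

namespace EDQ

/-- Facts for large `L`. -/
lemma largeQ (J : ℕ) {η D D2 : ℝ} (hη : 0 < η) (hD : 0 ≤ D) : ∀ᶠ L : ℝ in atTop,
    10 ^ 6 ≤ L ∧ 16 * (J : ℝ) + 16 ≤ L ∧ L ^ 100 ≤ Real.exp (η * L) ∧
    2 * ((J : ℝ) + 1) * (L ^ 2 + 1) * Real.exp (-(η * L)) ≤ 1 ∧
    D * Real.exp (-(η * L)) ≤ 1 ∧
    6912 * L * (L ^ 2 + 2) * Real.exp (-(1 / 2 * L)) ≤ 1 ∧
    3072 * J * L * (L ^ 2 + 2) * (L ^ 2 + 1) * L ^ (3 * J) * Real.exp (-(η * L)) ≤ 1 ∧
    2 * (L ^ 2 + 2) ^ (4 * J) * L ^ (3 * J) * Real.exp (-(1 / 2 * L)) ≤ 1 ∧ D2 ≤ L := by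
  have h2 : (0 : ℝ) < 1 / 2 := by norm_num
  filter_upwards [eventually_ge_atTop ((10 : ℝ) ^ 6), eventually_ge_atTop (16 * (J : ℝ) + 16),
    ev_exp 100 hη (K := 1) (by norm_num), ev_exp 2 hη (K := 4 * ((J : ℝ) + 1)) (by positivity),
    ev_exp 0 hη hD, ev_exp 3 h2 (K := 13824) (by norm_num),
    ev_exp (3 * J + 5) hη (K := 12288 * (J : ℝ)) (by positivity),
    ev_exp (8 * J + 3 * J) h2 (K := 2 * 2 ^ (4 * J)) (by positivity),
    eventually_ge_atTop D2] with L g1 g2 g3 g4 g5 g6 g7 g8 g9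
  have hL0 : 0 ≤ L := by
    refine le_trans ?_ g1
    norm_num
  have hL1 : 2 ≤ L := by
    refine le_trans ?_ g1
    norm_num
  have hL2 : 2 ≤ L ^ 2 := by nlinarith
  have hJ0 : (0 : ℝ) ≤ J := Nat.cast_nonneg J
  refine ⟨g1, g2, ?_, ?_, ?_, ?_, ?_, ?_, g9⟩
  · rw [one_mul, Real.exp_neg, ← div_eq_mul_inv, div_le_one (Real.exp_pos _)] at g3
    exact g3
  · refine le_trans ?_ g4
    apply mul_le_mul_of_nonneg_right _ (Real.exp_nonneg _)
    have : 0 ≤ (J : ℝ) + 1 := by linarith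
    nlinarith
  · simpa using g5
  · refine le_trans ?_ g6
    apply mul_le_mul_of_nonneg_right _ (Real.exp_nonneg _)
    have h3 : L * 2 ≤ L * L ^ 2 := mul_le_mul_of_nonneg_left hL2 hL0
    nlinarith
  · refine le_trans ?_ g7
    apply mul_le_mul_of_nonneg_right _ (Real.exp_nonneg _)
    rw [pow_add]
    calc 3072 * (J : ℝ) * L * (L ^ 2 + 2) * (L ^ 2 + 1) * L ^ (3 * J) ≤
        3072 * (J : ℝ) * L * (2 * L ^ 2) * (2 * L ^ 2) * L ^ (3 * J) := by
          gcongr <;> linarith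
      _ = _ := by ring
  · refine le_trans ?_ g8
    apply mul_le_mul_of_nonneg_right _ (Real.exp_nonneg _)
    have h3 : (L ^ 2 + 2) ^ (4 * J) ≤ (2 * L ^ 2) ^ (4 * J) := by
      gcongr
      linarith
    calc 2 * (L ^ 2 + 2) ^ (4 * J) * L ^ (3 * J) ≤ 2 * (2 * L ^ 2) ^ (4 * J) * L ^ (3 * J) := by
          gcongr
      _ = _ := by
          rw [mul_pow, ← pow_mul, pow_add]
          ring

lemma num_lv {J : ℕ} {η L : ℝ} (hL : 0 < L) (h3 : η ≤ 1 / 10 ^ 8) (h4 : (J : ℝ) * η ≤ 1 / 10 ^ 8) :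
    8 * (((700 * (J + 1) : ℕ) : ℝ) + 2) * (η * L) ≤ L / 1000 := by
  push_cast
  have h1 : 8 * (700 * ((J : ℝ) + 1) + 2) * (η * L) = (5600 * (J * η) + 5616 * η) * L := by ring
  rw [h1]
  have h2 : 5600 * (J * η) + 5616 * η ≤ 1 / 1000 := by
    norm_num at h3 h4
    linarith
  calc (5600 * (J * η) + 5616 * η) * L ≤ 1 / 1000 * L := mul_le_mul_of_nonneg_right h2 hL.le
    _ = L / 1000 := by ring

lemma num_h1 {J : ℕ} {VK C₀ C3 η L a e lamb B1 c : ℝ} {I : ℕ} (hVK0 : 0 ≤ VK)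
    (hC₀ : 0 < C₀) (hC3 : 0 < C3) (hη : 0 < η)
    (hVK : VK ≤ C₀ / η) (hL : 0 < L)
    (ha : a ≤ η * L / (c * I - 1)) (he : 0 < e) (hlamb : 0 < lamb)
    (hB1 : B1 = e * L / lamb) (hcI : 8 * C₀ / e + 1 ≤ c * I - 1)
    (h3' : Real.exp (1 - 3 / 4 * lamb) ≤ η ^ 2 / (64 * 24 * C3 * C₀))
    (e5 : 24576 * C3 * C₀ / η ^ 2 * (J : ℝ) ^ 2 * Real.exp (-(η * L)) ≤ 1) :
    24 * C3 / η * (2 * VK * ((4 * J / Real.exp (η * L)) ^ 2 +
      Real.exp ((2 * a * VK - (e * L - B1)) / B1))) ≤ 1 / 16 := by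
  have hcI0 : 0 < c * I - 1 := by
    have : 0 < 8 * C₀ / e := by positivity
    linarith
  have hB10 : 0 < B1 := by rw [hB1]; positivity
  have h1 : (2 * a * VK - (e * L - B1)) / B1 ≤ 1 - 3 / 4 * lamb := by
    rw [div_le_iff₀ hB10]
    have h2 : 2 * a * VK ≤ e * L / 4 := by
      calc 2 * a * VK ≤ 2 * (η * L / (c * I - 1)) * VK := by gcongr
        _ ≤ 2 * (η * L / (c * I - 1)) * (C₀ / η) := by gcongr
        _ = (2 * C₀ / (c * I - 1)) * L := by
            field_simp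
        _ ≤ (e / 4) * L := by
            apply mul_le_mul_of_nonneg_right _ hL.le
            rw [div_le_iff₀ hcI0]
            have h3 : 8 * C₀ / e ≤ c * I - 1 := by linarith
            rw [div_le_iff₀ he] at h3
            linarith
        _ = _ := by ring
    have h3 : (1 - 3 / 4 * lamb) * B1 = B1 - 3 / 4 * (e * L) := by
      rw [hB1]
      field_simp
    rw [h3]
    linarith
  have h2 : Real.exp ((2 * a * VK - (e * L - B1)) / B1) ≤ η ^ 2 / (64 * 24 * C3 * C₀) :=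
    (Real.exp_le_exp.2 h1).trans h3'
  have h3 : (4 * (J : ℝ) / Real.exp (η * L)) ^ 2 ≤ 16 * J ^ 2 * Real.exp (-(η * L)) := by
    have h4 : (4 * (J : ℝ) / Real.exp (η * L)) ^ 2 =
        16 * J ^ 2 * Real.exp (-(η * L)) * Real.exp (-(η * L)) := by
      rw [Real.exp_neg]
      field_simp
      ring
    rw [h4]
    have h5 : Real.exp (-(η * L)) ≤ 1 := by
      rw [Real.exp_le_one_iff]
      have : 0 ≤ η * L := by positivity
      linarith
    have h6 : 0 ≤ 16 * (J : ℝ) ^ 2 * Real.exp (-(η * L)) := by positivity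
    exact mul_le_of_le_one_right h6 h5
  calc 24 * C3 / η * (2 * VK * ((4 * (J : ℝ) / Real.exp (η * L)) ^ 2 +
        Real.exp ((2 * a * VK - (e * L - B1)) / B1))) ≤
        24 * C3 / η * (2 * (C₀ / η) * (16 * J ^ 2 * Real.exp (-(η * L)) +
          η ^ 2 / (64 * 24 * C3 * C₀))) := by gcongr
    _ = (24576 * C3 * C₀ / η ^ 2 * (J : ℝ) ^ 2 * Real.exp (-(η * L))) / 32 + 1 / 32 := by
        field_simp
        ring
    _ ≤ 1 / 16 := by linarith

lemma num_h2 {K L M p v e : ℝ} (hK0 : 0 ≤ K) (hK : K ≤ L ^ 2 + 1) (hL : 1 ≤ L) (hM : 0 < M)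
    (hp : 0 ≤ p) (hpM : p / M ≤ 2 * Real.exp (-(31 / 40 * L))) (hv0 : 0 ≤ v)
    (hv : v ≤ Real.exp (L / 500)) (he : e = 1 / 10 ^ 8)
    (e6 : 6912 * L * (L ^ 2 + 2) * Real.exp (-(1 / 2 * L)) ≤ 1) :
    384 * L * ((K + 1) * (p * v / M * (Real.exp (3 * (e * L)) * 3) ^ 2)) ≤ 1 := by
  have h1 : (Real.exp (3 * (e * L)) * 3) ^ 2 ≤ 9 * Real.exp (L / 40) := by
    rw [mul_pow, ← Real.exp_nat_mul]
    have h2 : ((2 : ℕ) : ℝ) * (3 * (e * L)) ≤ L / 40 := by
      rw [he]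
      push_cast
      nlinarith
    have h3 := Real.exp_le_exp.2 h2
    linarith
  have h2 : p * v / M ≤ 2 * Real.exp (-(31 / 40 * L)) * Real.exp (L / 500) := by
    rw [mul_div_right_comm]
    gcongr
  have h3 : (K + 1) * (p * v / M * (Real.exp (3 * (e * L)) * 3) ^ 2) ≤
      18 * (L ^ 2 + 2) * Real.exp (-(1 / 2 * L)) := by
    calc (K + 1) * (p * v / M * (Real.exp (3 * (e * L)) * 3) ^ 2) ≤ (L ^ 2 + 2) *
          (2 * Real.exp (-(31 / 40 * L)) * Real.exp (L / 500) * (9 * Real.exp (L / 40))) := by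
          apply mul_le_mul (by linarith) _ (by positivity) (by positivity)
          apply mul_le_mul h2 h1 (by positivity) (by positivity)
      _ = 18 * (L ^ 2 + 2) * (Real.exp (-(31 / 40 * L)) * Real.exp (L / 500) *
          Real.exp (L / 40)) := by ring
      _ ≤ 18 * (L ^ 2 + 2) * Real.exp (-(1 / 2 * L)) := by
          rw [← Real.exp_add, ← Real.exp_add]
          gcongr
          linarith
  calc 384 * L * ((K + 1) * (p * v / M * (Real.exp (3 * (e * L)) * 3) ^ 2)) ≤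
        384 * L * (18 * (L ^ 2 + 2) * Real.exp (-(1 / 2 * L))) := by gcongr
    _ = 6912 * L * (L ^ 2 + 2) * Real.exp (-(1 / 2 * L)) := by ring
    _ ≤ 1 := e6

lemma num_h3 {J : ℕ} {K L η : ℝ} (hK0 : 0 ≤ K) (hK : K ≤ L ^ 2 + 1) (hL : 0 < L)
    (e7 : 3072 * J * L * (L ^ 2 + 2) * (L ^ 2 + 1) * L ^ (3 * J) * Real.exp (-(η * L)) ≤ 1) :
    384 * L * ((K + 1) * (2 * (4 * J * K / Real.exp (η * L)) / (1 / L ^ (3 * J)))) ≤ 1 := by
  have h1 : 2 * (4 * (J : ℝ) * K / Real.exp (η * L)) / (1 / L ^ (3 * J)) =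
      8 * J * K * L ^ (3 * J) * Real.exp (-(η * L)) := by
    rw [Real.exp_neg]
    field_simp
    ring
  rw [h1]
  calc 384 * L * ((K + 1) * (8 * J * K * L ^ (3 * J) * Real.exp (-(η * L)))) ≤
        384 * L * ((L ^ 2 + 2) * (8 * J * (L ^ 2 + 1) * L ^ (3 * J) * Real.exp (-(η * L)))) := by
        apply mul_le_mul_of_nonneg_left _ (by positivity)
        apply mul_le_mul (by linarith) _ (by positivity) (by positivity)
        gcongr
    _ = (3072 * J * L * (L ^ 2 + 2) * (L ^ 2 + 1) * L ^ (3 * J) * Real.exp (-(η * L))) := by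
        ring
    _ ≤ 1 := e7

lemma num_h4 {J : ℕ} {K L M p v : ℝ} (hK0 : 0 ≤ K) (hK : K ≤ L ^ 2 + 1) (hL : 1 ≤ L)
    (hM : 0 < M) (hp : 0 ≤ p) (hpM : p / M ≤ 2 * Real.exp (-(31 / 40 * L))) (hv0 : 0 ≤ v)
    (hv : v ≤ Real.exp (L / 250))
    (e8 : 2 * (L ^ 2 + 2) ^ (4 * J) * L ^ (3 * J) * Real.exp (-(1 / 2 * L)) ≤ 1) :
    (K + 1) ^ (4 * J) * (p * v / M) ≤ 1 / L ^ (3 * J) := by
  have h2 : p * v / M ≤ 2 * Real.exp (-(31 / 40 * L)) * Real.exp (L / 250) := by
    rw [mul_div_right_comm]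
    gcongr
  have hLp : 0 < L ^ (3 * J) := by positivity
  rw [le_div_iff₀ hLp]
  refine le_trans ?_ e8
  have h3 : (K + 1) ^ (4 * J) * (p * v / M) ≤
      2 * (L ^ 2 + 2) ^ (4 * J) * Real.exp (-(1 / 2 * L)) := by
    calc (K + 1) ^ (4 * J) * (p * v / M) ≤
          (L ^ 2 + 2) ^ (4 * J) * (2 * Real.exp (-(31 / 40 * L)) * Real.exp (L / 250)) := by
          apply mul_le_mul _ h2 (by positivity) (by positivity)
          apply pow_le_pow_left₀ (by positivity)
          linarith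
      _ = 2 * (L ^ 2 + 2) ^ (4 * J) * (Real.exp (-(31 / 40 * L)) * Real.exp (L / 250)) := by
          ring
      _ ≤ 2 * (L ^ 2 + 2) ^ (4 * J) * Real.exp (-(1 / 2 * L)) := by
          rw [← Real.exp_add]
          gcongr
          linarith
  calc (K + 1) ^ (4 * J) * (p * v / M) * L ^ (3 * J) ≤
        (2 * (L ^ 2 + 2) ^ (4 * J) * Real.exp (-(1 / 2 * L))) * L ^ (3 * J) := by gcongr
    _ = _ := by ring

lemma sqrt_small {L : ℝ} (hL : 10 ^ 6 ≤ L) : Real.sqrt L ≤ L / 1000 := by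
  have hL0 : 0 < L := lt_of_lt_of_le (by norm_num) hL
  rw [Real.sqrt_le_left (by positivity)]
  nlinarith

lemma big8 {L K t : ℝ} (hL : 1 ≤ L) (hK : 0 ≤ K) (ht : 0 ≤ t) (h : 384 * L * ((K + 1) * t) ≤ 1) :
    t ≤ 1 / 8 := by
  have h1 : 8 ≤ 384 * L * (K + 1) := by nlinarith
  have h2 : 8 * t ≤ 384 * L * (K + 1) * t := mul_le_mul_of_nonneg_right h1 ht
  have h3 : 384 * L * (K + 1) * t = 384 * L * ((K + 1) * t) := by ring
  linarith

lemma big16 {L K t M T : ℝ} (hT : 0 < T) (hKt : 0 ≤ (K + 1) * t)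
    (hM : 3 * L * M ≤ 24 * L * T) (h : 384 * L * ((K + 1) * t) ≤ 1) :
    3 * L * M * ((K + 1) * t) ≤ T / 16 := by
  calc 3 * L * M * ((K + 1) * t) ≤ 24 * L * T * ((K + 1) * t) :=
        mul_le_mul_of_nonneg_right hM hKt
    _ = T / 16 * (384 * L * ((K + 1) * t)) := by ring
    _ ≤ T / 16 * 1 := mul_le_mul_of_nonneg_left h (by positivity)
    _ = T / 16 := by ring

/-- A large `L`: the error terms of the bilinear estimate. -/
lemma num_h5 {L W s T : ℝ} (hL : 10 ^ 6 ≤ L) (hW : 1 ≤ W) (hWL : W ≤ Real.exp (2 * Real.sqrt L))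
    (hs : 128 * s ≤ L) (hT : Real.exp L / (8 * W) ≤ T) :
    Real.exp L / (W * L) * s + Real.exp (99 / 100 * L) ≤ T / 8 := by
  have hL0 : 0 < L := lt_of_lt_of_le (by norm_num) hL
  have hW0 : 0 < W := by linarith
  have hE : 0 < Real.exp L := Real.exp_pos L
  have h1 : Real.exp L / (W * L) * s ≤ Real.exp L / (128 * W) := by
    rw [div_mul_eq_mul_div, div_le_div_iff₀ (by positivity) (by positivity)]
    calc Real.exp L * s * (128 * W) = (Real.exp L * W) * (128 * s) := by ring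
      _ ≤ (Real.exp L * W) * L := by gcongr
      _ = _ := by ring
  have hsq : Real.sqrt L ≤ L / 1000 := sqrt_small hL
  have h2 : Real.exp (99 / 100 * L) ≤ Real.exp L / (128 * W) := by
    rw [le_div_iff₀ (by positivity)]
    have h3 : (128 : ℝ) ≤ Real.exp 127 := by
      have := Real.add_one_le_exp (127 : ℝ)
      linarith
    calc Real.exp (99 / 100 * L) * (128 * W) ≤
          Real.exp (99 / 100 * L) * (Real.exp 127 * Real.exp (2 * Real.sqrt L)) := by gcongr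
      _ = Real.exp (99 / 100 * L + (127 + 2 * Real.sqrt L)) := by
          rw [Real.exp_add, Real.exp_add]
      _ ≤ Real.exp L := by
          apply Real.exp_le_exp.2
          have : (10 : ℝ) ^ 6 ≤ L := hL
          norm_num at this
          linarith
  have h3 : Real.exp L / (128 * W) + Real.exp L / (128 * W) = Real.exp L / (8 * W) / 8 := by
    field_simp
    norm_num
  linarith

lemma W_le {m : ℕ} {L : ℝ} (hL : 0 ≤ L) : ((WW m L : ℕ) : ℝ) ≤ Real.exp (2 * Real.sqrt L) := by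
  have h1 : ((WW m L : ℕ) : ℝ) ≤ (4 : ℝ) ^ ⌊Real.sqrt L⌋₊ := by
    exact_mod_cast THDd.WW_le m L
  have h2 : (4 : ℝ) ≤ Real.exp 2 := by
    have h3 := Real.add_one_le_exp (1 : ℝ)
    have h4 : Real.exp 2 = Real.exp 1 * Real.exp 1 := by
      rw [← Real.exp_add]
      norm_num
    rw [h4]
    nlinarith
  have hs : 0 ≤ Real.sqrt L := Real.sqrt_nonneg L
  calc ((WW m L : ℕ) : ℝ) ≤ (4 : ℝ) ^ ⌊Real.sqrt L⌋₊ := h1
    _ ≤ (Real.exp 2) ^ ⌊Real.sqrt L⌋₊ := by gcongr
    _ = Real.exp ((⌊Real.sqrt L⌋₊ : ℝ) * 2) := by rw [← Real.exp_nat_mul]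
    _ ≤ Real.exp (2 * Real.sqrt L) := by
        apply Real.exp_le_exp.2
        have := Nat.floor_le hs
        linarith

lemma mem_SPH {m l : ℕ} {L z : ℝ} (hz : 0 ≤ z) (h : l ∈ SPH m L z) :
    l.Prime ∧ L ^ 100 < (l : ℝ) ∧ ¬ l ∣ m ∧ (l : ℝ) ≤ z := by
  rw [SPH, mem_filter, mem_Icc] at h
  exact ⟨h.2.1, h.2.2.1, h.2.2.2, (Nat.le_floor_iff hz).1 h.1.2⟩

/-- The size of the numbers of the class. -/
lemma log_le {b W x k m : ℕ} {L : ℝ} (hL : 3 ≤ L) (hm : 1 ≤ m) (hLm : L = Real.log m)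
    (hb : b < W) (hx : x < m / W) (hk : (k : ℝ) ≤ L ^ 2) (hpos : 1 ≤ b + W * x + k * m) :
    Real.log ((b + W * x + k * m : ℕ) : ℝ) ≤ 2 * L := by
  have hm0 : (0 : ℝ) < m := by exact_mod_cast hm
  have hexp : Real.exp L = m := by rw [hLm, Real.exp_log hm0]
  have h1 : b + W * x < m := by
    have h2 : W * (m / W) ≤ m := Nat.mul_div_le m W
    have h3 : W * (x + 1) ≤ W * (m / W) := Nat.mul_le_mul_left W hx
    have h4 : W * (x + 1) = W * x + W := by ring
    omega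
  have h2 : ((b + W * x + k * m : ℕ) : ℝ) ≤ Real.exp L * Real.exp L := by
    have h3 : ((b + W * x : ℕ) : ℝ) ≤ m := by exact_mod_cast h1.le
    have h4 : L ^ 2 + 1 ≤ Real.exp L := by
      have h8 := Real.pow_div_factorial_le_exp L (by linarith) 4
      have h9 : ((Nat.factorial 4 : ℕ) : ℝ) = 24 := by norm_num [Nat.factorial]
      have h8' := Real.pow_div_factorial_le_exp L (by linarith) 3
      have h9' : ((Nat.factorial 3 : ℕ) : ℝ) = 6 := by norm_num [Nat.factorial]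
      have h10 := Real.quadratic_le_exp_of_nonneg (show (0 : ℝ) ≤ L by linarith)
      have h11 : Real.exp L = Real.exp (L / 2) * Real.exp (L / 2) := by
        rw [← Real.exp_add]
        congr 1
        ring
      have h12 := Real.quadratic_le_exp_of_nonneg (show (0 : ℝ) ≤ L / 2 by linarith)
      have h13 : (1 + L / 2 + (L / 2) ^ 2 / 2) * (1 + L / 2 + (L / 2) ^ 2 / 2) ≤
          Real.exp (L / 2) * Real.exp (L / 2) := by
        apply mul_le_mul h12 h12 (by positivity) (Real.exp_nonneg _)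
      rw [h11]
      refine le_trans ?_ h13
      nlinarith [sq_nonneg L, sq_nonneg (L ^ 2), sq_nonneg (L - 3)]
    push_cast at h3 ⊢
    calc (b : ℝ) + W * x + k * m ≤ m + L ^ 2 * m := by gcongr
      _ = (L ^ 2 + 1) * m := by ring
      _ ≤ Real.exp L * Real.exp L := by rw [hexp]; rw [hexp] at h4; gcongr
  have h3 := Real.log_le_log (by exact_mod_cast hpos) h2
  rw [← Real.exp_add, Real.log_exp] at h3
  linarith

end EDQ

theorem t_EDQ : M_EDQ := by
  classical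
  intro hLPG hEDP hBLH hVSH hKVH hPAR C₀ hC₀
  obtain ⟨c, hc, hSIG⟩ := SIGDd.sigd
  obtain ⟨C₁, hC₁, hG0⟩ := g0_bound
  obtain ⟨C3, hC3, hKVH⟩ := hKVH
  obtain ⟨e, he⟩ : ∃ e : ℝ, e = 1 / 10 ^ 8 := ⟨_, rfl⟩
  have he0 : 0 < e := by rw [he]; norm_num
  obtain ⟨η, lamb, I, hη, hηe, hlamb, hI1, hI2, hI3, hI4⟩ :=
    hPAR C₀ c e (64 * 24 * C3 * C₀) hC₀ hc he0 (by positivity)
  obtain ⟨J, hJ⟩ : ∃ J : ℕ, J = ⌊e / η⌋₊ := ⟨_, rfl⟩
  have hJ1 : (J : ℝ) * η ≤ e := by
    have h1 : (J : ℝ) ≤ e / η := by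
      rw [hJ]
      exact Nat.floor_le (by positivity)
    rwa [le_div_iff₀ hη] at h1
  have hJ2 : e < ((J : ℝ) + 1) * η := by
    have h1 : e / η < (J : ℝ) + 1 := by
      rw [hJ]
      exact Nat.lt_floor_add_one _
    rwa [div_lt_iff₀ hη] at h1
  have hJ0 : (0 : ℝ) ≤ J := Nat.cast_nonneg J
  have hJ3 : 1 ≤ J := by
    rw [hJ]
    apply Nat.le_floor
    rw [le_div_iff₀ hη]
    push_cast
    linarith
  obtain ⟨E, hE⟩ : ∃ E : ℕ, E = ⌈(2 : ℝ) / η⌉₊ := ⟨_, rfl⟩
  obtain ⟨G0, hG0d⟩ : ∃ G0 : ℝ, G0 = 2 ^ E * (C₁ * (e / lamb / η)) := ⟨_, rfl⟩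
  have hlamb0 : 0 < lamb := by linarith
  have hratio : 1 ≤ e / lamb / η := by
    rw [le_div_iff₀ hη, le_div_iff₀ hlamb0, one_mul]
    have h1 : (1 : ℝ) ≤ 2 ^ I := one_le_pow₀ (by norm_num)
    have h2 : 0 ≤ η * lamb := by positivity
    nlinarith
  have hG01 : 1 ≤ G0 := by
    rw [hG0d]
    have h1 : (1 : ℝ) ≤ 2 ^ E := one_le_pow₀ (by norm_num)
    exact one_le_mul_of_one_le_of_one_le h1 (one_le_mul_of_one_le_of_one_le hC₁ hratio)
  have hC40 : 0 < C4 G0 J (C₀ / η) := by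
    have : 0 < G0 := by linarith
    unfold C4
    positivity
  obtain ⟨D, hD⟩ : ∃ D : ℝ, D = 24 * C3 / η := ⟨_, rfl⟩
  have hD0 : 0 < D := by rw [hD]; positivity
  refine ⟨η, 1 / (16 * (D * C4 G0 J (C₀ / η))), hη, by positivity, ?_⟩
  obtain ⟨m₁, hm₁⟩ := hLPG η hη
  obtain ⟨L₁, hL₁⟩ := hSIG η hη 1 I
  obtain ⟨L₂, hL₂⟩ := hBLH η hη (700 * (J + 1))
  obtain ⟨L₃, hL₃⟩ := hVSH η hη J
  obtain ⟨L₅, hL₅⟩ := hKVH 1 η one_pos hη 1
  obtain ⟨X₄, hX₄⟩ := OmD.om 1
  have hev := EDQ.largeQ J (D := 24576 * C3 * C₀ / η ^ 2 * (J : ℝ) ^ 2)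
    (D2 := 128 * Real.sqrt (C4 G0 J (C₀ / η))) hη (by positivity)
  have hX : ∀ᶠ L : ℝ in atTop, X₄ ≤ Real.exp L := Real.tendsto_exp_atTop.eventually_ge_atTop X₄
  obtain ⟨L₀, hL₀⟩ := eventually_atTop.1 (hev.and (hX.and ((eventually_ge_atTop L₁).and
    ((eventually_ge_atTop L₂).and ((eventually_ge_atTop L₃).and (eventually_ge_atTop L₅))))))
  refine ⟨max m₁ (⌈Real.exp L₀⌉₊ + 1), fun m hmm b i S hb hbi hi hiL hSk hiS hSV hTh => ?_⟩
  have hmm₁ : m₁ ≤ m := (le_max_left _ _).trans hmm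
  have hmm₂ : ⌈Real.exp L₀⌉₊ + 1 ≤ m := (le_max_right _ _).trans hmm
  have hm : 1 ≤ m := by omega
  have hm0 : (0 : ℝ) < m := by exact_mod_cast hm
  obtain ⟨L, hL⟩ : ∃ L : ℝ, L = Real.log m := ⟨_, rfl⟩
  have hexp : Real.exp L = m := by rw [hL, Real.exp_log hm0]
  have hLL : L₀ ≤ L := by
    rw [← Real.exp_le_exp, hexp]
    refine (Nat.le_ceil _).trans ?_
    exact_mod_cast (by omega : ⌈Real.exp L₀⌉₊ ≤ m)
  rw [← hL] at hb hbi hiL hSk hSV hTh ⊢
  obtain ⟨⟨e1, e2, e3, e4, e5, e6, e7, e8, e13⟩, e9, e10, e11, e12, e14⟩ := hL₀ L hLL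
  have hL0 : 0 < L := lt_of_lt_of_le (by norm_num) e1
  have hL200 : 200 ≤ L := le_trans (by norm_num) e1
  have hL1 : 1 ≤ L := by linarith
  have hmL : Real.log m ≤ ((1 : ℕ) : ℝ) * L := by
    rw [hL]
    simp
  obtain ⟨P, N, hd, hSS, hsum, hLV⟩ := hL₂ L e11 m hm
  have hVSL' := hL₃ L e12 m hm
  have hω := hX₄ (Real.exp L) e9 m hm (by rw [hexp, pow_one])
  obtain ⟨W, hW⟩ : ∃ W : ℕ, W = WW m L := ⟨_, rfl⟩
  have hW1 : 1 ≤ W := by rw [hW]; exact THDd.WW_pos m L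
  have hWm : W.Coprime m := by rw [hW]; exact THDd.WW_coprime m L
  have hWL : (W : ℝ) ≤ Real.exp (2 * Real.sqrt L) := by rw [hW]; exact EDQ.W_le hL0.le
  have hWp : ∀ p : ℕ, p.Prime → p ∣ W → (p : ℝ) ≤ L ^ 100 := by
    intro p hp hpW
    rw [hW] at hpW
    have h1 := (THDd.dvd_WW hp hpW).1
    have h2 : (p : ℝ) ≤ Real.sqrt L := by
      have h3 : (p : ℝ) ≤ (⌊Real.sqrt L⌋₊ : ℝ) := by exact_mod_cast h1
      exact h3.trans (Nat.floor_le (Real.sqrt_nonneg L))
    have h3 : Real.sqrt L ≤ L := by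
      have := EDQ.sqrt_small e1
      linarith
    exact (h2.trans h3).trans (le_self_pow₀ hL1 (by norm_num))
  have hKV3 := hL₅ L e14 m hm hmL (⌊((m.totient : ℝ) / m) * L⌋₊ + 1) (by
    push_cast
    have : (⌊((m.totient : ℝ) / m) * L⌋₊ : ℝ) ≤ ((m.totient : ℝ) / m) * L :=
      Nat.floor_le (by positivity)
    linarith)
  rw [← hW] at hb hbi hTh hKV3 ⊢
  have hW0 : (0 : ℝ) < W := by exact_mod_cast hW1
  have htW : (0 : ℝ) < W.totient := by exact_mod_cast Nat.totient_pos.2 hW1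
  have htWle : (W.totient : ℝ) ≤ W := by exact_mod_cast Nat.totient_le W
  have htot : (0 : ℝ) < m.totient := by exact_mod_cast Nat.totient_pos.2 hm
  have htotle : (m.totient : ℝ) ≤ m := by exact_mod_cast Nat.totient_le m
  obtain ⟨B1, hB1⟩ : ∃ B1 : ℝ, B1 = e * L / lamb := ⟨_, rfl⟩
  have hB1I : 2 ^ I * (η * L) ≤ B1 := by
    rw [hB1, le_div_iff₀ hlamb0]
    calc 2 ^ I * (η * L) * lamb = (2 ^ I * (η * lamb)) * L := by ring
      _ ≤ e * L := by gcongr
  have hσ := hL₁ L e10 m hm hmL B1 hB1I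
  have hlogz : Real.log (Real.exp (η * L)) = η * L := Real.log_exp _
  obtain ⟨Q, hQ⟩ : ∃ Q : Finset ℕ, Q = BPr m (Real.exp (η * L)) (Real.exp B1) := ⟨_, rfl⟩
  have hB10 : 0 < B1 := by rw [hB1]; positivity
  have hηB1 : η * L ≤ B1 := by
    have h1 : (1 : ℝ) ≤ 2 ^ I := one_le_pow₀ (by norm_num)
    have h2 : 0 ≤ η * L := by positivity
    exact (le_mul_of_one_le_left h2 h1).trans hB1I
  have hzR : Real.exp (η * L) ≤ Real.exp B1 := Real.exp_le_exp.2 hηB1
  have hexpB1 : 0 ≤ Real.exp B1 := Real.exp_nonneg _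
  have hz0 : 0 < Real.exp (η * L) := Real.exp_pos _
  have hL24 : L ^ 2 < L ^ 100 := pow_lt_pow_right₀ (by linarith) (by norm_num)
  have hLL100 : L ≤ L ^ 100 := le_self_pow₀ hL1 (by norm_num)
  have hz2 : 2 ≤ Real.exp (η * L) := by linarith
  have hSSm : ∀ l ∈ SS P N, l.Prime ∧ L ^ 100 < (l : ℝ) ∧ ¬ l ∣ m ∧ (l : ℝ) ≤ Real.exp (η * L) := by
    intro l hl
    rw [hSS] at hl
    exact EDQ.mem_SPH hz0.le hl
  have hQm : ∀ l ∈ Q, l.Prime ∧ Real.exp (η * L) < (l : ℝ) ∧ ¬ l ∣ m ∧ (l : ℝ) ≤ Real.exp B1 := by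
    intro l hl
    rw [hQ] at hl
    exact mem_BPr hexpB1 hl
  have hcardS : (S.card : ℝ) ≤ L ^ 2 + 1 := by
    have h1 : S ⊆ range (⌊L ^ 2⌋₊ + 1) := by
      intro k hk
      rw [mem_range]
      have := Nat.le_floor (hSk k hk)
      omega
    have h2 := card_le_card h1
    rw [card_range] at h2
    have h3 : (S.card : ℝ) ≤ (⌊L ^ 2⌋₊ : ℝ) + 1 := by exact_mod_cast h2
    have h4 : (⌊L ^ 2⌋₊ : ℝ) ≤ L ^ 2 := Nat.floor_le (by positivity)
    linarith
  have hS0 : (0 : ℝ) ≤ S.card := Nat.cast_nonneg _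
  obtain ⟨lam, hlam⟩ : ∃ lam : {l // l ∈ Q} → ℝ,
      lam = fun i : {l // l ∈ Q} => Real.log ((i : ℕ) : ℝ) := ⟨_, rfl⟩
  obtain ⟨q, hq⟩ : ∃ q : {l // l ∈ Q} → ℝ, q = fun i : {l // l ∈ Q} => ((i : ℕ) : ℝ) - 1 :=
    ⟨_, rfl⟩
  obtain ⟨σ, hσd⟩ : ∃ σ : ℝ, σ = ∑ T, s0 lam q B1 T := ⟨_, rfl⟩
  have hσ2 : (c * I - 1) / (η * L) ≤ σ := by
    rw [hσd, hlam, hq]
    subst hQ
    exact hσ
  have hcI : 0 < c * I - 1 := by
    have : 0 < 8 * C₀ / e := by positivity
    linarith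
  have hcI1 : 1 ≤ c * I - 1 := by
    have : 0 < 8 * C₀ / e := by positivity
    linarith
  have hσ0 : 0 < σ := lt_of_lt_of_le (by positivity) hσ2
  have ha1 : 1 / σ ≤ η * L / (c * I - 1) := by
    rw [div_le_div_iff₀ hσ0 hcI, one_mul]
    rw [div_le_iff₀ (by positivity)] at hσ2
    linarith
  have ha2 : 1 / σ ≤ η * L := by
    refine ha1.trans ?_
    exact div_le_self (by positivity) hcI1
  -- the range
  obtain ⟨n, hn⟩ : ∃ n : ℕ, n = m / W := ⟨_, rfl⟩
  have hn' : n = ⌊Real.exp L / W⌋₊ := by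
    rw [hexp, Nat.floor_div_eq_div, hn]
  obtain ⟨M, hM⟩ : ∃ M : ℝ, M = (n : ℝ) * ((m.totient : ℝ) / m) := ⟨_, rfl⟩
  have hsq : Real.sqrt L ≤ L / 1000 := EDQ.sqrt_small e1
  have hW8 : (W : ℝ) ^ 8 ≤ Real.exp L := by
    calc (W : ℝ) ^ 8 ≤ (Real.exp (2 * Real.sqrt L)) ^ 8 := by gcongr
      _ = Real.exp (16 * Real.sqrt L) := by
          rw [← Real.exp_nat_mul]
          congr 1
          push_cast
          ring
      _ ≤ Real.exp L := by
          apply Real.exp_le_exp.2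
          linarith
  obtain ⟨hn0, hn1, hM0, hωM⟩ := num_om hL200 hm hW1 hW8 hn' hω hM
  rw [← hn] at hTh ⊢
  obtain ⟨T, hT⟩ : ∃ T : ℝ, T = Th m W b i n := ⟨_, rfl⟩
  rw [← hT] at hTh ⊢
  have hT1 : Real.exp L / (8 * W) ≤ T := by
    rw [hexp]
    refine le_trans ?_ hTh
    gcongr
  have hT0 : 0 < T := lt_of_lt_of_le (by positivity) hT1
  -- the level
  obtain ⟨bb, hbb⟩ : ∃ bb : ℕ → ℕ, bb = fun j => 700 * (J + 1) + j := ⟨_, rfl⟩
  rw [← hbb] at hLV
  have hLV0 : 0 ≤ LV P bb N := by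
    unfold LV
    apply Finset.prod_nonneg
    intro j _
    have : 0 ≤ ∑ l ∈ P j, (l : ℝ) := Finset.sum_nonneg fun l _ => Nat.cast_nonneg l
    positivity
  have hLV1 : LV P bb N ≤ Real.exp (L / 1000) := by
    refine hLV.trans (Real.exp_le_exp.2 (EDQ.num_lv hL0 ?_ ?_))
    · rw [← he]
      exact hηe
    · rw [← he]
      exact hJ1
  have hLV2 : LV P bb N ^ 2 ≤ Real.exp (L / 500) := by
    have h1 := pow_le_pow_left₀ hLV0 hLV1 2
    refine h1.trans (le_of_eq ?_)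
    rw [← Real.exp_nat_mul]
    congr 1
    push_cast
    ring
  have hLV4 : LV P bb N ^ 4 ≤ Real.exp (L / 250) := by
    have h1 := pow_le_pow_left₀ hLV0 hLV1 4
    refine h1.trans (le_of_eq ?_)
    rw [← Real.exp_nat_mul]
    congr 1
    push_cast
    ring
  obtain ⟨V1, hV1⟩ : ∃ V1 : ℝ, V1 = VS (SS P N) 1 := ⟨_, rfl⟩
  have hV10 : 0 ≤ V1 := by
    rw [hV1]
    apply VS_nonneg
    intro l hl
    exact (hSSm l hl).1.one_le
  have hVK : V1 * S.card ≤ C₀ / η := by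
    rw [hV1, hSS, mul_comm]
    exact hSV
  have hKV : (S.card : ℝ) * V1 ≤ C₀ / η := by
    rw [mul_comm]
    exact hVK
  have hVK0 : 0 ≤ V1 * S.card := by positivity
  -- the sizes
  have hnW : (n : ℝ) ≤ m / W := by
    rw [hn]
    exact Nat.cast_div_le
  have hMle : M ≤ m / W := by
    rw [hM]
    refine le_trans ?_ hnW
    apply mul_le_of_le_one_right (by positivity)
    rw [div_le_one hm0]
    exact htotle
  have hΛM : 3 * L * M ≤ 24 * L * T := by
    calc 3 * L * M ≤ 3 * L * (m / W) := by gcongr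
      _ = 24 * L * (Real.exp L / (8 * W)) := by
          rw [hexp]
          field_simp
          ring
      _ ≤ 24 * L * T := by gcongr
  have hΛMV : 3 * L * M * V1 ≤ D * T := by
    have h1 : 2 * (((m.totient : ℝ) / m) * L) * ((W.totient : ℝ) / W) * V1 ≤ C3 / η := by
      have h2 : ((m.totient : ℝ) / m) * L ≤ ((⌊((m.totient : ℝ) / m) * L⌋₊ + 1 : ℕ) : ℝ) := by
        push_cast
        exact (Nat.lt_floor_add_one _).le
      rw [← hSS, ← hV1, mul_one] at hKV3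
      refine le_trans ?_ hKV3
      gcongr
    calc 3 * L * M * V1 ≤ 3 * L * (m / W * ((m.totient : ℝ) / m)) * V1 := by
          rw [hM]
          gcongr
      _ = 12 * (2 * (((m.totient : ℝ) / m) * L) * ((W.totient : ℝ) / W) * V1) *
          (m / (8 * W.totient)) := by
          field_simp
          ring
      _ ≤ 12 * (C3 / η) * T := by gcongr
      _ ≤ D * T := by
          rw [hD]
          have : 0 ≤ C3 / η * T := by positivity
          have h3 : 24 * C3 / η * T = 24 * (C3 / η * T) := by ring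
          rw [h3]
          linarith
  have hPar : Par η P bb N m W b i n Q S L (1 / σ) (e * L) B1 :=
    { hL := hL
      hm := hm
      hW := hW1
      hWL := hWL
      hWm := hWm
      hb := hb
      hbi := hbi
      hi := hi
      hiL := hiL
      hn := hn
      hd := hd
      hS := by
        intro l hl
        obtain ⟨g1, g2, g3, g4⟩ := hSSm l hl
        exact ⟨g1, g3, fun h => absurd (hWp l g1 h) (not_le.2 g2), g2, g4⟩
      hQ := by
        intro l hl
        obtain ⟨g1, g2, g3, g4⟩ := hQm l hl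
        exact ⟨g1, g3, fun h => absurd (hWp l g1 h) (not_le.2 (e3.trans_lt g2)), g2, g4⟩
      hk := hSk
      hiS := hiS
      hLV := hLV1
      ha := by positivity
      haη := ha2
      hB1 := hB10
      hB1B := by
        rw [hB1]
        exact div_le_self (by positivity) hlamb
      hB := by
        rw [he]
        have := hL0.le
        norm_num
        linarith }
  have hh2 : 384 * L * (((S.card : ℝ) + 1) * (2 ^ m.primeFactors.card * LV P bb N ^ 2 / M *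
      (Real.exp (3 * (e * L)) * 3) ^ 2)) ≤ 1 :=
    EDQ.num_h2 hS0 hcardS hL1 hM0 (by positivity) hωM (by positivity) hLV2 he e6
  have hh3 := EDQ.num_h3 (J := J) (η := η) hS0 hcardS hL0 e7
  have hh4 := EDQ.num_h4 (J := J) hS0 hcardS hL1 hM0 (p := 2 ^ m.primeFactors.card)
    (by positivity) hωM (v := LV P bb N ^ 4) (by positivity) hLV4 e8
  have key := hEDP η P bb N m W b i n J Q S L (1 / σ) (e * L) B1 (1 / L ^ (3 * J)) G0 (3 * L) D
    hPar hη (hm₁ m hmm₁ P bb N W b i n Q S L (1 / σ) (e * L) B1 hPar) hL200 e3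
    (e2.trans hLL100) hn0 hsum
    (by
      intro j _
      rw [hbb])
    (by
      have h1 : ∑ T : Finset {l // l ∈ Q}, s0 (fun i : {l // l ∈ Q} => Real.log ((i : ℕ) : ℝ))
          (fun i : {l // l ∈ Q} => ((i : ℕ) : ℝ) - 1) B1 T = σ := by
        rw [hσd, hlam, hq]
      rw [h1]
      field_simp)
    (by
      calc e * L < (((J : ℝ) + 1) * η) * L := by gcongr
        _ = _ := by ring)
    (by positivity)
    (by
      intro j hj
      rw [hSS]
      exact hVSL' j hj)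
    (by
      have h1 : 2 * ((J : ℝ) + 1) * S.card / Real.exp (η * L) =
          2 * ((J : ℝ) + 1) * S.card * Real.exp (-(η * L)) := by
        rw [Real.exp_neg]
        rfl
      rw [h1]
      refine le_trans ?_ e4
      gcongr)
    (by rw [← hT]; exact hT0) hD0 (by positivity)
    (by
      intro x hx
      unfold lw
      by_cases hpos : 1 ≤ b + W * x + i * m
      · have := EDQ.log_le (by linarith) hm hL hb (by rw [← hn]; exact hx) hiL hpos
        linarith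
      · have h0 : b + W * x + i * m = 0 := by omega
        rw [h0]
        simp
        positivity)
    (by
      rw [← hM, ← hV1, ← hT]
      have h1 := EDQ.num_h1 (J := J) hVK0 hC₀ hC3 hη hVK hL0 ha1 he0 hlamb0 hB1 hI2 hI3 e5
      rw [← hD] at h1
      have h0 : 0 ≤ 2 * (V1 * S.card) * ((4 * (J : ℝ) / Real.exp (η * L)) ^ 2 +
          Real.exp ((2 * (1 / σ) * (V1 * S.card) - (e * L - B1)) / B1)) := by positivity
      calc 3 * L * M * V1 * (2 * (V1 * S.card)) * ((4 * (J : ℝ) / Real.exp (η * L)) ^ 2 +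
          Real.exp ((2 * (1 / σ) * (V1 * S.card) - (e * L - B1)) / B1)) =
            (3 * L * M * V1) * (2 * (V1 * S.card) * ((4 * (J : ℝ) / Real.exp (η * L)) ^ 2 +
          Real.exp ((2 * (1 / σ) * (V1 * S.card) - (e * L - B1)) / B1))) := by ring
        _ ≤ (D * T) * (2 * (V1 * S.card) * ((4 * (J : ℝ) / Real.exp (η * L)) ^ 2 +
          Real.exp ((2 * (1 / σ) * (V1 * S.card) - (e * L - B1)) / B1))) :=
            mul_le_mul_of_nonneg_right hΛMV h0
        _ = T * (D * (2 * (V1 * S.card) * ((4 * (J : ℝ) / Real.exp (η * L)) ^ 2 +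
          Real.exp ((2 * (1 / σ) * (V1 * S.card) - (e * L - B1)) / B1)))) := by ring
        _ ≤ T * (1 / 16) := mul_le_mul_of_nonneg_left h1 hT0.le
        _ = T / 16 := by ring)
    (by
      rw [← hM, ← hT]
      exact EDQ.big16 hT0 (by positivity) hΛM hh2)
    (by
      rw [← hM]
      exact EDQ.big8 hL1 hS0 (by positivity) hh2)
    (by
      rw [← hM, ← hT]
      exact EDQ.big16 hT0 (by positivity) hΛM hh3)
    (EDQ.big8 hL1 hS0 (by positivity) hh3)
    (by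
      rw [← hM]
      refine hh4.trans ?_
      rw [hSS]
      exact hVSL' 1 hJ3)
    (by
      rw [← hV1, ← hT]
      refine EDQ.num_h5 e1 (by exact_mod_cast hW1) hWL ?_ hT1
      refine le_trans ?_ e13
      apply mul_le_mul_of_nonneg_left _ (by norm_num)
      apply Real.sqrt_le_sqrt
      unfold C4
      have : 0 < G0 := by linarith
      gcongr)
    (by
      rw [← hM, ← hV1, ← hT]
      exact hΛMV)
    hG01
    (by
      intro k hk x hx
      rw [Om, mem_filter, mem_range] at hx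
      rw [hQ]
      refine (hG0 m k (b + W * x) (Real.exp (η * L)) (Real.exp B1) hz2 hzR).trans ?_
      rw [hG0d, Real.log_exp, hlogz]
      have h1 : B1 / (η * L) = e / lamb / η := by
        rw [hB1]
        field_simp
      rw [h1]
      apply mul_le_mul_of_nonneg_right _ (by positivity)
      apply pow_le_pow_right₀ (by norm_num)
      have hnn : 1 ≤ b + W * x + k * m := by
        by_contra h
        have h0 : b + W * x = 0 := by omega
        have h2 := hx.2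
        rw [h0, Nat.coprime_zero_left] at h2
        rw [h2] at hexp
        have h3 : Real.exp L ≤ 1 := by rw [hexp]; simp
        rw [Real.exp_le_one_iff] at h3
        linarith
      have h2 := few_dvd (Q := BPr m (Real.exp (η * L)) (Real.exp B1)) (z := Real.exp (η * L))
        (by linarith)
        (fun l hl => ⟨(mem_BPr hexpB1 hl).1, (mem_BPr hexpB1 hl).2.1⟩) hnn
      rw [hlogz] at h2
      have h3 := EDQ.log_le (by linarith) hm hL hb (by rw [← hn]; exact hx.1) (hSk k hk) hnn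
      have h4 : (((BPr m (Real.exp (η * L)) (Real.exp B1)).filter
          (fun l => l ∣ b + W * x + k * m)).card : ℝ) ≤ 2 / η := by
        rw [le_div_iff₀ hη]
        have h5 : (((BPr m (Real.exp (η * L)) (Real.exp B1)).filter
          (fun l => l ∣ b + W * x + k * m)).card : ℝ) * η * L ≤ 2 * L := by
          calc _ = (((BPr m (Real.exp (η * L)) (Real.exp B1)).filter
              (fun l => l ∣ b + W * x + k * m)).card : ℝ) * (η * L) := by ring
            _ ≤ _ := h2.trans h3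
        exact le_of_mul_le_mul_right h5 hL0
      have h5 : (((BPr m (Real.exp (η * L)) (Real.exp B1)).filter
          (fun l => l ∣ b + W * x + k * m)).card : ℝ) ≤ (E : ℝ) := by
        rw [hE]
        exact h4.trans (Nat.le_ceil _)
      exact_mod_cast h5)
  rw [← hV1, ← hT] at key
  have hsub : Gd P N m W b i n Q S ⊆ (Pi m W b i n).filter (fun x => ∀ k ∈ S,
      ∃ l : ℕ, l.Prime ∧ (l : ℝ) ≤ Real.exp (L / 100) ∧ l ∣ (b + W * x) + k * m) := by
    intro x hx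
    rw [Gd, mem_filter] at hx
    rw [mem_filter]
    refine ⟨hx.1, fun k hk => ?_⟩
    obtain ⟨l, hl, hdvd⟩ := hx.2 k hk
    rw [mem_union] at hl
    rcases hl with hl | hl
    · obtain ⟨g1, g2, g3, g4⟩ := hSSm l hl
      refine ⟨l, g1, g4.trans ?_, hdvd⟩
      apply Real.exp_le_exp.2
      have h3 : η ≤ 1 / 100 := by
        refine hηe.trans ?_
        rw [he]
        norm_num
      calc η * L ≤ 1 / 100 * L := mul_le_mul_of_nonneg_right h3 hL0.le
        _ = L / 100 := by ring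
    · obtain ⟨g1, g2, g3, g4⟩ := hQm l hl
      refine ⟨l, g1, g4.trans ?_, hdvd⟩
      apply Real.exp_le_exp.2
      have h3 : e ≤ 1 / 100 := by
        rw [he]
        norm_num
      rw [hB1]
      calc e * L / lamb ≤ e * L := div_le_self (by positivity) hlamb
        _ ≤ 1 / 100 * L := mul_le_mul_of_nonneg_right h3 hL0.le
        _ = L / 100 := by ring
  have hlw : ∀ x, 0 ≤ lw m W b i x := fun x => Real.log_natCast_nonneg _
  have h1 : 1 / (16 * (D * C4 G0 J (C₀ / η))) * T ≤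
      T / (16 * (D * C4 G0 J (S.card * V1))) := by
    rw [one_div_mul_eq_div]
    have hG00 : 0 < G0 := by linarith
    have h2 : C4 G0 J (S.card * V1) ≤ C4 G0 J (C₀ / η) := by
      unfold C4
      gcongr
    have h3 : 0 < C4 G0 J (S.card * V1) := by
      unfold C4
      positivity
    gcongr
  refine h1.trans (key.trans ?_)
  exact Finset.sum_le_sum_of_subset_of_nonneg hsub fun x _ _ => hlw x

end

end IP
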