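import Pool.Agent.IP.StmtsR
import Pool.Agent.Lib_helper9.LG.THDd
import Pool.Agent.Lib_helper70.PNT.PNT

set_option autoImplicit false

/-!
PSM: the total weight of the primes of all classes and positions.
-/

namespace IP

open Finset Filter Topology Pool.Agent.Lib_helper9.LG

noncomputable section

namespace PSM

/-- the logarithm on the primes -/
def g (p : ℕ) : ℝ := if p.Prime then Real.log p else 0

lemma g_nonneg (p : ℕ) : 0 ≤ g p := by
  unfold g
  split_ifs
  · exact Real.log_natCast_nonneg p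
  · exact le_rfl

lemma g_le {p y : ℕ} (h : p ≤ y) : g p ≤ Real.log y := by
  unfold g
  split_ifs with hp
  · exact Real.log_le_log (by exact_mod_cast hp.pos) (by exact_mod_cast h)
  · exact Real.log_natCast_nonneg y

/-- the sum over the primes less than `k` -/
def T (k : ℕ) : ℝ := ∑ p ∈ range k, g p

lemma T_add (a b : ℕ) : T (a + b) = T a + ∑ y ∈ range b, g (a + y) := by
  unfold T
  exact Finset.sum_range_add g a b

lemma reindex (G : ℕ → ℝ) (W n : ℕ) :
    ∑ b ∈ range W, ∑ x ∈ range n, G (b + W * x) = ∑ y ∈ range (W * n), G y := by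
  induction n with
  | zero => simp
  | succ n ih =>
    rw [Nat.mul_succ, Finset.sum_range_add, ← ih, ← Finset.sum_add_distrib]
    refine Finset.sum_congr rfl fun b _ => ?_
    rw [Finset.sum_range_succ, add_comm b (W * n)]

lemma Th_sum (m W i n : ℕ) :
    ∑ b ∈ range W, Th m W b i n = ∑ y ∈ range (W * n), g (i * m + y) := by
  rw [← reindex (fun y => g (i * m + y)) W n]
  refine Finset.sum_congr rfl fun b _ => ?_
  rw [Th, Pi, Finset.sum_filter]
  refine Finset.sum_congr rfl fun x _ => ?_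
  rw [g, lw, add_comm (i * m)]

lemma one (m W i : ℕ) (hW : 1 ≤ W) :
    T ((i + 1) * m) - T (i * m) - W * Real.log (((i + 1) * m : ℕ) : ℝ) ≤
      ∑ b ∈ range W, Th m W b i (m / W) := by
  rw [Th_sum]
  have h1 : (i + 1) * m = i * m + W * (m / W) + m % W := by
    have := Nat.div_add_mod m W
    calc (i + 1) * m = i * m + m := by ring
      _ = i * m + (W * (m / W) + m % W) := by rw [this]
      _ = _ := by ring
  have h2 : T ((i + 1) * m) = T (i * m) + ∑ y ∈ range (W * (m / W)), g (i * m + y) +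
      ∑ y ∈ range (m % W), g (i * m + W * (m / W) + y) := by
    rw [h1, T_add, T_add]
  have h3 : ∑ y ∈ range (m % W), g (i * m + W * (m / W) + y) ≤
      W * Real.log (((i + 1) * m : ℕ) : ℝ) := by
    have h4 : ∀ y ∈ range (m % W), g (i * m + W * (m / W) + y) ≤
        Real.log (((i + 1) * m : ℕ) : ℝ) := by
      intro y hy
      rw [mem_range] at hy
      exact g_le (by rw [h1]; omega)
    refine (Finset.sum_le_sum h4).trans ?_
    rw [Finset.sum_const, card_range, nsmul_eq_mul]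
    apply mul_le_mul_of_nonneg_right _ (Real.log_natCast_nonneg _)
    exact_mod_cast (Nat.mod_lt m (by omega)).le
  linarith

lemma tele (m a : ℕ) {b : ℕ} (h : a ≤ b) :
    ∑ i ∈ Ico a b, (T ((i + 1) * m) - T (i * m)) = T (b * m) - T (a * m) := by
  induction b, h using Nat.le_induction with
  | base => simp
  | succ b hb ih =>
    rw [Finset.sum_Ico_succ_top hb, ih]
    ring

lemma theta_eq (k : ℕ) : Chebyshev.theta (k : ℝ) = T k + g k := by
  have h1 : T k + g k = T (k + 1) := by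
    unfold T
    rw [Finset.sum_range_succ]
  rw [h1, T, Finset.sum_range_succ', Chebyshev.theta, Nat.floor_natCast, Finset.sum_filter]
  have h2 : g 0 = 0 := by
    unfold g
    rw [if_neg (by norm_num)]
  rw [h2, add_zero, Finset.range_eq_Ico, Finset.sum_Ico_add' (fun p => g p) 0 k 1]
  apply Finset.sum_congr
  · ext x
    simp only [mem_Ioc, mem_Ico]
    omega
  · intro p _
    rfl

lemma T_le (k : ℕ) : T k ≤ Chebyshev.theta (k : ℝ) := by
  rw [theta_eq]
  have := g_nonneg k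
  linarith

lemma le_T (k : ℕ) : Chebyshev.theta (k : ℝ) - Real.log k ≤ T k := by
  rw [theta_eq]
  have := g_le (le_refl k)
  linarith

lemma Th_nonneg (m W b i n : ℕ) : 0 ≤ Th m W b i n := by
  unfold Th lw
  exact Finset.sum_nonneg fun _ _ => Real.log_natCast_nonneg _

/-- The sum over the positions, in terms of `T`. -/
lemma total (m : ℕ) (u v : ℝ) (hv : 0 ≤ v)
    (hH : 0 ≤ ((m.totient : ℝ) / m) * Real.log m) (U X : ℕ)
    (hU : U = ⌊u * (((m.totient : ℝ) / m) * Real.log m)⌋₊ + 1)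
    (hX : X = ⌊v * (((m.totient : ℝ) / m) * Real.log m)⌋₊) (hUX : U ≤ X) :
    T (X * m) - T (U * m) - X * ((WW m (Real.log m)) * Real.log ((X * m : ℕ) : ℝ)) ≤
      ∑ i ∈ II m u v, ∑ b ∈ range (WW m (Real.log m)),
        Th m (WW m (Real.log m)) b i (m / WW m (Real.log m)) := by
  set W := WW m (Real.log m) with hW
  have hW1 : 1 ≤ W := THDd.WW_pos m (Real.log m)
  have hsub : Ico U X ⊆ II m u v := by
    intro i hi
    rw [mem_Ico] at hi
    rw [II, mem_filter, mem_range]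
    refine ⟨by omega, ?_, ?_⟩
    · have h1 := Nat.lt_floor_add_one (u * (((m.totient : ℝ) / m) * Real.log m))
      have h2 : ((⌊u * (((m.totient : ℝ) / m) * Real.log m)⌋₊ + 1 : ℕ) : ℝ) ≤ i := by
        exact_mod_cast (hU ▸ hi.1)
      push_cast at h2
      linarith
    · have h1 : ((i : ℝ) + 1) ≤ (X : ℝ) := by exact_mod_cast hi.2
      have h2 : (X : ℝ) ≤ v * (((m.totient : ℝ) / m) * Real.log m) := by
        rw [hX]
        exact Nat.floor_le (by positivity)
      linarith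
  have h1 : ∑ i ∈ Ico U X, ∑ b ∈ range W, Th m W b i (m / W) ≤
      ∑ i ∈ II m u v, ∑ b ∈ range W, Th m W b i (m / W) := by
    apply Finset.sum_le_sum_of_subset_of_nonneg hsub
    intro i _ _
    exact Finset.sum_nonneg fun b _ => Th_nonneg m W b i _
  refine le_trans ?_ h1
  have h2 : ∑ i ∈ Ico U X, (T ((i + 1) * m) - T (i * m) -
      W * Real.log ((X * m : ℕ) : ℝ)) ≤ ∑ i ∈ Ico U X, ∑ b ∈ range W, Th m W b i (m / W) := by
    apply Finset.sum_le_sum
    intro i hi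
    rw [mem_Ico] at hi
    refine le_trans ?_ (one m W i hW1)
    have h3 : Real.log (((i + 1) * m : ℕ) : ℝ) ≤ Real.log ((X * m : ℕ) : ℝ) := by
      rcases Nat.eq_zero_or_pos m with h0 | h0
      · rw [h0]
        simp
      · apply Real.log_le_log
        · exact_mod_cast Nat.mul_pos (Nat.succ_pos i) h0
        · exact_mod_cast Nat.mul_le_mul_right m (by omega)
    have h4 : (W : ℝ) * Real.log (((i + 1) * m : ℕ) : ℝ) ≤ W * Real.log ((X * m : ℕ) : ℝ) :=
      mul_le_mul_of_nonneg_left h3 (Nat.cast_nonneg _)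
    linarith
  refine le_trans ?_ h2
  rw [Finset.sum_sub_distrib, tele m U hUX, Finset.sum_const, Nat.card_Ico, nsmul_eq_mul]
  have h5 : ((X - U : ℕ) : ℝ) ≤ X := by exact_mod_cast Nat.sub_le X U
  have h6 : 0 ≤ (W : ℝ) * Real.log ((X * m : ℕ) : ℝ) :=
    mul_nonneg (Nat.cast_nonneg _) (Real.log_natCast_nonneg _)
  have h7 := mul_le_mul_of_nonneg_right h5 h6
  linarith

lemma s_le {s : ℝ} : s ≤ Real.exp s := by
  have := Real.add_one_le_exp s
  linarith

lemma sq_le {s : ℝ} (hs : 0 < s) : s ^ 2 ≤ Real.exp (2 * s) := by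
  have h1 : Real.exp (2 * s) = Real.exp s * Real.exp s := by
    rw [← Real.exp_add]
    ring_nf
  have h2 : s ≤ Real.exp s := s_le
  rw [h1, pow_two]
  exact mul_le_mul h2 h2 hs.le (Real.exp_pos s).le

lemma four_le : (4 : ℝ) ≤ Real.exp 2 := by
  have h3 : (2 : ℝ) ≤ Real.exp 1 := by
    have := Real.add_one_le_exp 1
    linarith
  have h4 : Real.exp 2 = Real.exp 1 * Real.exp 1 := by
    rw [← Real.exp_add]
    norm_num
  rw [h4]
  nlinarith

lemma W_le (m : ℕ) (L s : ℝ) (hs : s = Real.sqrt L) :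
    ((WW m L : ℕ) : ℝ) ≤ Real.exp (2 * s) := by
  have h1 : ((WW m L : ℕ) : ℝ) ≤ (4 : ℝ) ^ ⌊Real.sqrt L⌋₊ := by
    exact_mod_cast THDd.WW_le m L
  have h3 : (4 : ℝ) ^ ⌊Real.sqrt L⌋₊ ≤ Real.exp 2 ^ ⌊Real.sqrt L⌋₊ :=
    pow_le_pow_left₀ (by norm_num) four_le _
  have h4 : Real.exp 2 ^ ⌊Real.sqrt L⌋₊ = Real.exp ((⌊Real.sqrt L⌋₊ : ℝ) * 2) :=
    (Real.exp_nat_mul 2 _).symm
  have h5 : (⌊Real.sqrt L⌋₊ : ℝ) ≤ s := by
    rw [hs]
    exact Nat.floor_le (Real.sqrt_nonneg L)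
  refine h1.trans (h3.trans ?_)
  rw [h4]
  apply Real.exp_le_exp.2
  linarith

/-- the numerical part of the error term -/
lemma err (u v s H M Xr Wr l : ℝ) (huv0 : 0 < v - u) (hv : 0 < v) (hs5 : 5 ≤ s)
    (hH1 : 1 ≤ H) (hXle : Xr ≤ v * H) (hW1 : 1 ≤ Wr)
    (hWle : Wr ≤ Real.exp (2 * s)) (hl0 : 0 ≤ l) (hl : l ≤ 2 * s ^ 2)
    (hsC : 16 * (1 + v) / (v - u) ≤ s) (hexp5 : Real.exp (5 * s) ≤ M) :
    l + Xr * (Wr * l) ≤ (v - u) / 8 * (H * M) := by
  have hs0 : 0 < s := by linarith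
  have hH0 : 0 < H := by linarith
  have hes : 0 < Real.exp s := Real.exp_pos s
  have h1 : l + Xr * (Wr * l) = (1 + Xr * Wr) * l := by ring
  have h2 : 1 + Xr * Wr ≤ (1 + v) * H * Real.exp (2 * s) := by
    have e1 : Xr * Wr ≤ (v * H) * Real.exp (2 * s) :=
      mul_le_mul hXle hWle (by linarith) (by positivity)
    have e0 : 1 ≤ Real.exp (2 * s) := hW1.trans hWle
    have e2 : 1 ≤ H * Real.exp (2 * s) := by
      calc (1 : ℝ) = 1 * 1 := by norm_num
        _ ≤ H * Real.exp (2 * s) := mul_le_mul hH1 e0 (by norm_num) hH0.le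
    linarith
  have h3 : (1 + Xr * Wr) * l ≤ (1 + v) * H * Real.exp (2 * s) * (2 * s ^ 2) :=
    mul_le_mul h2 hl hl0 (by positivity)
  rw [h1]
  refine h3.trans ?_
  have h4 : (1 + v) * 16 ≤ (v - u) * Real.exp s := by
    rw [div_le_iff₀ huv0] at hsC
    have e1 : s * (v - u) ≤ Real.exp s * (v - u) := mul_le_mul_of_nonneg_right s_le huv0.le
    linarith
  have h5 : Real.exp (2 * s) * s ^ 2 * Real.exp s ≤ M := by
    have e1 : Real.exp (2 * s) * s ^ 2 * Real.exp s ≤
        Real.exp (2 * s) * Real.exp (2 * s) * Real.exp s :=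
      mul_le_mul_of_nonneg_right (mul_le_mul_of_nonneg_left (sq_le hs0) (Real.exp_pos _).le) hes.le
    have e2 : Real.exp (2 * s) * Real.exp (2 * s) * Real.exp s = Real.exp (5 * s) := by
      rw [← Real.exp_add, ← Real.exp_add]
      ring_nf
    linarith
  calc (1 + v) * H * Real.exp (2 * s) * (2 * s ^ 2) =
      ((1 + v) * 16) * (H * (Real.exp (2 * s) * s ^ 2)) / 8 := by ring
    _ ≤ ((v - u) * Real.exp s) * (H * (Real.exp (2 * s) * s ^ 2)) / 8 := by
        have := mul_le_mul_of_nonneg_right h4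
          (show 0 ≤ H * (Real.exp (2 * s) * s ^ 2) by positivity)
        linarith
    _ = (v - u) / 8 * (H * (Real.exp (2 * s) * s ^ 2 * Real.exp s)) := by ring
    _ ≤ (v - u) / 8 * (H * M) :=
        mul_le_mul_of_nonneg_left (mul_le_mul_of_nonneg_left h5 hH0.le) (by linarith)

/-- the numerical part of the main term -/
lemma mainterm (u v ε H M Xr Ur : ℝ) (hu : 0 < u) (huv0 : 0 < v - u) (hM : 0 ≤ M)
    (hε : ε = (v - u) / (8 * (u + v))) (hH16 : 16 ≤ (v - u) * H)
    (hXge : v * H - 1 ≤ Xr) (hUle : Ur ≤ u * H + 1) :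
    (v - u) * H * M * (3 / 4) ≤ (1 - ε) * (Xr * M) - (1 + ε) * (Ur * M) := by
  have hε0 : 0 < ε := by
    rw [hε]
    have : 0 < u + v := by linarith
    positivity
  have hε1 : ε * (u + v) = (v - u) / 8 := by
    have : u + v ≠ 0 := by linarith
    rw [hε]
    field_simp
  have hεle : ε ≤ 1 / 8 := by
    rw [hε, div_le_div_iff₀ (by linarith) (by norm_num)]
    linarith
  have e1 : (1 - ε) * (v * H - 1) ≤ (1 - ε) * Xr :=
    mul_le_mul_of_nonneg_left hXge (by linarith)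
  have e2 : (1 + ε) * Ur ≤ (1 + ε) * (u * H + 1) :=
    mul_le_mul_of_nonneg_left hUle (by linarith)
  have e3 : (1 - ε) * (v * H - 1) - (1 + ε) * (u * H + 1) =
      (v - u) * H - (ε * (u + v)) * H - 2 := by ring
  rw [hε1] at e3
  have e4 : (v - u) * H * (3 / 4) ≤ (1 - ε) * Xr - (1 + ε) * Ur := by linarith
  have e5 := mul_le_mul_of_nonneg_right e4 hM
  linarith

end PSM

open PSM in
theorem t_PSM : M_PSM := by
  intro hTOT u v hu huv
  have hv : 0 < v := by linarith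
  have huv0 : 0 < v - u := by linarith
  obtain ⟨ε, hε⟩ : ∃ ε, ε = (v - u) / (8 * (u + v)) := ⟨_, rfl⟩
  have hε0 : 0 < ε := by rw [hε]; positivity
  have hpnt : ∀ᶠ x : ℝ in atTop, |Chebyshev.theta x / x - 1| < ε := by
    have := (Metric.tendsto_nhds.1 H70PNT.theta_tendsto) ε hε0
    simpa only [Real.dist_eq] using this
  obtain ⟨x₀, hx₀⟩ := eventually_atTop.1 hpnt
  obtain ⟨m₁, hm₁⟩ := hTOT (max 1 (16 / (v - u)))
  obtain ⟨s₀, hs₀⟩ : ∃ s₀ : ℝ, s₀ = max 5 (max (16 * (1 + v) / (v - u)) v) := ⟨_, rfl⟩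
  refine ⟨max m₁ (max ⌈x₀⌉₊ ⌈Real.exp (s₀ ^ 2)⌉₊), ?_⟩
  intro m hm
  have hm1 : m₁ ≤ m := le_trans (le_max_left _ _) hm
  have hm2 : x₀ ≤ m := by
    have h1 : ⌈x₀⌉₊ ≤ m := le_trans (le_trans (le_max_left _ _) (le_max_right _ _)) hm
    exact (Nat.le_ceil x₀).trans (by exact_mod_cast h1)
  have hm3 : Real.exp (s₀ ^ 2) ≤ m := by
    have h1 : ⌈Real.exp (s₀ ^ 2)⌉₊ ≤ m :=
      le_trans (le_trans (le_max_right _ _) (le_max_right _ _)) hm
    exact (Nat.le_ceil _).trans (by exact_mod_cast h1)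
  have hmpos : (0 : ℝ) < m := lt_of_lt_of_le (Real.exp_pos _) hm3
  have hs05 : 5 ≤ s₀ := by rw [hs₀]; exact le_max_left _ _
  have hmN : 1 ≤ m := by
    have : 0 < m := by exact_mod_cast hmpos
    exact this
  obtain ⟨L, hL⟩ : ∃ L, L = Real.log (m : ℝ) := ⟨_, rfl⟩
  have hLs : s₀ ^ 2 ≤ L := by
    rw [hL]
    have := Real.log_le_log (Real.exp_pos _) hm3
    rwa [Real.log_exp] at this
  have hL0 : 0 < L := lt_of_lt_of_le (by positivity) hLs
  have hexpL : Real.exp L = m := by rw [hL]; exact Real.exp_log hmpos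
  obtain ⟨s, hs⟩ : ∃ s, s = Real.sqrt L := ⟨_, rfl⟩
  have hs2 : s ^ 2 = L := by rw [hs]; exact Real.sq_sqrt hL0.le
  have hss : s₀ ≤ s := by
    rw [hs]
    exact Real.le_sqrt_of_sq_le hLs
  have hs5 : 5 ≤ s := hs05.trans hss
  have hsC : 16 * (1 + v) / (v - u) ≤ s :=
    le_trans (le_trans (le_max_left _ _) (le_trans (le_max_right _ _) hs₀.ge)) hss
  have hsv : v ≤ s :=
    le_trans (le_trans (le_max_right _ _) (le_trans (le_max_right _ _) hs₀.ge)) hss
  have hs0 : 0 < s := by linarith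
  obtain ⟨H, hH⟩ : ∃ H, H = ((m.totient : ℝ) / m) * Real.log m := ⟨_, rfl⟩
  have hHA : max 1 (16 / (v - u)) ≤ H := by rw [hH]; exact hm₁ m hm1
  have hH1 : 1 ≤ H := (le_max_left _ _).trans hHA
  have hH16 : 16 ≤ (v - u) * H := by
    have h1 : 16 / (v - u) ≤ H := (le_max_right _ _).trans hHA
    rw [div_le_iff₀ huv0] at h1
    linarith
  have hH0 : 0 < H := by linarith
  have hHL : H ≤ L := by
    rw [hH, ← hL]
    have h1 : ((m.totient : ℝ) / m) ≤ 1 := by
      rw [div_le_one hmpos]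
      exact_mod_cast Nat.totient_le m
    calc ((m.totient : ℝ) / m) * L ≤ 1 * L := mul_le_mul_of_nonneg_right h1 hL0.le
      _ = L := one_mul L
  obtain ⟨U, hU⟩ : ∃ U : ℕ, U = ⌊u * H⌋₊ + 1 := ⟨_, rfl⟩
  obtain ⟨X, hX⟩ : ∃ X : ℕ, X = ⌊v * H⌋₊ := ⟨_, rfl⟩
  have hXle : (X : ℝ) ≤ v * H := by
    rw [hX]
    exact Nat.floor_le (by positivity)
  have hXge : v * H - 1 ≤ X := by
    have := Nat.lt_floor_add_one (v * H)
    rw [← hX] at this
    linarith
  have hUle : (U : ℝ) ≤ u * H + 1 := by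
    rw [hU]
    push_cast
    have := Nat.floor_le (show 0 ≤ u * H by positivity)
    linarith
  have hUX : U ≤ X := by
    have h1 : (U : ℝ) ≤ X := by
      have : u * H + 1 ≤ v * H - 1 := by linarith
      linarith
    exact_mod_cast h1
  have hU1 : 1 ≤ U := by omega
  have htot := total m u v hv.le (by rw [← hH]; exact hH0.le) U X (by rw [← hH]; exact hU)
    (by rw [← hH]; exact hX) hUX
  refine le_trans ?_ htot
  rw [← hH, ← hL]
  have hX1 : 1 ≤ X := hU1.trans hUX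
  have hXm : x₀ ≤ ((X * m : ℕ) : ℝ) := by
    have h1 : m ≤ X * m := Nat.le_mul_of_pos_left m hX1
    exact hm2.trans (by exact_mod_cast h1)
  have hUm : x₀ ≤ ((U * m : ℕ) : ℝ) := by
    have h1 : m ≤ U * m := Nat.le_mul_of_pos_left m hU1
    exact hm2.trans (by exact_mod_cast h1)
  have hXm0 : (0 : ℝ) < ((X * m : ℕ) : ℝ) := by exact_mod_cast Nat.mul_pos hX1 hmN
  have hUm0 : (0 : ℝ) < ((U * m : ℕ) : ℝ) := by exact_mod_cast Nat.mul_pos hU1 hmN
  have t1 : (1 - ε) * ((X : ℝ) * m) - Real.log ((X * m : ℕ) : ℝ) ≤ T (X * m) := by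
    have g1 := (abs_lt.1 (hx₀ _ hXm)).1
    rw [lt_sub_iff_add_lt, lt_div_iff₀ hXm0] at g1
    have g2 := le_T (X * m)
    push_cast at g1 g2 ⊢
    linarith
  have t2 : T (U * m) ≤ (1 + ε) * ((U : ℝ) * m) := by
    have g1 := (abs_lt.1 (hx₀ _ hUm)).2
    rw [sub_lt_iff_lt_add, div_lt_iff₀ hUm0] at g1
    have g2 := T_le (U * m)
    push_cast at g1 g2 ⊢
    linarith
  have hWle := W_le m L s hs
  have hW0 : (1 : ℝ) ≤ ((WW m L : ℕ) : ℝ) := by exact_mod_cast THDd.WW_pos m L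
  have hexp5 : Real.exp (5 * s) ≤ m := by
    rw [← hexpL, ← hs2, pow_two]
    apply Real.exp_le_exp.2
    exact mul_le_mul_of_nonneg_right hs5 hs0.le
  have hXlem : (X : ℝ) ≤ m := by
    have h1 : v * H ≤ s * s ^ 2 := by
      rw [hs2]
      exact mul_le_mul hsv hHL hH0.le hs0.le
    have h2 : s * s ^ 2 ≤ Real.exp s * Real.exp (2 * s) :=
      mul_le_mul s_le (sq_le hs0) (by positivity) (Real.exp_pos s).le
    have h3 : Real.exp s * Real.exp (2 * s) ≤ Real.exp (5 * s) := by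
      rw [← Real.exp_add]
      apply Real.exp_le_exp.2
      linarith
    exact hXle.trans (h1.trans (h2.trans (h3.trans hexp5)))
  have hlog : Real.log ((X * m : ℕ) : ℝ) ≤ 2 * s ^ 2 := by
    have h1 : ((X * m : ℕ) : ℝ) ≤ (m : ℝ) ^ 2 := by
      push_cast
      rw [pow_two]
      exact mul_le_mul_of_nonneg_right hXlem hmpos.le
    have h2 := Real.log_le_log hXm0 h1
    rw [Real.log_pow, ← hL] at h2
    rw [hs2]
    push_cast at h2 ⊢
    exact h2
  have hlog0 : 0 ≤ Real.log ((X * m : ℕ) : ℝ) := Real.log_natCast_nonneg _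
  have herr := err u v s H m X (WW m L : ℕ) (Real.log ((X * m : ℕ) : ℝ)) huv0 hv hs5 hH1 hXle
    hW0 hWle hlog0 hlog hsC hexp5
  have hmain := mainterm u v ε H m X U hu huv0 hmpos.le hε hH16 hXge hUle
  have hfin : (v - u) / 2 * (H * m) ≤ (v - u) * H * m * (3 / 4) - (v - u) / 8 * (H * m) := by
    have : 0 ≤ (v - u) * (H * m) := by positivity
    linarith
  linarith

end

end IP
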