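import Pool.Agent.IP.StmtsR

set_option autoImplicit false

/-!
Isolated primes in the classes of every modulus: SEL, many good pairs.
-/

namespace IP

open Finset Pool.Agent.Lib_helper9.LG

noncomputable section

namespace SEL

lemma sqf_prod (s : Finset ℕ) (h : ∀ p ∈ s, p.Prime) : Squarefree (∏ p ∈ s, p) := by
  induction s using Finset.induction_on with
  | empty => simp
  | insert a s ha ih =>
    rw [prod_insert ha, Nat.squarefree_mul_iff]
    have hp := h a (mem_insert_self a s)
    refine ⟨Nat.Coprime.prod_right fun p hps => ?_, hp.squarefree, ih fun _ hps =>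
      h _ (mem_insert_of_mem hps)⟩
    refine (Nat.coprime_primes hp (h p (mem_insert_of_mem hps))).2 ?_
    rintro rfl
    exact ha hps

lemma WW_prime (m : ℕ) (L : ℝ) : ∀ p ∈ (Icc 1 ⌊Real.sqrt L⌋₊).filter (fun p => p.Prime ∧ ¬ p ∣ m),
    p.Prime := fun p hp => (mem_filter.1 hp).2.1

lemma WW_pos (m : ℕ) (L : ℝ) : 1 ≤ WW m L := by
  unfold WW
  exact Nat.one_le_iff_ne_zero.2 (prod_ne_zero_iff.2 fun p hp => (WW_prime m L p hp).ne_zero)

lemma WW_sqf (m : ℕ) (L : ℝ) : Squarefree (WW m L) := by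
  unfold WW
  exact sqf_prod _ (WW_prime m L)

lemma WW_cop (m : ℕ) (L : ℝ) : (WW m L).Coprime m := by
  unfold WW
  refine Nat.Coprime.prod_left fun p hp => ?_
  exact ((WW_prime m L p hp).coprime_iff_not_dvd).2 (mem_filter.1 hp).2.2

lemma count_cop (W c : ℕ) : ((range W).filter (fun b => (b + c).Coprime W)).card = W.totient := by
  rw [← Nat.filter_coprime_Ico_eq_totient W c]
  refine card_bij (fun b _ => b + c) ?_ ?_ ?_
  · intro b hb
    rw [mem_filter, mem_range] at hb
    rw [mem_filter, mem_Ico]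
    exact ⟨⟨by omega, by omega⟩, hb.2.symm⟩
  · intro b _ b' _ h
    exact Nat.add_right_cancel h
  · intro x hx
    rw [mem_filter, mem_Ico] at hx
    refine ⟨x - c, ?_, by omega⟩
    rw [mem_filter, mem_range]
    refine ⟨by omega, ?_⟩
    have : x - c + c = x := by omega
    rw [this]
    exact hx.2.symm

/-- the number of positions -/
lemma card_II (m : ℕ) (u v : ℝ) (hu : 0 < u) (huv : u < v)
    (hH : 0 ≤ ((m.totient : ℝ) / m) * Real.log m) :
    ((II m u v).card : ℝ) ≤ (v - u) * (((m.totient : ℝ) / m) * Real.log m) := by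
  set H' : ℝ := ((m.totient : ℝ) / m) * Real.log m with hH'
  rcases (II m u v).eq_empty_or_nonempty with h | ⟨i, hi⟩
  · rw [h, card_empty, Nat.cast_zero]
    exact mul_nonneg (sub_nonneg.2 huv.le) hH
  · have hsub : II m u v ⊆ Ioc ⌊u * H'⌋₊ (⌊v * H'⌋₊ - 1) := by
      intro j hj
      unfold II at hj
      rw [mem_filter, mem_range] at hj
      obtain ⟨-, h1, h2⟩ := hj
      rw [mem_Ioc]
      have h3 : ⌊u * H'⌋₊ < j := (Nat.floor_lt (mul_nonneg hu.le hH)).2 h1
      have h4 : j + 1 ≤ ⌊v * H'⌋₊ := Nat.le_floor (by push_cast; exact h2)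
      omega
    have hc := card_le_card hsub
    rw [Nat.card_Ioc] at hc
    have hi' := hsub hi
    rw [mem_Ioc] at hi'
    have h5 : (II m u v).card + ⌊u * H'⌋₊ + 1 ≤ ⌊v * H'⌋₊ := by omega
    have h6 : (((II m u v).card : ℝ) + (⌊u * H'⌋₊ : ℝ) + 1) ≤ (⌊v * H'⌋₊ : ℝ) := by
      exact_mod_cast h5
    have h7 : (⌊v * H'⌋₊ : ℝ) ≤ v * H' :=
      Nat.floor_le (mul_nonneg (hu.trans huv).le hH)
    have h8 : u * H' < (⌊u * H'⌋₊ : ℝ) + 1 := Nat.lt_floor_add_one _
    nlinarith

/-- classes which contain no prime -/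
lemma Th_zero {m W b i : ℕ} (hm : 1 ≤ m) (hi : 2 ≤ i) (hW : 1 ≤ W)
    (h : ¬ (b + i * m).Coprime W) : Th m W b i (m / W) = 0 := by
  unfold Th
  refine sum_eq_zero fun x hx => ?_
  exfalso
  unfold Pi at hx
  rw [mem_filter, mem_range] at hx
  obtain ⟨hx1, hx2⟩ := hx
  have hWm : W ≤ m := by
    by_contra hlt
    rw [Nat.div_eq_of_lt (not_le.1 hlt)] at hx1
    omega
  obtain ⟨p, hp, hp1, hp2⟩ := Nat.Prime.not_coprime_iff_dvd.1 h
  have h1 : p ∣ b + W * x + i * m := by
    have h2 : p ∣ W * x := hp2.mul_right x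
    have h3 : b + W * x + i * m = (b + i * m) + W * x := by ring
    rw [h3]
    exact hp1.add h2
  have h2 : p = b + W * x + i * m := (Nat.prime_dvd_prime_iff_eq hp hx2).1 h1
  have h3 : p ≤ W := Nat.le_of_dvd hW hp2
  have h4 : 2 * m ≤ i * m := Nat.mul_le_mul_right m hi
  omega

end SEL

open SEL in
open Classical in
theorem t_SEL : M_SEL := by
  intro hBT hKAV hTOT hPSM
  obtain ⟨CB, hCB, mB, hBT⟩ := hBT
  obtain ⟨CK, hCK, hKAV⟩ := hKAV
  refine ⟨8 * CB * CK, by positivity, fun u v t hu huv hvt => ?_⟩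
  obtain ⟨mP, hPSM⟩ := hPSM u v hu huv
  obtain ⟨mT, hTOT⟩ := hTOT (2 / u)
  have hv : 0 < v := hu.trans huv
  refine ⟨(v - u) / (4 * CB), div_pos (sub_pos.2 huv) (by positivity),
    max (max mB mP) (max mT (⌈Real.exp v⌉₊ + 3)), fun m hm => ?_⟩
  have hm1 : mB ≤ m := (le_max_left _ _).trans ((le_max_left _ _).trans hm)
  have hm2 : mP ≤ m := (le_max_right _ _).trans ((le_max_left _ _).trans hm)
  have hm3 : mT ≤ m := (le_max_left _ _).trans ((le_max_right _ _).trans hm)
  have hm4 : ⌈Real.exp v⌉₊ + 3 ≤ m := (le_max_right _ _).trans ((le_max_right _ _).trans hm)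
  have hm0 : (0 : ℝ) < m := by
    have : 0 < m := by omega
    exact_mod_cast this
  have hlog : v ≤ Real.log m := by
    rw [Real.le_log_iff_exp_le hm0]
    refine (Nat.le_ceil _).trans ?_
    have : ⌈Real.exp v⌉₊ ≤ m := by omega
    exact_mod_cast this
  have hT := hTOT m hm3
  have hP := hPSM m hm2
  have hB := hBT m hm1
  set L : ℝ := Real.log m with hL
  set W : ℕ := WW m L with hWdef
  set H' : ℝ := ((m.totient : ℝ) / m) * L with hH'
  set H : ℕ := ⌊t * H'⌋₊ with hH
  have hL0 : 0 < L := hv.trans_le hlog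
  have hW1 : 1 ≤ W := WW_pos m L
  have hW0 : (0 : ℝ) < W := by exact_mod_cast hW1
  have hφ : (0 : ℝ) < W.totient := by exact_mod_cast Nat.totient_pos.2 hW1
  have hH'0 : 0 < H' := (div_pos two_pos hu).trans_le hT
  have huH : 2 ≤ u * H' := by
    have := (div_le_iff₀ hu).1 hT
    linarith
  have hH'L : H' ≤ L := by
    have h1 : (m.totient : ℝ) / m ≤ 1 := by
      rw [div_le_one hm0]
      exact_mod_cast Nat.totient_le m
    calc H' = ((m.totient : ℝ) / m) * L := rfl
      _ ≤ 1 * L := mul_le_mul_of_nonneg_right h1 hL0.le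
      _ = L := one_mul L
  have hIm : ∀ i ∈ II m u v, 2 ≤ i ∧ (i : ℝ) ≤ L ^ 2 ∧ i ≤ H := by
    intro i hi
    unfold II at hi
    rw [mem_filter, mem_range] at hi
    obtain ⟨-, h1, h2⟩ := hi
    have h3 : (i : ℝ) ≤ v * H' := by linarith
    refine ⟨?_, ?_, ?_⟩
    · have : (2 : ℝ) < i := huH.trans_lt h1
      have : 2 < i := by exact_mod_cast this
      omega
    · calc (i : ℝ) ≤ v * H' := h3
        _ ≤ L * L := mul_le_mul hlog hH'L hH'0.le hL0.le
        _ = L ^ 2 := by ring
    · exact Nat.le_floor (h3.trans (mul_le_mul_of_nonneg_right hvt hH'0.le))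
  have hIc := card_II m u v hu huv hH'0.le
  -- the condition on pairs
  set Good : ℕ → ℕ → Prop := fun i b => (b + i * m).Coprime W ∧
    (m : ℝ) / (8 * W.totient) ≤ Th m W b i (m / W) ∧
    ((KK m W b i H).card : ℝ) ≤
      8 * CB * CK * (((H : ℝ) + 1) * ((W.totient : ℝ) / W)) with hGood
  have hcard : ((GP m u v (8 * CB * CK) H).card : ℝ) =
      ∑ i ∈ II m u v, ∑ b ∈ range W, (if Good i b then (1 : ℝ) else 0) := by
    unfold GP
    rw [card_filter, sum_product]
    push_cast
    refine sum_congr rfl fun i _ => sum_congr rfl fun b _ => ?_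
    by_cases h : Good i b
    · rw [if_pos h]
    · rw [if_neg h]
  set K0 : ℝ := ((H : ℝ) + 1) * ((W.totient : ℝ) / W) with hK0
  have hK0pos : 0 < K0 := mul_pos (by positivity) (div_pos hφ hW0)
  set cB : ℝ := CB * (m / (W.totient : ℝ)) with hcB
  have hcB0 : 0 < cB := mul_pos hCB (div_pos hm0 hφ)
  have hpt : ∀ i ∈ II m u v, ∀ b ∈ range W, Th m W b i (m / W) ≤
      (if (b + i * m).Coprime W then (m : ℝ) / (8 * W.totient) else 0) +
      (if (b + i * m).Coprime W then ((KK m W b i H).card : ℝ) * (cB / (8 * CB * CK * K0)) else 0) +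
      (if Good i b then (1 : ℝ) else 0) * cB := by
    intro i hi b hb
    have hb' := mem_range.1 hb
    obtain ⟨hi1, hi2, hi3⟩ := hIm i hi
    by_cases hc : (b + i * m).Coprime W
    · rw [if_pos hc, if_pos hc]
      have hTB : Th m W b i (m / W) ≤ cB := hB b i hb' hc hi1 hi2
      have ha : 0 ≤ (m : ℝ) / (8 * W.totient) := by positivity
      have hb2 : 0 ≤ ((KK m W b i H).card : ℝ) * (cB / (8 * CB * CK * K0)) := by positivity
      have hc2 : 0 ≤ (if Good i b then (1 : ℝ) else 0) * cB := by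
        split_ifs
        · positivity
        · simp
      by_cases h1 : (m : ℝ) / (8 * W.totient) ≤ Th m W b i (m / W)
      · by_cases h2 : ((KK m W b i H).card : ℝ) ≤ 8 * CB * CK * K0
        · have hg : Good i b := ⟨hc, h1, h2⟩
          rw [if_pos hg]
          linarith
        · have h3 : cB ≤ ((KK m W b i H).card : ℝ) * (cB / (8 * CB * CK * K0)) := by
            rw [mul_div_assoc', le_div_iff₀ (by positivity), mul_comm cB]
            exact mul_le_mul_of_nonneg_right (not_le.1 h2).le hcB0.le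
          linarith
      · have := (not_le.1 h1).le
        linarith
    · have h0 : Th m W b i (m / W) = 0 := Th_zero (by omega) hi1 hW1 hc
      rw [if_neg hc, if_neg hc]
      have hc2 : 0 ≤ (if Good i b then (1 : ℝ) else 0) * cB := by
        split_ifs
        · positivity
        · simp
      linarith
  have hrow : ∀ i ∈ II m u v, ∑ b ∈ range W, Th m W b i (m / W) ≤
      (m : ℝ) / 4 + (∑ b ∈ range W, (if Good i b then (1 : ℝ) else 0)) * cB := by
    intro i hi
    obtain ⟨hi1, hi2, hi3⟩ := hIm i hi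
    refine (sum_le_sum (hpt i hi)).trans ?_
    rw [sum_add_distrib, sum_add_distrib, ← sum_filter, ← sum_filter, sum_const, nsmul_eq_mul,
      count_cop, ← sum_mul, ← sum_mul]
    have h1 : (W.totient : ℝ) * ((m : ℝ) / (8 * W.totient)) = m / 8 := by
      field_simp
    have h2 := hKAV m W i H (by omega) hW1 (WW_sqf m L) (WW_cop m L) hi3
    have h3 : (∑ b ∈ (range W).filter (fun b => (b + i * m).Coprime W),
        ((KK m W b i H).card : ℝ)) * (cB / (8 * CB * CK * K0)) ≤ m / 8 := by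
      have h4 : 0 ≤ cB / (8 * CB * CK * K0) := by positivity
      refine (mul_le_mul_of_nonneg_right h2 h4).trans (le_of_eq ?_)
      rw [hcB, hK0]
      field_simp
    rw [h1]
    linarith
  have htot : (v - u) / 2 * (H' * m) ≤
      ((II m u v).card : ℝ) * (m / 4) + ((GP m u v (8 * CB * CK) H).card : ℝ) * cB := by
    refine hP.trans ((sum_le_sum hrow).trans (le_of_eq ?_))
    rw [sum_add_distrib, sum_const, nsmul_eq_mul, ← sum_mul, hcard]
  have h9 : ((II m u v).card : ℝ) * (m / 4) ≤ (v - u) * H' * (m / 4) :=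
    mul_le_mul_of_nonneg_right hIc (by positivity)
  have h10 : (v - u) / 4 * (H' * m) ≤ ((GP m u v (8 * CB * CK) H).card : ℝ) * cB := by
    have : (v - u) / 2 * (H' * m) - (v - u) * H' * (m / 4) = (v - u) / 4 * (H' * m) := by ring
    linarith
  have h11 : (v - u) / (4 * CB) * (H' * W.totient) * cB = (v - u) / 4 * (H' * m) := by
    rw [hcB]
    field_simp
  rw [← h11] at h10
  exact le_of_mul_le_mul_right h10 hcB0

end

end IP
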