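import Mathlib
import Pool.Agent.IP.StmtsR
import Pool.Agent.Lib_helper9.LG.CoreD2

set_option autoImplicit false

/-!
Lower bound for the mean square of `G` (first half of `coreD`).
-/

namespace IP

open Finset Pool.Agent.Lib_helper9.LG

noncomputable section

open Classical in
theorem t_CRL : S_CRL := by
  intro ι κ σ _ _ _ _ q lam a B B1 hl hq ha hal hB1 hB hnorm x Ω Lam v V VJ J hV0 hV hVJ hVJ2 hJ
    hv1 hv3 M ε η C hM hη hε0 hC hε herr
  obtain ⟨Z, hZ⟩ : ∃ Z : ℝ, Z = ∑ α : ι → Option κ, vw lam B V (fun _ => ww lam q a B1) α :=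
    ⟨_, rfl⟩
  obtain ⟨Y, hY⟩ : ∃ Y : ℝ, Y = ∑ α : ι → Option κ, wt lam B (fun _ => ww lam q a B1) α :=
    ⟨_, rfl⟩
  obtain ⟨e, he⟩ : ∃ e : ℝ, e = η * (Real.exp (3 * B) * C) ^ 2 := ⟨_, rfl⟩
  obtain ⟨ε3, hε3⟩ : ∃ ε3 : ℝ, ε3 = 2 * ε / VJ := ⟨_, rfl⟩
  have hw0 : ∀ α : ι → Option κ, 0 ≤ wt lam B (fun _ => ww lam q a B1) α :=
    fun α => wt_nonneg (fun _ T => ww_nonneg hq T) α
  have hvw0 : ∀ α : ι → Option κ, 0 ≤ vw lam B V (fun _ => ww lam q a B1) α :=
    fun α => vw_nonneg hV (fun _ T => ww_nonneg hq T) α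
  have hε30 : 0 ≤ ε3 := by rw [hε3]; positivity
  -- supports
  have hwt0 : ∀ α : ι → Option κ, B < sz lam (spp α) →
      wt lam B (fun _ => ww lam q a B1) α = 0 := by
    intro α hα
    rw [wt, if_neg (not_le.2 hα)]
  have hYZ : 2 * ε * Y ≤ ε3 * Z := by
    have h4 : VJ * Y ≤ Z := by
      rw [hY, hZ, Finset.mul_sum]
      apply Finset.sum_le_sum
      intro α _
      unfold vw
      by_cases hα : sz lam (spp α) ≤ B
      · exact mul_le_mul_of_nonneg_right (hVJ2 _ (hJ α hα)) (hw0 α)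
      · rw [hwt0 α (not_le.1 hα)]
        simp
    have h5 : ε3 * VJ = 2 * ε := by
      rw [hε3]
      field_simp
    calc 2 * ε * Y = ε3 * (VJ * Y) := by rw [← h5]; ring
      _ ≤ ε3 * Z := by gcongr
  have hZ1 : 1 ≤ Z := by
    have h3 : vw lam B V (fun _ => ww lam q a B1) (fun _ : ι => (none : Option κ)) = 1 := by
      have h4 : spp (fun _ : ι => (none : Option κ)) = ∅ := by
        ext i
        simp [mem_spp]
      have h5 : ∀ k : κ, blk (fun _ : ι => (none : Option κ)) k = ∅ := by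
        intro k
        ext i
        simp [mem_blk]
      have h6 : act (fun _ : ι => (none : Option κ)) = ∅ := by
        ext k
        simp [mem_act, h5]
      rw [vw, wt, h4, h6, sz_empty, if_pos hB, card_empty, hV0, one_mul]
      apply Finset.prod_eq_one
      intro k _
      rw [h5, ww_empty]
    rw [← h3, hZ]
    exact Finset.single_le_sum
      (f := fun α : ι → Option κ => vw lam B V (fun _ => ww lam q a B1) α)
      (fun α _ => hvw0 α) (mem_univ _)
  -- the mean square of `G`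
  have hG := mean_squareD hq x Ω (M := M) Lam v (fun α => act α) lam (B := B) hη hC hε
    (fun α β hα hβ => hv3 _ _ (hJ α hα) (hJ β hβ))
    (fun α β hα hβ => herr α β hα hβ _ _ (hJ α hα) (hJ β hβ))
    (yy lam a B B1) (abs_yy_le hl ha hal) (by
      intro α hα
      by_contra h
      exact hα (by rw [yy, wt, if_neg h]))
  rw [← he] at hG
  have hYeq : ∑ α : ι → Option κ, yy lam a B B1 α ^ 2 / ph q (spp α) = Y := by
    rw [hY]
    exact Finset.sum_congr rfl fun α _ => yy_sq α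
  rw [hYeq] at hG
  have hG1 : Z ≤ ∑ α : ι → Option κ,
      v (act α) (act α) * (yy lam a B B1 α ^ 2 / ph q (spp α)) := by
    rw [hZ]
    apply Finset.sum_le_sum
    intro α _
    rw [yy_sq α]
    unfold vw
    by_cases hα : sz lam (spp α) ≤ B
    · exact mul_le_mul_of_nonneg_right (hv1 _ (hJ α hα)) (hw0 α)
    · rw [hwt0 α (not_le.1 hα)]
      simp
  have hG2 := (abs_le.1 hG).1
  have hG3 : Z - ε3 * Z - e ≤ (∑ ω ∈ Ω, GD lam a B B1 x Lam ω ^ 2) / M := by
    have hG4 : (∑ ω ∈ Ω, GD lam a B B1 x Lam ω ^ 2) / M =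
        (∑ ω ∈ Ω, (∑ α, yy lam a B B1 α * (Lam (act α) ω * vl x α ω)) ^ 2) / M := rfl
    rw [hG4]
    linarith
  rw [← hZ, ← he, ← hε3]
  refine ⟨hZ1, ?_⟩
  linarith

end

end IP
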