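import Mathlib
import Pool.Agent.IP.StmtsR

set_option autoImplicit false
set_option linter.unusedSectionVars false
set_option linter.unusedSimpArgs false

/-!
Isolated primes in the classes of every modulus: upper bound for the part of the mean square where
some site is not hit.
-/

namespace IP

open Finset Pool.Agent.Lib_helper9.LG

noncomputable section

theorem t_CRU : S_CRU := by
  classical
  intro ι κ σ _ _ _ _ q lam a B B1 hl hq ha hal hB1 hB hnorm x Ω Lam v V V1 VJ J hV hV1 hVs hVJ
    hVJ2 hJ hv2 hv3 M ε η C δ hM hη hε0 hC hε hδ0 hδ herr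
  obtain ⟨Z, hZ⟩ : ∃ Z : ℝ, Z = ∑ α : ι → Option κ, vw lam B V (fun _ => ww lam q a B1) α :=
    ⟨_, rfl⟩
  obtain ⟨Y, hY⟩ : ∃ Y : ℝ, Y = ∑ α : ι → Option κ, wt lam B (fun _ => ww lam q a B1) α :=
    ⟨_, rfl⟩
  obtain ⟨τ, hτ⟩ : ∃ τ : ℝ, τ = Real.exp ((2 * a * (V1 * Fintype.card κ) - (B - B1)) / B1) :=
    ⟨_, rfl⟩
  obtain ⟨e, he⟩ : ∃ e : ℝ, e = η * (Real.exp (3 * B) * C) ^ 2 := ⟨_, rfl⟩
  obtain ⟨ε3, hε3⟩ : ∃ ε3 : ℝ, ε3 = 2 * ε / VJ := ⟨_, rfl⟩
  have hτ0 : 0 ≤ τ := by rw [hτ]; exact Real.exp_nonneg _
  have hw0 : ∀ α : ι → Option κ, 0 ≤ wt lam B (fun _ => ww lam q a B1) α :=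
    fun α => wt_nonneg (fun _ T => ww_nonneg hq T) α
  have hvw0 : ∀ α : ι → Option κ, 0 ≤ vw lam B V (fun _ => ww lam q a B1) α :=
    fun α => vw_nonneg hV (fun _ T => ww_nonneg hq T) α
  have he0 : 0 ≤ e := by rw [he]; positivity
  have hε30 : 0 ≤ ε3 := by rw [hε3]; positivity
  have hK : (0 : ℝ) ≤ Fintype.card κ := Nat.cast_nonneg _
  -- supports
  have hwt0 : ∀ α : ι → Option κ, B < sz lam (spp α) →
      wt lam B (fun _ => ww lam q a B1) α = 0 := by
    intro α hα
    rw [wt, if_neg (not_le.2 hα)]
  have hYZ : 2 * ε * Y ≤ ε3 * Z := by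
    have h4 : VJ * Y ≤ Z := by
      rw [hY, hZ, Finset.mul_sum]
      apply Finset.sum_le_sum
      intro α _
      unfold vw
      by_cases hα : sz lam (spp α) ≤ B
      · exact mul_le_mul_of_nonneg_right (hVJ2 _ (hJ α hα)) (hw0 α)
      · rw [hwt0 α (not_le.1 hα)]
        simp
    have h5 : ε3 * VJ = 2 * ε := by
      rw [hε3]
      field_simp
    calc 2 * ε * Y = ε3 * (VJ * Y) := by rw [← h5]; ring
      _ ≤ ε3 * Z := by gcongr
  -- the mean square of `H_k`
  have hH : ∀ k : κ,
      (∑ ω ∈ Ω, (∑ α, yk lam q a B B1 k α * (Lam (insert k (act α)) ω * vl x α ω)) ^ 2) / M ≤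
      2 * V1 * ((δ ^ 2 + τ) * Z) + ε3 * Z + e := by
    intro k
    have hcard : ∀ α : ι → Option κ, sz lam (spp α) ≤ B → (insert k (act α)).card ≤ J + 1 := by
      intro α hα
      exact (card_insert_le _ _).trans (Nat.succ_le_succ (hJ α hα))
    have hH1 := mean_squareD hq x Ω (M := M) Lam v (fun α => insert k (act α)) lam (B := B) hη hC hε
      (fun α β hα hβ => hv3 _ _ (hcard α hα) (hcard β hβ))
      (fun α β hα hβ => herr α β hα hβ _ _ (hcard α hα) (hcard β hβ))
      (yk lam q a B B1 k)
      (by
        intro α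
        unfold yk
        split_ifs with h
        · by_cases hα : sz lam (spp α) ≤ B
          · rw [abs_mul]
            have h3 := abs_yy_le (B := B) (B1 := B1) hl ha hal α
            have h4 : |AA lam q a B B1 α| ≤ 1 := by
              rw [abs_of_nonneg (AA_nonneg hl hq ha hnorm α hα)]
              exact AA_le_one hl hq ha α hα
            exact mul_le_one₀ h3 (abs_nonneg _) h4
          · rw [yy, wt, if_neg hα]
            simp
        · simp)
      (by
        intro α hα
        by_contra h
        apply hα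
        rw [yk, yy, wt, if_neg h]
        simp)
    rw [← he] at hH1
    have hyk0 : ∀ α : ι → Option κ, B < sz lam (spp α) → yk lam q a B B1 k α = 0 := by
      intro α hα
      rw [yk, yy, wt, if_neg (not_le.2 hα)]
      simp
    have hyksq : ∀ α : ι → Option κ, sz lam (spp α) ≤ B → α ∈ avo k →
        yk lam q a B B1 k α ^ 2 / ph q (spp α) =
          wt lam B (fun _ => ww lam q a B1) α * AA lam q a B B1 α ^ 2 := by
      intro α _ hav
      rw [yk, if_pos hav, mul_pow, mul_div_right_comm, yy_sq α]
    have hS1 : ∑ α, yk lam q a B B1 k α ^ 2 / ph q (spp α) ≤ Y := by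
      rw [hY]
      apply Finset.sum_le_sum
      intro α _
      by_cases hα : sz lam (spp α) ≤ B
      · by_cases hav : α ∈ avo k
        · rw [hyksq α hα hav]
          have hA0 := AA_nonneg hl hq ha hnorm α hα
          have hA1 := AA_le_one (B1 := B1) hl hq ha α hα
          have h4 : AA lam q a B B1 α ^ 2 ≤ 1 := by nlinarith
          have h5 := hw0 α
          nlinarith
        · rw [yk, if_neg hav]
          simpa using hw0 α
      · rw [hyk0 α (not_le.1 hα)]
        simpa using hw0 α
    have hS : ∑ α, v (insert k (act α)) (insert k (act α)) *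
        (yk lam q a B B1 k α ^ 2 / ph q (spp α)) ≤ 2 * V1 * ((δ ^ 2 + τ) * Z) := by
      have h3 : ∀ α : ι → Option κ, v (insert k (act α)) (insert k (act α)) *
          (yk lam q a B B1 k α ^ 2 / ph q (spp α)) ≤
          2 * V1 * (δ ^ 2 * vw lam B V (fun _ => ww lam q a B1) α +
          (if B - B1 < sz lam (spp α) then vw lam B V (fun _ => ww lam q a B1) α else 0)) := by
        intro α
        have h0 := hvw0 α
        have hrhs : 0 ≤ 2 * V1 * (δ ^ 2 * vw lam B V (fun _ => ww lam q a B1) α +
            (if B - B1 < sz lam (spp α) then vw lam B V (fun _ => ww lam q a B1) α else 0)) := by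
          have : 0 ≤ (if B - B1 < sz lam (spp α) then
              vw lam B V (fun _ => ww lam q a B1) α else 0) := by
            split_ifs
            · exact h0
            · exact le_rfl
          positivity
        by_cases hα : sz lam (spp α) ≤ B
        · by_cases hav : α ∈ avo k
          · rw [hyksq α hα hav]
            have hA0 := AA_nonneg hl hq ha hnorm α hα
            have hA1 := AA_le_one (B1 := B1) hl hq ha α hα
            have hvv : v (insert k (act α)) (insert k (act α)) ≤ 2 * (V1 * V (act α).card) := by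
              have h4 := hv2 _ (hcard α hα)
              rw [card_insert_of_notMem (not_mem_act hav)] at h4
              have h5 := hVs (act α).card
              linarith
            have hwA : 0 ≤ wt lam B (fun _ => ww lam q a B1) α * AA lam q a B B1 α ^ 2 :=
              mul_nonneg (hw0 α) (sq_nonneg _)
            refine (mul_le_mul_of_nonneg_right hvv hwA).trans ?_
            have hVw : vw lam B V (fun _ => ww lam q a B1) α =
                V (act α).card * wt lam B (fun _ => ww lam q a B1) α := rfl
            split_ifs with hc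
            · have h4 : AA lam q a B B1 α ^ 2 ≤ 1 := by nlinarith
              calc 2 * (V1 * V (act α).card) *
                    (wt lam B (fun _ => ww lam q a B1) α * AA lam q a B B1 α ^ 2) =
                    2 * V1 * (vw lam B V (fun _ => ww lam q a B1) α *
                      AA lam q a B B1 α ^ 2) := by
                    rw [hVw]
                    ring
                _ ≤ 2 * V1 * (δ ^ 2 * vw lam B V (fun _ => ww lam q a B1) α +
                      vw lam B V (fun _ => ww lam q a B1) α) := by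
                    apply mul_le_mul_of_nonneg_left _ (by positivity)
                    have h6 : 0 ≤ δ ^ 2 * vw lam B V (fun _ => ww lam q a B1) α := by
                      positivity
                    nlinarith
            · rw [add_zero]
              have h4 := AA_small (B := B) hl hq ha hal hnorm α hB1.le (by linarith) (hδ α hα)
              have h5 : AA lam q a B B1 α ^ 2 ≤ δ ^ 2 := by nlinarith
              calc 2 * (V1 * V (act α).card) *
                    (wt lam B (fun _ => ww lam q a B1) α * AA lam q a B B1 α ^ 2) =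
                    2 * V1 * (vw lam B V (fun _ => ww lam q a B1) α *
                      AA lam q a B B1 α ^ 2) := by
                    rw [hVw]
                    ring
                _ ≤ 2 * V1 * (δ ^ 2 * vw lam B V (fun _ => ww lam q a B1) α) := by
                    apply mul_le_mul_of_nonneg_left _ (by positivity)
                    nlinarith
          · rw [yk, if_neg hav]
            simpa using hrhs
        · rw [hyk0 α (not_le.1 hα)]
          simpa using hrhs
      have h4 := tail_leV (κ := κ) hl hq hnorm hB1 (B := B) hV hV1 hVs (B - B1)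
      rw [← hZ, ← hτ] at h4
      calc _ ≤ ∑ α : ι → Option κ, 2 * V1 * (δ ^ 2 * vw lam B V (fun _ => ww lam q a B1) α +
          (if B - B1 < sz lam (spp α) then vw lam B V (fun _ => ww lam q a B1) α else 0)) :=
            Finset.sum_le_sum fun α _ => h3 α
        _ = 2 * V1 * (δ ^ 2 * Z + ∑ α : ι → Option κ,
          (if B - B1 < sz lam (spp α) then vw lam B V (fun _ => ww lam q a B1) α else 0)) := by
            rw [← Finset.mul_sum, Finset.sum_add_distrib, ← Finset.mul_sum, hZ]
        _ ≤ 2 * V1 * (δ ^ 2 * Z + Z * τ) := by gcongr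
        _ = _ := by ring
    have h6 := (abs_le.1 hH1).2
    have h7 : 2 * ε * ∑ α, yk lam q a B B1 k α ^ 2 / ph q (spp α) ≤ ε3 * Z := by
      calc 2 * ε * ∑ α, yk lam q a B B1 k α ^ 2 / ph q (spp α) ≤ 2 * ε * Y := by gcongr
        _ ≤ ε3 * Z := hYZ
    linarith
  -- comparison
  have hcmp : ∑ ω ∈ Ω.filter (fun ω => ∃ k, (∀ i, x i k ω = 1 / q i) ∧
      ∀ A, Lam (insert k A) ω = Lam A ω), GD lam a B B1 x Lam ω ^ 2 ≤
      ∑ ω ∈ Ω, ∑ k, (∑ α, yk lam q a B B1 k α * (Lam (insert k (act α)) ω * vl x α ω)) ^ 2 := by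
    calc _ ≤ ∑ ω ∈ Ω.filter (fun ω => ∃ k, (∀ i, x i k ω = 1 / q i) ∧
          ∀ A, Lam (insert k A) ω = Lam A ω),
          ∑ k, (∑ α, yk lam q a B B1 k α * (Lam (insert k (act α)) ω * vl x α ω)) ^ 2 := by
          apply Finset.sum_le_sum
          intro ω hω
          obtain ⟨k, hk1, hk2⟩ := (mem_filter.1 hω).2
          rw [G_eq_HD (q := q) hl x Lam k ω hk1 hk2]
          exact Finset.single_le_sum
            (f := fun k => (∑ α, yk lam q a B B1 k α *
              (Lam (insert k (act α)) ω * vl x α ω)) ^ 2) (fun k _ => sq_nonneg _) (mem_univ k)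
      _ ≤ _ := by
          apply Finset.sum_le_sum_of_subset_of_nonneg (filter_subset _ _)
          intro ω _ _
          exact Finset.sum_nonneg fun k _ => sq_nonneg _
  have hcmp2 : (∑ ω ∈ Ω.filter (fun ω => ∃ k, (∀ i, x i k ω = 1 / q i) ∧
      ∀ A, Lam (insert k A) ω = Lam A ω), GD lam a B B1 x Lam ω ^ 2) / M ≤
      ∑ k, (∑ ω ∈ Ω, (∑ α, yk lam q a B B1 k α *
        (Lam (insert k (act α)) ω * vl x α ω)) ^ 2) / M := by
    rw [← Finset.sum_div, Finset.sum_comm]
    exact div_le_div_of_nonneg_right hcmp hM.le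
  have hcmp3 : ∑ k, (∑ ω ∈ Ω, (∑ α, yk lam q a B B1 k α *
        (Lam (insert k (act α)) ω * vl x α ω)) ^ 2) / M ≤
      (Fintype.card κ : ℝ) * (2 * V1 * ((δ ^ 2 + τ) * Z) + ε3 * Z + e) := by
    calc _ ≤ ∑ k : κ, (2 * V1 * ((δ ^ 2 + τ) * Z) + ε3 * Z + e) :=
          Finset.sum_le_sum fun k _ => hH k
      _ = _ := by rw [Finset.sum_const, Finset.card_univ, nsmul_eq_mul]
  rw [← hZ, ← hτ, ← he, ← hε3]
  refine le_trans ?_ (hcmp2.trans hcmp3)
  apply le_of_eq
  congr!

end

end IP
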