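import Pool.Agent.IP.StmtsR

set_option autoImplicit false

/-!
# PAR: choice of the parameters
-/

namespace IP

noncomputable section

theorem t_PAR : S_PAR := by
  intro C₀ c e C' hC₀ hc he hC'
  obtain ⟨a, ha⟩ : ∃ a, a = |1 + Real.log C'| := ⟨_, rfl⟩
  have ha0 : 0 ≤ a := by rw [ha]; exact abs_nonneg _
  have ha1 : 1 + Real.log C' ≤ a := by rw [ha]; exact le_abs_self _
  obtain ⟨I, hI⟩ : ∃ I : ℕ, I = ⌈(8 * C₀ / e + 2) / c⌉₊ + 1 := ⟨_, rfl⟩
  obtain ⟨s, hs⟩ : ∃ s : ℝ, s = 1 + 1 / e + 2 ^ I * (8 / 3 * (a + 2)) / e := ⟨_, rfl⟩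
  have h2I : (0 : ℝ) < 2 ^ I := by positivity
  have hK : 0 ≤ 2 ^ I * (8 / 3 * (a + 2)) / e := by positivity
  have h1e : 0 < 1 / e := by positivity
  have hs1 : 1 ≤ s := by rw [hs]; linarith
  have hs2 : 1 / e ≤ s := by rw [hs]; linarith
  have hs3 : 2 ^ I * (8 / 3 * (a + 2)) / e ≤ s := by rw [hs]; linarith
  have hs0 : 0 < s := by linarith
  have hexp : s ^ 2 / 2 ≤ Real.exp s := by
    have := Real.quadratic_le_exp_of_nonneg hs0.le
    linarith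
  have hexp2 : s ≤ Real.exp s := by
    have := Real.add_one_le_exp s
    linarith
  have hη2 : Real.exp (-s) ≤ 2 / s ^ 2 := by
    rw [Real.exp_neg, inv_le_comm₀ (Real.exp_pos s) (by positivity)]
    have : (2 / s ^ 2)⁻¹ = s ^ 2 / 2 := by rw [inv_div]
    rw [this]
    exact hexp
  refine ⟨Real.exp (-s), 4 / 3 * (a + 2 * s), I, Real.exp_pos _, ?_, ?_, ?_, ?_, ?_, ?_⟩
  · rw [Real.exp_neg]
    have h1 : (Real.exp s)⁻¹ ≤ s⁻¹ := inv_anti₀ hs0 hexp2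
    have h2 : s⁻¹ ≤ (1 / e)⁻¹ := inv_anti₀ h1e hs2
    have h3 : (1 / e)⁻¹ = e := by rw [one_div, inv_inv]
    linarith
  · linarith
  · have h1 : 4 / 3 * (a + 2 * s) ≤ 4 / 3 * (a + 2) * s := by
      have h2 : 0 ≤ a * (s - 1) := mul_nonneg ha0 (by linarith)
      have h3 : 4 / 3 * (a + 2) * s = 4 / 3 * (a + 2 * s) + 4 / 3 * (a * (s - 1)) := by ring
      linarith
    have h4 : Real.exp (-s) * (4 / 3 * (a + 2 * s)) ≤ 2 / s ^ 2 * (4 / 3 * (a + 2) * s) :=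
      mul_le_mul hη2 h1 (by positivity) (by positivity)
    have h5 : 2 / s ^ 2 * (4 / 3 * (a + 2) * s) = 8 / 3 * (a + 2) / s := by
      field_simp
      ring
    rw [h5] at h4
    have h6 : 2 ^ I * (Real.exp (-s) * (4 / 3 * (a + 2 * s))) ≤
        2 ^ I * (8 / 3 * (a + 2) / s) := mul_le_mul_of_nonneg_left h4 h2I.le
    refine h6.trans ?_
    rw [← mul_div_assoc, div_le_iff₀ hs0]
    rw [div_le_iff₀ he] at hs3
    linarith
  · have h1 : (8 * C₀ / e + 2) / c ≤ ⌈(8 * C₀ / e + 2) / c⌉₊ := Nat.le_ceil _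
    rw [div_le_iff₀ hc] at h1
    rw [hI]
    push_cast
    have h2 : c * ((⌈(8 * C₀ / e + 2) / c⌉₊ : ℝ) + 1) = ⌈(8 * C₀ / e + 2) / c⌉₊ * c + c := by ring
    rw [h2]
    linarith
  · have h1 : Real.exp (-s) ^ 2 / C' = Real.exp (-2 * s - Real.log C') := by
      rw [Real.exp_sub, Real.exp_log hC', ← Real.exp_nat_mul]
      congr 2
      push_cast
      ring
    rw [h1]
    apply Real.exp_le_exp.2
    linarith
  · omega

end

end IP
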