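import Mathlib
import Pool.Agent.IP.StmtsR
import Pool.Agent.Lib_helper9.LG.VSLd

set_option autoImplicit false

/-!
VSH: lower bound for the densities of the integers without hits at `j` sites.
-/

namespace IP

open Finset Pool.Agent.Lib_helper9.LG

theorem VSH.sub {m : ℕ} {L z : ℝ} (hL : 1 ≤ L) : SPH m L z ⊆ SPr m L z := by
  intro p hp
  unfold SPH at hp
  unfold SPr
  rw [mem_filter] at hp ⊢
  refine ⟨hp.1, hp.2.1, lt_of_le_of_lt ?_ hp.2.2.1, hp.2.2.2⟩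
  exact pow_le_pow_right₀ hL (by norm_num)

theorem VSH.fac {m : ℕ} {L z : ℝ} (hL : 1 ≤ L) {J j : ℕ} (hJ : (J : ℝ) ≤ L) (hj : j ≤ J) {p : ℕ}
    (hp : p ∈ SPr m L z) : 0 ≤ 1 - (j : ℝ) / p ∧ 1 - (j : ℝ) / p ≤ 1 := by
  unfold SPr at hp
  rw [mem_filter] at hp
  have h1 : L ≤ L ^ 4 := le_self_pow₀ hL (by norm_num)
  have h2 : (j : ℝ) ≤ J := by exact_mod_cast hj
  have h3 : (j : ℝ) ≤ p := by linarith [hp.2.2.1]
  have h4 : (0 : ℝ) < p := by linarith [hp.2.2.1]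
  have h5 : (j : ℝ) / p ≤ 1 := (div_le_one h4).2 h3
  have h6 : 0 ≤ (j : ℝ) / p := by positivity
  constructor <;> linarith

theorem t_VSH : S_VSH := by
  intro η hη J
  obtain ⟨L₀, h⟩ := Pool.Agent.Lib_helper9.LG.VSLd.vsl η hη J
  refine ⟨max (max L₀ 1) J, fun L hL m hm j hj => ?_⟩
  have hL0 : L₀ ≤ L := le_trans (le_trans (le_max_left _ _) (le_max_left _ _)) hL
  have hL1 : 1 ≤ L := le_trans (le_trans (le_max_right _ _) (le_max_left _ _)) hL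
  have hLJ : (J : ℝ) ≤ L := le_trans (le_max_right _ _) hL
  refine (h L hL0 m hm j hj).trans ?_
  have hsub := VSH.sub (m := m) (z := Real.exp (η * L)) hL1
  unfold VS
  rw [← Finset.prod_sdiff hsub]
  have h1 : ∏ l ∈ SPr m L (Real.exp (η * L)) \ SPH m L (Real.exp (η * L)), (1 - (j : ℝ) / l) ≤ 1 :=
    Finset.prod_le_one (fun p hp => (VSH.fac hL1 hLJ hj (mem_sdiff.1 hp).1).1)
      (fun p hp => (VSH.fac hL1 hLJ hj (mem_sdiff.1 hp).1).2)
  have h2 : 0 ≤ ∏ l ∈ SPH m L (Real.exp (η * L)), (1 - (j : ℝ) / l) :=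
    Finset.prod_nonneg fun p hp => (VSH.fac hL1 hLJ hj (hsub hp)).1
  exact mul_le_of_le_one_left h2 h1

end IP
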