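import Pool.Agent.IP.StmtsR
import Pool.Agent.Lib_helper72.AS.Upper1
import Pool.Agent.Lib_helper9.LG.KVBd

set_option autoImplicit false

/-!
The number of surviving sites, on average over the classes of the prime site.
-/

namespace IP

open Finset Pool.Agent.Lib_helper9.LG Pool.Agent.Lib_helper72.AS

noncomputable section

namespace KAV

/-- The residues `u` with `u + s` and `u + t` invertible. -/
abbrev TZ (W s t : ℕ) : Type := {u : ZMod W // IsUnit (u + (s : ZMod W)) ∧ IsUnit (u + (t : ZMod W))}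

lemma card_mul {a b : ℕ} (h : a.Coprime b) (s t : ℕ) :
    Nat.card (TZ (a * b) s t) = Nat.card (TZ a s t) * Nat.card (TZ b s t) := by
  have e : TZ (a * b) s t ≃ TZ a s t × TZ b s t :=
    (Equiv.subtypeEquiv (q := fun x : ZMod a × ZMod b =>
      (IsUnit (x.1 + (s : ZMod a)) ∧ IsUnit (x.1 + (t : ZMod a))) ∧
      (IsUnit (x.2 + (s : ZMod b)) ∧ IsUnit (x.2 + (t : ZMod b))))
      (ZMod.chineseRemainder h).toEquiv (by
        intro u
        have h1 : ∀ r : ℕ, IsUnit (u + (r : ZMod (a * b))) ↔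
            IsUnit (((ZMod.chineseRemainder h) u).1 + (r : ZMod a)) ∧
            IsUnit (((ZMod.chineseRemainder h) u).2 + (r : ZMod b)) := by
          intro r
          rw [← MulEquiv.isUnit_map (ZMod.chineseRemainder h), map_add, map_natCast,
            Prod.isUnit_iff]
          rfl
        rw [h1, h1]
        constructor
        · rintro ⟨⟨h2, h3⟩, h4, h5⟩
          exact ⟨⟨h2, h4⟩, h3, h5⟩
        · rintro ⟨⟨h2, h4⟩, h3, h5⟩
          exact ⟨⟨h2, h3⟩, h4, h5⟩)).trans (Equiv.subtypeProdEquivProd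
      (p := fun x : ZMod a => IsUnit (x + (s : ZMod a)) ∧ IsUnit (x + (t : ZMod a)))
      (q := fun x : ZMod b => IsUnit (x + (s : ZMod b)) ∧ IsUnit (x + (t : ZMod b))))
  rw [Nat.card_congr e, Nat.card_prod]

lemma card_one (s t : ℕ) : Nat.card (TZ 1 s t) = 1 := by
  have : Subsingleton (ZMod 1) := inferInstance
  rw [Nat.card_eq_one_iff_unique]
  refine ⟨inferInstance, ⟨⟨0, ?_, ?_⟩⟩⟩ <;>
  · rw [isUnit_iff_exists_inv]
    exact ⟨0, Subsingleton.elim _ _⟩

lemma card_prime_le {p : ℕ} (hp : p.Prime) (s t : ℕ) :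
    (Nat.card (TZ p s t) : ℝ) ≤ ((p : ℝ) - 1) ^ 2 / p *
      (if (s : ZMod p) = (t : ZMod p) then (p : ℝ) / (p - 1) else 1) := by
  classical
  have : Fact p.Prime := ⟨hp⟩
  have hp2 : (2 : ℝ) ≤ p := by exact_mod_cast hp.two_le
  have h1 : Nat.card (TZ p s t) + ({-(s : ZMod p), -(t : ZMod p)} : Finset (ZMod p)).card = p := by
    have h2 : Nat.card (TZ p s t) =
        ((univ : Finset (ZMod p)) \ {-(s : ZMod p), -(t : ZMod p)}).card := by
      rw [Nat.card_eq_fintype_card, Fintype.card_subtype]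
      congr 1
      ext u
      rw [mem_filter, mem_sdiff, mem_insert, mem_singleton, isUnit_iff_ne_zero, isUnit_iff_ne_zero,
        not_or, ← add_eq_zero_iff_eq_neg, ← add_eq_zero_iff_eq_neg]
    rw [h2, card_sdiff_of_subset (subset_univ _), card_univ, ZMod.card]
    have h3 := card_le_univ ({-(s : ZMod p), -(t : ZMod p)} : Finset (ZMod p))
    rw [ZMod.card] at h3
    omega
  split_ifs with h
  · have h2 : ({-(s : ZMod p), -(t : ZMod p)} : Finset (ZMod p)).card = 1 := by
      rw [h]
      simp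
    rw [h2] at h1
    have h3 : (Nat.card (TZ p s t) : ℝ) = p - 1 := by
      have : ((Nat.card (TZ p s t) + 1 : ℕ) : ℝ) = p := by exact_mod_cast h1
      push_cast at this
      linarith
    rw [h3]
    apply le_of_eq
    have h4 : (p : ℝ) - 1 ≠ 0 := by linarith
    field_simp
  · have h2 : ({-(s : ZMod p), -(t : ZMod p)} : Finset (ZMod p)).card = 2 := by
      rw [card_pair]
      intro h'
      exact h (neg_injective h')
    rw [h2] at h1
    have h3 : (Nat.card (TZ p s t) : ℝ) = p - 2 := by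
      have : ((Nat.card (TZ p s t) + 2 : ℕ) : ℝ) = p := by exact_mod_cast h1
      push_cast at this
      linarith
    rw [h3, mul_one, le_div_iff₀ (by linarith)]
    nlinarith

lemma card_prod_le (S : Finset ℕ) (hS : ∀ p ∈ S, p.Prime) (s t : ℕ) :
    (Nat.card (TZ (∏ p ∈ S, p) s t) : ℝ) ≤ ∏ p ∈ S, (((p : ℝ) - 1) ^ 2 / p *
      (if (s : ZMod p) = (t : ZMod p) then (p : ℝ) / (p - 1) else 1)) := by
  classical
  induction S using Finset.induction_on with
  | empty =>
    rw [prod_empty, prod_empty, card_one]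
    simp
  | insert p S hp ih =>
    rw [prod_insert hp, prod_insert hp, card_mul, Nat.cast_mul]
    · apply mul_le_mul (card_prime_le (hS p (mem_insert_self _ _)) s t)
        (ih fun q hq => hS q (mem_insert_of_mem hq)) (Nat.cast_nonneg _)
      exact (Nat.cast_nonneg _).trans (card_prime_le (hS p (mem_insert_self _ _)) s t)
    · apply Nat.Coprime.prod_right
      intro q hq
      rw [Nat.coprime_primes (hS p (mem_insert_self _ _)) (hS q (mem_insert_of_mem hq))]
      rintro rfl
      exact hp hq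

lemma card_range (W s t : ℕ) (hW : 1 ≤ W) :
    ((range W).filter (fun b => (b + s).Coprime W ∧ (b + t).Coprime W)).card =
      Nat.card (TZ W s t) := by
  classical
  have : NeZero W := ⟨by omega⟩
  rw [Nat.card_eq_fintype_card, Fintype.card_subtype]
  apply Finset.card_bij (fun (b : ℕ) _ => (b : ZMod W))
  · intro b hb
    rw [mem_filter] at hb
    rw [mem_filter, ← Nat.cast_add, ← Nat.cast_add, ZMod.isUnit_iff_coprime,
      ZMod.isUnit_iff_coprime]
    exact ⟨mem_univ _, hb.2⟩
  · intro b hb b' hb' h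
    rw [mem_filter, mem_range] at hb hb'
    have h1 := (ZMod.natCast_eq_natCast_iff' b b' W).mp h
    rwa [Nat.mod_eq_of_lt hb.1, Nat.mod_eq_of_lt hb'.1] at h1
  · intro u hu
    refine ⟨u.val, ?_, ZMod.natCast_zmod_val u⟩
    rw [mem_filter] at hu
    rw [mem_filter, mem_range]
    refine ⟨ZMod.val_lt u, ?_⟩
    rw [← ZMod.isUnit_iff_coprime, ← ZMod.isUnit_iff_coprime, Nat.cast_add, Nat.cast_add,
      ZMod.natCast_zmod_val]
    exact hu.2

/-- The factor at the common primes. -/
def gf (h : ℕ) : ℝ := ∏ p ∈ h.primeFactors, ((p : ℝ) / (p - 1))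

lemma one_le_fac {p : ℕ} (hp : p.Prime) : 1 ≤ (p : ℝ) / (p - 1) := by
  have hp2 : (2 : ℝ) ≤ p := by exact_mod_cast hp.two_le
  rw [le_div_iff₀ (by linarith)]
  linarith

lemma prod_sub_le {S T : Finset ℕ} {f : ℕ → ℝ} (hST : S ⊆ T) (h : ∀ p ∈ T, 1 ≤ f p) :
    ∏ p ∈ S, f p ≤ ∏ p ∈ T, f p := by
  classical
  rw [← prod_sdiff hST]
  have h1 : 1 ≤ ∏ p ∈ T \ S, f p := by
    have := prod_le_prod (s := T \ S) (f := fun _ => (1 : ℝ)) (g := f)
      (fun _ _ => zero_le_one) (fun p hp => h p (mem_sdiff.mp hp).1)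
    simpa using this
  have h2 : 0 ≤ ∏ p ∈ S, f p := prod_nonneg fun p hp => zero_le_one.trans (h p (hST hp))
  nlinarith

lemma card_le {m W i k : ℕ} (hW : 1 ≤ W) (hsq : Squarefree W) (hWm : W.Coprime m) {h : ℕ}
    (h0 : h ≠ 0) (hk : k = i + h ∨ i = k + h) :
    (((range W).filter (fun b => (b + i * m).Coprime W ∧ (b + k * m).Coprime W)).card : ℝ) ≤
      W.totient * ((W.totient : ℝ) / W) * gf h := by
  classical
  have hWr : (0 : ℝ) < W := by exact_mod_cast hW
  rw [card_range W (i * m) (k * m) hW]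
  have h1 := card_prod_le W.primeFactors (fun p hp => Nat.prime_of_mem_primeFactors hp)
    (i * m) (k * m)
  rw [Nat.prod_primeFactors_of_squarefree hsq] at h1
  refine h1.trans ?_
  rw [prod_mul_distrib]
  have h2 : ∏ p ∈ W.primeFactors, (((p : ℝ) - 1) ^ 2 / p) =
      W.totient * ((W.totient : ℝ) / W) := by
    have h3 := KVBd.tot W (by omega)
    have h4 : (W.totient : ℝ) * ((W.totient : ℝ) / W) =
        W * (∏ p ∈ W.primeFactors, KVBd.ff p) * (∏ p ∈ W.primeFactors, KVBd.ff p) := by
      rw [← h3]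
      field_simp
    have h5 : (W : ℝ) = ∏ p ∈ W.primeFactors, (p : ℝ) := by
      rw [← Nat.cast_prod, Nat.prod_primeFactors_of_squarefree hsq]
    rw [h4]
    conv_rhs => rw [h5]
    rw [← prod_mul_distrib, ← prod_mul_distrib]
    apply prod_congr rfl
    intro p hp
    have hp2 : (2 : ℝ) ≤ p := by
      exact_mod_cast (Nat.prime_of_mem_primeFactors hp).two_le
    unfold KVBd.ff
    have : (p : ℝ) ≠ 0 := by linarith
    field_simp
  rw [h2]
  apply mul_le_mul_of_nonneg_left _ (by positivity)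
  rw [← prod_filter, gf]
  apply prod_sub_le
  · intro p hp
    rw [mem_filter] at hp
    have hpp := Nat.prime_of_mem_primeFactors hp.1
    rw [Nat.mem_primeFactors]
    refine ⟨hpp, ?_, h0⟩
    have h3 := (ZMod.natCast_eq_natCast_iff _ _ _).mp hp.2
    have h4 : ¬ p ∣ m := by
      intro h5
      have h6 : p ∣ W := Nat.dvd_of_mem_primeFactors hp.1
      have h7 := Nat.dvd_gcd h6 h5
      rw [hWm] at h7
      exact hpp.one_lt.ne' (Nat.dvd_one.mp h7)
    have h5 : p ∣ h * m := by
      rcases hk with hk | hk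
      · rw [hk, add_mul] at h3
        have h6 : 0 ≡ h * m [MOD p] := by
          have : i * m + 0 ≡ i * m + h * m [MOD p] := h3
          exact Nat.ModEq.add_left_cancel' _ this
        exact (Nat.modEq_zero_iff_dvd.mp h6.symm)
      · rw [hk, add_mul] at h3
        have h6 : 0 ≡ h * m [MOD p] := by
          have : k * m + 0 ≡ k * m + h * m [MOD p] := h3.symm
          exact Nat.ModEq.add_left_cancel' _ this
        exact (Nat.modEq_zero_iff_dvd.mp h6.symm)
    exact (hpp.dvd_mul.mp h5).resolve_right h4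
  · intro p hp
    exact one_le_fac (Nat.prime_of_mem_primeFactors hp)

lemma gf_eq {h : ℕ} (hh : 0 < h) : gf h = (h : ℝ) / h.totient := by
  have h1 := KVBd.tot h (by omega)
  have h2 : gf h = (∏ p ∈ h.primeFactors, KVBd.ff p)⁻¹ := by
    rw [gf, ← prod_inv_distrib]
    apply prod_congr rfl
    intro p hp
    have hp2 : (2 : ℝ) ≤ p := by
      exact_mod_cast (Nat.prime_of_mem_primeFactors hp).two_le
    unfold KVBd.ff
    have h3 : (p : ℝ) ≠ 0 := by linarith
    have h4 : (p : ℝ) - 1 ≠ 0 := by linarith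
    field_simp
  rw [h2, ← h1, inv_div]

lemma sum_gf_le (K : ℕ) : ∑ h ∈ Icc 1 K, gf h ≤ 4 * K := by
  classical
  have h1 : ∀ h ∈ Icc 1 K, gf h ≤
      ∑ e ∈ Icc 1 K, if e ∣ h then (e.divisors.card : ℝ) / e else 0 := by
    intro h hh
    rw [mem_Icc] at hh
    rw [gf_eq (by omega), ← Finset.sum_filter]
    refine (ratio_le (k := h) (by omega)).trans (le_of_eq ?_)
    apply Finset.sum_congr _ (fun _ _ => rfl)
    ext e
    simp only [Nat.mem_divisors, mem_filter, mem_Icc]
    constructor
    · rintro ⟨h1, h2⟩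
      have := Nat.le_of_dvd (by omega) h1
      exact ⟨⟨Nat.pos_of_ne_zero (ne_zero_of_dvd_ne_zero h2 h1), by omega⟩, h1⟩
    · rintro ⟨_, h2⟩
      exact ⟨h2, by omega⟩
  refine (Finset.sum_le_sum h1).trans ?_
  rw [Finset.sum_comm]
  calc ∑ e ∈ Icc 1 K, ∑ h ∈ Icc 1 K, (if e ∣ h then (e.divisors.card : ℝ) / e else 0)
      ≤ ∑ e ∈ Icc 1 K, (K : ℝ) * ((e.divisors.card : ℝ) / (e : ℝ) ^ 2) := by
        apply Finset.sum_le_sum
        intro e he
        rw [mem_Icc] at he
        have he' : (0 : ℝ) < e := by exact_mod_cast he.1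
        rw [← Finset.sum_filter, Finset.sum_const, nsmul_eq_mul]
        have h3 : ((Icc 1 K).filter (fun h => e ∣ h)).card = K / e := by
          have := Nat.Ioc_filter_dvd_card_eq_div K e
          rw [← this]
          congr 1
        rw [h3]
        have h4 : ((K / e : ℕ) : ℝ) ≤ K / e := Nat.cast_div_le
        calc ((K / e : ℕ) : ℝ) * ((e.divisors.card : ℝ) / e) ≤
              (K / e) * ((e.divisors.card : ℝ) / e) := by gcongr
          _ = (K : ℝ) * ((e.divisors.card : ℝ) / (e : ℝ) ^ 2) := by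
            field_simp
    _ = K * ∑ e ∈ Icc 1 K, ((e.divisors.card : ℝ) / (e : ℝ) ^ 2) := by rw [Finset.mul_sum]
    _ ≤ K * 4 := by
        have := sum_divisors_div_sq_le K
        gcongr
    _ = 4 * K := by ring

lemma gf_nonneg (h : ℕ) : 0 ≤ gf h := by
  rw [gf]
  exact prod_nonneg fun p hp => zero_le_one.trans (one_le_fac (Nat.prime_of_mem_primeFactors hp))

/-- The distance of two sites. -/
def ds (i k : ℕ) : ℕ := (k - i) + (i - k)

lemma sum_ds_le {i H : ℕ} (hi : i ≤ H) :
    ∑ k ∈ (range (H + 1)).filter (fun k => k ≠ i), gf (ds i k) ≤ 8 * H := by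
  classical
  have h1 : (range (H + 1)).filter (fun k => k ≠ i) ⊆
      (Icc 1 H).image (fun h => i + h) ∪ ((Icc 1 i).image (fun h => i - h)) := by
    intro k hk
    rw [mem_filter, mem_range] at hk
    rw [mem_union, mem_image, mem_image]
    rcases lt_or_gt_of_ne hk.2 with h | h
    · right
      exact ⟨i - k, by rw [mem_Icc]; omega, by omega⟩
    · left
      exact ⟨k - i, by rw [mem_Icc]; omega, by omega⟩
  refine (sum_le_sum_of_subset_of_nonneg h1 fun _ _ _ => gf_nonneg _).trans ?_
  have h2 : ∑ k ∈ (Icc 1 H).image (fun h => i + h), gf (ds i k) = ∑ h ∈ Icc 1 H, gf h := by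
    rw [sum_image]
    · apply sum_congr rfl
      intro h hh
      rw [mem_Icc] at hh
      congr 1
      unfold ds
      omega
    · intro a _ b _ hab
      have : i + a = i + b := hab
      omega
  have h3 : ∑ k ∈ (Icc 1 i).image (fun h => i - h), gf (ds i k) = ∑ h ∈ Icc 1 i, gf h := by
    rw [sum_image]
    · apply sum_congr rfl
      intro h hh
      rw [mem_Icc] at hh
      congr 1
      unfold ds
      omega
    · intro a ha b hb hab
      rw [mem_coe, mem_Icc] at ha hb
      have : i - a = i - b := hab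
      omega
  have h4 := sum_union_inter (s₁ := (Icc 1 H).image (fun h => i + h))
    (s₂ := (Icc 1 i).image (fun h => i - h)) (f := fun k => gf (ds i k))
  have h5 : 0 ≤ ∑ k ∈ (Icc 1 H).image (fun h => i + h) ∩ ((Icc 1 i).image (fun h => i - h)),
      gf (ds i k) := sum_nonneg fun _ _ => gf_nonneg _
  have h6 := sum_gf_le H
  have h7 := sum_gf_le i
  have h8 : (i : ℝ) ≤ H := by exact_mod_cast hi
  rw [h2, h3] at h4
  linarith

end KAV

open KAV in
theorem t_KAV : S_KAV := by
  classical
  refine ⟨8, by norm_num, ?_⟩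
  intro m W i H hm hW hsq hWm hi
  have hWr : (0 : ℝ) < W := by exact_mod_cast hW
  have h1 : ∑ b ∈ (range W).filter (fun b => (b + i * m).Coprime W), ((KK m W b i H).card : ℝ) =
      ∑ k ∈ (range (H + 1)).filter (fun k => k ≠ i),
        (((range W).filter (fun b => (b + i * m).Coprime W ∧ (b + k * m).Coprime W)).card : ℝ) := by
    have e1 : ∀ b, ((KK m W b i H).card : ℝ) = ∑ k ∈ (range (H + 1)).filter (fun k => k ≠ i),
        if (b + k * m).Coprime W then (1 : ℝ) else 0 := by
      intro b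
      rw [KK, ← sum_filter, filter_filter, sum_const, nsmul_eq_mul, mul_one]
    simp only [e1]
    rw [sum_comm]
    apply sum_congr rfl
    intro k _
    rw [← sum_filter, filter_filter, sum_const, nsmul_eq_mul, mul_one]
  rw [h1]
  calc ∑ k ∈ (range (H + 1)).filter (fun k => k ≠ i),
        (((range W).filter (fun b => (b + i * m).Coprime W ∧ (b + k * m).Coprime W)).card : ℝ)
      ≤ ∑ k ∈ (range (H + 1)).filter (fun k => k ≠ i),
        (W.totient * ((W.totient : ℝ) / W) * gf (ds i k)) := by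
        apply sum_le_sum
        intro k hk
        rw [mem_filter] at hk
        have h2 := hk.2
        exact card_le hW hsq hWm (h := ds i k) (by unfold ds; omega) (by unfold ds; omega)
    _ = W.totient * ((W.totient : ℝ) / W) *
        ∑ k ∈ (range (H + 1)).filter (fun k => k ≠ i), gf (ds i k) := by rw [mul_sum]
    _ ≤ W.totient * ((W.totient : ℝ) / W) * (8 * (H + 1)) := by
        apply mul_le_mul_of_nonneg_left _ (by positivity)
        have := sum_ds_le hi
        linarith
    _ = 8 * (W.totient * ((W.totient : ℝ) / W) * (H + 1)) := by ring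

end

end IP
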