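import Pool.Agent.IP.StmtsR

set_option autoImplicit false

/-!
# Project IP, module TOT: `(phi(m) / m) log m` tends to infinity

Elementary proof: the odd primes `p_1 < p_2 < ...` dividing `m` satisfy `p_i ≥ 2 i + 1`, hence the
square of the product of the `1 - 1 / p_i` is at least `1 / (2 k + 1)`, `k` their number, and
`2 ^ k ≤ m`.
-/

namespace IP

open Finset

noncomputable section

namespace TOT

lemma odd_prod (S : Finset ℕ) (hS : ∀ p ∈ S, 3 ≤ p ∧ p % 2 = 1) :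
    1 ≤ (∏ p ∈ S, (1 - ((p : ℕ) : ℝ)⁻¹)) ^ 2 * (2 * (S.card : ℝ) + 1) := by
  induction S using Finset.induction_on_max with
  | empty => simp
  | insert a S ha ih =>
    have hS' : ∀ p ∈ S, 3 ≤ p ∧ p % 2 = 1 := fun p hp => hS p (Finset.mem_insert_of_mem hp)
    have hih := ih hS'
    have ha1 := hS a (Finset.mem_insert_self _ _)
    have hnot : a ∉ S := fun h => lt_irrefl _ (ha a h)
    have hcard : S.card ≤ (a - 3) / 2 := by
      have h1 : S.card ≤ (range ((a - 3) / 2)).card := by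
        apply Finset.card_le_card_of_injOn (fun x => (x - 3) / 2)
        · intro x hx
          have h2 := hS' x hx
          have h3 := ha x hx
          simp only [Finset.coe_range, Set.mem_Iio]
          omega
        · intro x hx y hy hxy
          have h2 := hS' x hx
          have h3 := hS' y hy
          simp only at hxy
          omega
      rwa [Finset.card_range] at h1
    have hak : 2 * S.card + 3 ≤ a := by omega
    rw [Finset.prod_insert hnot, Finset.card_insert_of_notMem hnot]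
    set k : ℝ := (S.card : ℝ) with hk
    have hk0 : 0 ≤ k := Nat.cast_nonneg _
    have hak' : 2 * k + 3 ≤ (a : ℝ) := by
      have : ((2 * S.card + 3 : ℕ) : ℝ) ≤ (a : ℝ) := by exact_mod_cast hak
      push_cast at this
      exact this
    have ha0 : (0 : ℝ) < a := by linarith
    have h1 : (2 * k + 2) / (2 * k + 3) ≤ 1 - ((a : ℕ) : ℝ)⁻¹ := by
      have h2 : ((a : ℕ) : ℝ)⁻¹ ≤ (2 * k + 3)⁻¹ := inv_anti₀ (by linarith) hak'
      have h3 : (2 * k + 2) / (2 * k + 3) = 1 - (2 * k + 3)⁻¹ := by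
        field_simp
        ring
      rw [h3]
      linarith
    have h2 : ((2 * k + 2) / (2 * k + 3)) ^ 2 ≤ (1 - ((a : ℕ) : ℝ)⁻¹) ^ 2 :=
      pow_le_pow_left₀ (by positivity) h1 2
    set Q : ℝ := ∏ p ∈ S, (1 - ((p : ℕ) : ℝ)⁻¹) with hQ
    have hQ0 : 0 ≤ Q ^ 2 := sq_nonneg _
    push_cast
    have h4 : (2 * k + 1) ≤ ((2 * k + 2) / (2 * k + 3)) ^ 2 * (2 * (k + 1) + 1) := by
      rw [div_pow, div_mul_eq_mul_div, le_div_iff₀ (by positivity)]
      nlinarith
    calc (1 : ℝ) ≤ Q ^ 2 * (2 * k + 1) := hih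
      _ ≤ Q ^ 2 * (((2 * k + 2) / (2 * k + 3)) ^ 2 * (2 * (k + 1) + 1)) :=
          mul_le_mul_of_nonneg_left h4 hQ0
      _ ≤ Q ^ 2 * ((1 - ((a : ℕ) : ℝ)⁻¹) ^ 2 * (2 * (k + 1) + 1)) := by
          apply mul_le_mul_of_nonneg_left _ hQ0
          exact mul_le_mul_of_nonneg_right h2 (by positivity)
      _ = ((1 - ((a : ℕ) : ℝ)⁻¹) * Q) ^ 2 * (2 * (k + 1) + 1) := by ring

lemma two_pow (m : ℕ) (hm : 0 < m) : 2 ^ m.primeFactors.card ≤ m := by
  have h1 : 2 ^ m.primeFactors.card ≤ ∏ p ∈ m.primeFactors, p := by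
    apply Finset.pow_card_le_prod
    intro p hp
    exact (Nat.prime_of_mem_primeFactors hp).two_le
  exact h1.trans (Nat.le_of_dvd hm (Nat.prod_primeFactors_dvd m))

lemma tot_sq (m : ℕ) (hm : 0 < m) :
    1 ≤ 4 * ((m.totient : ℝ) / m) ^ 2 * (2 * (m.primeFactors.card : ℝ) + 1) := by
  have hm0 : (m : ℝ) ≠ 0 := by exact_mod_cast hm.ne'
  have h1 : ((m.totient : ℝ) / m) = ∏ p ∈ m.primeFactors, (1 - ((p : ℕ) : ℝ)⁻¹) := by
    have h2 := Nat.totient_eq_mul_prod_factors m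
    have h3 : (m.totient : ℝ) = (m : ℝ) * ∏ p ∈ m.primeFactors, (1 - ((p : ℕ) : ℝ)⁻¹) := by
      have h4 := congrArg (fun x : ℚ => (x : ℝ)) h2
      push_cast at h4
      exact h4
    rw [h3, mul_comm, mul_div_cancel_right₀ _ hm0]
  set S := m.primeFactors.erase 2 with hS
  have hodd := odd_prod S (by
    intro p hp
    rw [hS, Finset.mem_erase] at hp
    have h2 := Nat.prime_of_mem_primeFactors hp.2
    have h3 := h2.two_le
    rcases h2.eq_two_or_odd with h4 | h4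
    · exact absurd h4 hp.1
    · have h5 := hp.1
      omega)
  have hQ0 : 0 ≤ ∏ p ∈ S, (1 - ((p : ℕ) : ℝ)⁻¹) := by
    apply Finset.prod_nonneg
    intro p hp
    rw [hS, Finset.mem_erase] at hp
    have h2 := (Nat.prime_of_mem_primeFactors hp.2).one_lt
    have h3 : (1 : ℝ) ≤ (p : ℝ) := by exact_mod_cast h2.le
    have h4 : ((p : ℕ) : ℝ)⁻¹ ≤ 1 := inv_le_one_of_one_le₀ h3
    linarith
  have hQ : (1 / 2 : ℝ) * ∏ p ∈ S, (1 - ((p : ℕ) : ℝ)⁻¹) ≤
      ∏ p ∈ m.primeFactors, (1 - ((p : ℕ) : ℝ)⁻¹) := by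
    by_cases h2 : 2 ∈ m.primeFactors
    · rw [hS, ← Finset.mul_prod_erase m.primeFactors _ h2]
      apply le_of_eq
      norm_num
    · have h3 : S = m.primeFactors := by
        rw [hS]
        exact Finset.erase_eq_of_notMem h2
      rw [← h3]
      linarith
  have hcard : (S.card : ℝ) ≤ (m.primeFactors.card : ℝ) := by
    have h2 : S.card ≤ m.primeFactors.card := Finset.card_le_card (Finset.erase_subset _ _)
    exact_mod_cast h2
  rw [h1]
  set Q : ℝ := ∏ p ∈ S, (1 - ((p : ℕ) : ℝ)⁻¹) with hQd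
  set R : ℝ := ∏ p ∈ m.primeFactors, (1 - ((p : ℕ) : ℝ)⁻¹) with hRd
  have h5 : (1 / 2 * Q) ^ 2 ≤ R ^ 2 := pow_le_pow_left₀ (by positivity) hQ 2
  have h6 : Q ^ 2 ≤ 4 * R ^ 2 := by nlinarith
  calc (1 : ℝ) ≤ Q ^ 2 * (2 * (S.card : ℝ) + 1) := hodd
    _ ≤ 4 * R ^ 2 * (2 * (m.primeFactors.card : ℝ) + 1) := by
        apply mul_le_mul h6 (by linarith) (by positivity) (by positivity)

end TOT

theorem t_TOT : S_TOT := by
  intro A
  obtain ⟨m₀, hm₀⟩ := exists_nat_gt (Real.exp (36 * A ^ 2 + 1))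
  refine ⟨m₀, ?_⟩
  intro m hm
  have hmr : (m₀ : ℝ) ≤ (m : ℝ) := by exact_mod_cast hm
  have hexp : Real.exp (36 * A ^ 2 + 1) < (m : ℝ) := lt_of_lt_of_le hm₀ hmr
  have hm0r : (0 : ℝ) < m := (Real.exp_pos _).trans hexp
  have hm0 : 0 < m := by exact_mod_cast hm0r
  have hL : 36 * A ^ 2 + 1 < Real.log m := (Real.lt_log_iff_exp_lt hm0r).mpr hexp
  set L : ℝ := Real.log m with hLd
  have hA0 : 0 ≤ A ^ 2 := sq_nonneg A
  have hL1 : 1 ≤ L := by linarith
  have hw : (m.primeFactors.card : ℝ) ≤ 2 * L := by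
    have h1 := TOT.two_pow m hm0
    have h2 : ((2 ^ m.primeFactors.card : ℕ) : ℝ) ≤ (m : ℝ) := by exact_mod_cast h1
    push_cast at h2
    have h3 : Real.log ((2 : ℝ) ^ m.primeFactors.card) ≤ L :=
      Real.log_le_log (by positivity) h2
    rw [Real.log_pow] at h3
    have h4 : (1 / 2 : ℝ) ≤ Real.log 2 := by
      have := Real.log_two_gt_d9
      linarith
    have h5 : (m.primeFactors.card : ℝ) * (1 / 2) ≤
        (m.primeFactors.card : ℝ) * Real.log 2 :=
      mul_le_mul_of_nonneg_left h4 (Nat.cast_nonneg _)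
    linarith
  have h1 := TOT.tot_sq m hm0
  set r : ℝ := (m.totient : ℝ) / m with hr
  have hr0 : 0 ≤ r := by positivity
  have h2 : 1 ≤ 4 * r ^ 2 * (5 * L) := by
    refine h1.trans ?_
    apply mul_le_mul_of_nonneg_left _ (by positivity)
    linarith
  have h3 : A ^ 2 ≤ (r * L) ^ 2 := by
    have h4 : L ≤ 20 * (r * L) ^ 2 := by
      have h5 : L * 1 ≤ L * (4 * r ^ 2 * (5 * L)) :=
        mul_le_mul_of_nonneg_left h2 (by linarith)
      calc L = L * 1 := by ring
        _ ≤ L * (4 * r ^ 2 * (5 * L)) := h5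
        _ = 20 * (r * L) ^ 2 := by ring
    linarith
  exact le_of_sq_le_sq h3 (by positivity)

end

end IP
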