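import Mathlib
import Pool.Agent.IP.StmtsR
import Pool.Agent.IP.BLH
import Pool.Agent.IP.BT
import Pool.Agent.IP.CRL
import Pool.Agent.IP.CRU
import Pool.Agent.IP.EDP
import Pool.Agent.IP.EDQ
import Pool.Agent.IP.FIN
import Pool.Agent.IP.KAV
import Pool.Agent.IP.KVH
import Pool.Agent.IP.MOF
import Pool.Agent.IP.PAR
import Pool.Agent.IP.PSM
import Pool.Agent.IP.SEL
import Pool.Agent.IP.TOT
import Pool.Agent.IP.VSH

set_option autoImplicit false

/-!
Isolated primes in the classes of every modulus: assembly of the REST.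
-/

namespace IP

theorem rest (h : S_LPG) : S_FIN :=
  t_FIN (t_EDQ h (t_EDP t_CRL t_CRU t_MOF) t_BLH t_VSH t_KVH t_PAR)
    (t_SEL t_BT t_KAV t_TOT (t_PSM t_TOT)) t_KVH t_TOT

end IP
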