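import Mathlib
import Pool.Agent.IP.AsmR
import Pool.Agent.IPP.LEV
import Pool.Agent.IPP.AVG
import Pool.Agent.IPP.AVI
import Pool.Agent.IPP.CHI
import Pool.Agent.IPP.BOX
import Pool.Agent.IPP.TYM
import Pool.Agent.IPP.T1
import Pool.Agent.IPP.T2
import Pool.Agent.IPP.VAU
import Pool.Agent.IPP.LP
import Pool.Agent.IPP.INT
import Pool.Agent.IPP.FAC
import Pool.Agent.IPP.GLEV
import Pool.Agent.IPP.LPG

set_option autoImplicit false

/-!
Isolated primes in the classes of every modulus: assembly.
-/

namespace IP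

open Pool.Agent.IPP

theorem lpg : S_LPG :=
  t_LPG lev avg
    (int_form lev (lp (box_small chi) lev (t1 lev (avi avg) tym) (t2 lev (avi avg)) vau))
    fac (glev lev)

theorem final : S_FIN := rest lpg

end IP
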